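import Pool.Agent.TH497.TW.K5.Env
import Pool.Agent.TH497.TW.K5.Table

set_option autoImplicit false

namespace Pool.Agent.TH497.TW.K5

open Pool.Agent.TH497.PW Pool.Agent.TH497.TW

theorem j0 : joinAll dflt env pt tb 1 t0 vt0 0x3c0000001 (fun _ => true) = true := by decide +kernel

theorem j1 : joinAll dflt env pt tb 5 t1 vt1 0x3c0100001 (fun _ => true) = true := by decide +kernel

theorem j2 : joinAll dflt env pt tb 25 t2 vt2 0xf0100440540bc0200001f0100540000bc0401101502 (fun _ => true) = true := by decide +kernel

theorem j3 : joinAll dflt env pt tb 25 t3 vt2 0xf00802403404405413c0300001f01002403404405400017c0200900d01101504 (fun _ => true) = true := by decide +kernel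

theorem j4 : joinAll dflt env pt tb 25 t4 vt2 0xf01005407c0400001f01000007c0401501 (fun _ => true) = true := by decide +kernel

theorem j5 : joinAll dflt env pt tb 125 t5 vt3 0xf0200440540bc0801500002f02c1281d80941440440540b41041541a42bc0500001f0241780841e80f41281d809414423c0904a07602505101d03504d06508f10240b41041541a400017c0701d03504d06504f02c0540740d41341940b41041541a40002bc0b05e02107a03d01104a0760250510150af0240740d41341940b41041541a423c00702d04105506904f02c1281d80941440440540740d41341942bc0904a07602505102d04105506908f20240740d413419400017c0801101502 (fun _ => true) = true := by decide +kernel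

end Pool.Agent.TH497.TW.K5
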