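import Pool.Agent.TH497.TW.K5.Env
import Pool.Agent.TH497.TW.K5.Table

set_option autoImplicit false

namespace Pool.Agent.TH497.TW.K5

open Pool.Agent.TH497.PW Pool.Agent.TH497.TW

theorem j6 : joinAll dflt env pt tb 125 t6 vt3 0xf01402403404405413c0800900d01101500005f20241c81880e40a41780841e80f41281d80941440240340440540b41041541a453c0600001f0281c81880e40a41780841e80f41281d809414433c00707206203902905e02107a03d04a07602505101d03504d06510f10200b41041541a400017c80501d03504d06504f02c1c81880e40a41780841e80f41281d80941440240340440540740d41341940b41041541a400067c40707206203902905e02107a03d04a07602505100900d01101510f0241c81880e40a41780841e80f41281d80941440740d41341940b41041541a453c40502d04105506904f10241c81880e40a41780841e80f41281d80941440240340440540740d413419453c0707206203902905e02107a03d04a07602505102d04105506910f20200740d413419400017c0500900d01101504 (fun _ => true) = true := by decide +kernel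

theorem j7 : joinAll dflt env pt tb 125 t7 vt3 0xf0240440540bc0901500002f02c1041541a40fc0700001f02c1d80941440fc0b02505106503f02c1541a40000fc80904d06502f02c1541a40000fc0b02505101503f02c1041541a40fc0b04105506903f02c1440541940fc0b04105506903f20241940000bc0901101502 (fun _ => true) = true := by decide +kernel

theorem j8 : joinAll dflt env pt tb 125 t8 vt3 0xf02005407c0800001f02c0540b41041541a417c0800001f0241281d809414413c0901d03504d06504f02c0b41041541a400017c0901d03504d06504f02c0b41041541a400017c0b04a07602505101505f0240b41041541a413c0902d04105506904f02c0540740d413419417c0902d04105506904f02c0740d413419400017c0801501 (fun _ => true) = true := by decide +kernel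

theorem j9 : joinAll dflt env pt tb 125 t9 vt3 0xf02405407c0900001f02c1541a40bc0900001f02c0941440bc0b04d06502f02c1a40000bc0b04d06502f02c1a40000bc0b05101502f02c1541a40bc0b05506902f02c1341940bc0b05506902f02c1940000bc0901501 (fun _ => true) = true := by decide +kernel

theorem j10 : joinAll dflt env pt tb 125 t10 vt3 0xf0240340440540fc0901101500003f02c1441040541a413c0a00001f02c1281d809414413c0b07a02102506504f10241541a40000fc80903504d06503f02c0d410414400013c0b05100902501504f02c0940741341a413c40904105506903f02c09402404419413c0b02105e02506904f20241341940000fc0900d01101503 (fun _ => true) = true := by decide +kernel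

theorem j11 : joinAll dflt env pt tb 125 t11 vt3 0xf02c05407c0b00001f02c1a407c0b00001f02c14407c0b06501f02c00007c0b06501f02c00007c0b01501f02c1a407c0b06901f02c19407c0b06901f02c00007c0b01501 (fun _ => true) = true := by decide +kernel

end Pool.Agent.TH497.TW.K5
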