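import Pool.Agent.TH497.TW.K5.Env
import Pool.Agent.TH497.TW.K5.Table

set_option autoImplicit false

namespace Pool.Agent.TH497.TW.K5

open Pool.Agent.TH497.PW Pool.Agent.TH497.TW

theorem s0_0 : varSw vt0 v0_0 env.sw 0 = true := by decide +kernel

theorem s1_0 : varSw vt1 v1_0 env.sw 0 = true := by decide +kernel

theorem s2_0 : varSw vt2 v2_0 env.sw 0 = true := by decide +kernel

theorem s2_1 : varSw vt2 v2_1 env.sw 1 = true := by decide +kernel

theorem s2_2 : varSw vt2 v2_2 env.sw 2 = true := by decide +kernel

theorem s3_0 : varSw vt3 v3_0 env.sw 0x100800 = true := by decide +kernel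

theorem s3_1 : varSw vt3 v3_1 env.sw 0x402 = true := by decide +kernel

theorem s3_2 : varSw vt3 v3_2 env.sw 0x200001 = true := by decide +kernel

theorem s3_3 : varSw vt3 v3_3 env.sw 0x300c03 = true := by decide +kernel

theorem s3_4 : varSw vt3 v3_4 env.sw 0x401805 = true := by decide +kernel

theorem s3_5 : varSw vt3 v3_5 env.sw 0x601404 = true := by decide +kernel

theorem s3_6 : varSw vt3 v3_6 env.sw 0x501006 = true := by decide +kernel

theorem s3_7 : varSw vt3 v3_7 env.sw 0x802407 = true := by decide +kernel

theorem s3_8 : varSw vt3 v3_8 env.sw 0x702009 = true := by decide +kernel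

theorem s3_9 : varSw vt3 v3_9 env.sw 0x901c08 = true := by decide +kernel

theorem s3_10 : varSw vt3 v3_10 env.sw 0xb0300a = true := by decide +kernel

theorem s3_11 : varSw vt3 v3_11 env.sw 0xa02c0c = true := by decide +kernel

theorem s3_12 : varSw vt3 v3_12 env.sw 0xc0280b = true := by decide +kernel

theorem s3_13 : varSw vt3 v3_13 env.sw 0xd0340d = true := by decide +kernel

theorem s3_14 : varSw vt3 v3_14 env.sw 0xe0380e = true := by decide +kernel

theorem s4_0 : varSw vt4 v4_0 env.sw 0x20100100c00 = true := by decide +kernel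

theorem s4_1 : varSw vt4 v4_1 env.sw 0x8010140000403 = true := by decide +kernel

theorem s4_2 : varSw vt4 v4_2 env.sw 0x4000080201404 = true := by decide +kernel

theorem s4_3 : varSw vt4 v4_3 env.sw 0x100500c0300001 = true := by decide +kernel

theorem s4_4 : varSw vt4 v4_4 env.sw 0xc040000501002 = true := by decide +kernel

theorem s4_5 : varSw vt4 v4_5 env.sw 0x14030040400805 = true := by decide +kernel

theorem s4_6 : varSw vt4 v4_6 env.sw 0x18060180601806 = true := by decide +kernel

theorem s4_7 : varSw vt4 v4_7 env.sw 0x20090300702c0a = true := by decide +kernel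

theorem s4_8 : varSw vt4 v4_8 env.sw 0x1c0803c090480d = true := by decide +kernel

theorem s4_9 : varSw vt4 v4_9 env.sw 0x24070380804011 = true := by decide +kernel

theorem s4_10 : varSw vt4 v4_10 env.sw 0x340e0440b02807 = true := by decide +kernel

theorem s4_11 : varSw vt4 v4_11 env.sw 0x3c100480a01c0b = true := by decide +kernel

theorem s4_12 : varSw vt4 v4_12 env.sw 0x481101c0c03c0e = true := by decide +kernel

theorem s4_13 : varSw vt4 v4_13 env.sw 0x280f0341004408 = true := by decide +kernel

theorem s4_14 : varSw vt4 v4_14 env.sw 0x400a0240f0380c = true := by decide +kernel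

theorem s4_15 : varSw vt4 v4_15 env.sw 0x2c0d0200e0300f = true := by decide +kernel

theorem s4_16 : varSw vt4 v4_16 env.sw 0x380b0400d02412 = true := by decide +kernel

theorem s4_17 : varSw vt4 v4_17 env.sw 0x440c0281203409 = true := by decide +kernel

theorem s4_18 : varSw vt4 v4_18 env.sw 0x301202c1102010 = true := by decide +kernel

theorem s4_19 : varSw vt4 v4_19 env.sw 0x4c150501405413 = true := by decide +kernel

theorem s4_20 : varSw vt4 v4_20 env.sw 0x541404c1305015 = true := by decide +kernel

theorem s4_21 : varSw vt4 v4_21 env.sw 0x50130541504c14 = true := by decide +kernel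

theorem s4_22 : varSw vt4 v4_22 env.sw 0x58160641606017 = true := by decide +kernel

theorem s4_23 : varSw vt4 v4_23 env.sw 0x5c1905c1805c16 = true := by decide +kernel

theorem s4_24 : varSw vt4 v4_24 env.sw 0x64180601705818 = true := by decide +kernel

theorem s4_25 : varSw vt4 v4_25 env.sw 0x60170581906419 = true := by decide +kernel

theorem s4_26 : varSw vt4 v4_26 env.sw 0x681c0781b0741a = true := by decide +kernel

theorem s4_27 : varSw vt4 v4_27 env.sw 0x701b07c1a06c1d = true := by decide +kernel

theorem s4_28 : varSw vt4 v4_28 env.sw 0x6c1a0701c07c1e = true := by decide +kernel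

theorem s4_29 : varSw vt4 v4_29 env.sw 0x781f0741d0681b = true := by decide +kernel

theorem s4_30 : varSw vt4 v4_30 env.sw 0x741e0681f0781c = true := by decide +kernel

theorem s4_31 : varSw vt4 v4_31 env.sw 0x7c1d06c1e0701f = true := by decide +kernel

theorem s4_32 : varSw vt4 v4_32 env.sw 0x802008c2008821 = true := by decide +kernel

theorem s4_33 : varSw vt4 v4_33 env.sw 0x84230842208420 = true := by decide +kernel

theorem s4_34 : varSw vt4 v4_34 env.sw 0x8c220882108022 = true := by decide +kernel

theorem s4_35 : varSw vt4 v4_35 env.sw 0x88210802308c23 = true := by decide +kernel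

theorem s4_36 : varSw vt4 v4_36 env.sw 0x94270a4260a025 = true := by decide +kernel

theorem s4_37 : varSw vt4 v4_37 env.sw 0x902a0b42b0b024 = true := by decide +kernel

theorem s4_38 : varSw vt4 v4_38 env.sw 0xa82b0b8240ac2c = true := by decide +kernel

theorem s4_39 : varSw vt4 v4_39 env.sw 0xac240a82a0b82d = true := by decide +kernel

theorem s4_40 : varSw vt4 v4_40 env.sw 0xb42e0b02c0902b = true := by decide +kernel

theorem s4_41 : varSw vt4 v4_41 env.sw 0xb02d0902e0b42a = true := by decide +kernel

theorem s4_42 : varSw vt4 v4_42 env.sw 0x982509c270bc29 = true := by decide +kernel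

theorem s4_43 : varSw vt4 v4_43 env.sw 0x9c260bc2509828 = true := by decide +kernel

theorem s4_44 : varSw vt4 v4_44 env.sw 0xa42f0a02809426 = true := by decide +kernel

theorem s4_45 : varSw vt4 v4_45 env.sw 0xa0290942f0a427 = true := by decide +kernel

theorem s4_46 : varSw vt4 v4_46 env.sw 0xbc280982909c2f = true := by decide +kernel

theorem s4_47 : varSw vt4 v4_47 env.sw 0xb82c0ac2d0a82e = true := by decide +kernel

theorem s4_48 : varSw vt4 v4_48 env.sw 0xc0320d4310d033 = true := by decide +kernel

theorem s4_49 : varSw vt4 v4_49 env.sw 0xc8310ec300d838 = true := by decide +kernel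

theorem s4_50 : varSw vt4 v4_50 env.sw 0xc4300dc320e43a = true := by decide +kernel

theorem s4_51 : varSw vt4 v4_51 env.sw 0xcc370e8360e030 = true := by decide +kernel

theorem s4_52 : varSw vt4 v4_52 env.sw 0xd4390d0380c036 = true := by decide +kernel

theorem s4_53 : varSw vt4 v4_53 env.sw 0xd03a0c03b0d437 = true := by decide +kernel

theorem s4_54 : varSw vt4 v4_54 env.sw 0xdc360e4330c434 = true := by decide +kernel

theorem s4_55 : varSw vt4 v4_55 env.sw 0xd8330c8370ec35 = true := by decide +kernel

theorem s4_56 : varSw vt4 v4_56 env.sw 0xe83b0e0340cc31 = true := by decide +kernel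

theorem s4_57 : varSw vt4 v4_57 env.sw 0xec340d83a0c839 = true := by decide +kernel

theorem s4_58 : varSw vt4 v4_58 env.sw 0xe0350cc390e832 = true := by decide +kernel

theorem s4_59 : varSw vt4 v4_59 env.sw 0xe4380c4350dc3b = true := by decide +kernel

theorem s4_60 : varSw vt4 v4_60 env.sw 0xf43f1043e1003c = true := by decide +kernel

theorem s4_61 : varSw vt4 v4_61 env.sw 0xf042110431183d = true := by decide +kernel

theorem s4_62 : varSw vt4 v4_62 env.sw 0x1084311c3c0f840 = true := by decide +kernel

theorem s4_63 : varSw vt4 v4_63 env.sw 0x10c3c0fc4211441 = true := by decide +kernel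

theorem s4_64 : varSw vt4 v4_64 env.sw 0x11045118400f03e = true := by decide +kernel

theorem s4_65 : varSw vt4 v4_65 env.sw 0x118410f0471103f = true := by decide +kernel

theorem s4_66 : varSw vt4 v4_66 env.sw 0xf83d1083f11c44 = true := by decide +kernel

theorem s4_67 : varSw vt4 v4_67 env.sw 0xfc3e1143d10c46 = true := by decide +kernel

theorem s4_68 : varSw vt4 v4_68 env.sw 0x100440f44510442 = true := by decide +kernel

theorem s4_69 : varSw vt4 v4_69 env.sw 0x1144010c440fc47 = true := by decide +kernel

theorem s4_70 : varSw vt4 v4_70 env.sw 0x10447100460f443 = true := by decide +kernel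

theorem s4_71 : varSw vt4 v4_71 env.sw 0x11c460f84110845 = true := by decide +kernel

theorem s4_72 : varSw vt4 v4_72 env.sw 0x1204a1304912c48 = true := by decide +kernel

theorem s4_73 : varSw vt4 v4_73 env.sw 0x12849134481244b = true := by decide +kernel

theorem s4_74 : varSw vt4 v4_74 env.sw 0x124481284a1344c = true := by decide +kernel

theorem s4_75 : varSw vt4 v4_75 env.sw 0x1304d12c4b12049 = true := by decide +kernel

theorem s4_76 : varSw vt4 v4_76 env.sw 0x12c4c1204d1304a = true := by decide +kernel

theorem s4_77 : varSw vt4 v4_77 env.sw 0x1344b1244c1284d = true := by decide +kernel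

theorem s4_78 : varSw vt4 v4_78 env.sw 0x1384e1384e1384e = true := by decide +kernel

theorem s4_79 : varSw vt4 v4_79 env.sw 0x1405113c4f14450 = true := by decide +kernel

theorem s4_80 : varSw vt4 v4_80 env.sw 0x13c50144511404f = true := by decide +kernel

theorem s4_81 : varSw vt4 v4_81 env.sw 0x1444f1405013c51 = true := by decide +kernel

theorem s4_82 : varSw vt4 v4_82 env.sw 0x148541585315452 = true := by decide +kernel

theorem s4_83 : varSw vt4 v4_83 env.sw 0x1505315c5214c55 = true := by decide +kernel

theorem s4_84 : varSw vt4 v4_84 env.sw 0x14c521505415c56 = true := by decide +kernel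

theorem s4_85 : varSw vt4 v4_85 env.sw 0x158571545514853 = true := by decide +kernel

theorem s4_86 : varSw vt4 v4_86 env.sw 0x154561485715854 = true := by decide +kernel

theorem s4_87 : varSw vt4 v4_87 env.sw 0x15c5514c5615057 = true := by decide +kernel

theorem s4_88 : varSw vt4 v4_88 env.sw 0x1605816c5816859 = true := by decide +kernel

theorem s4_89 : varSw vt4 v4_89 env.sw 0x1645b1645a16458 = true := by decide +kernel

theorem s4_90 : varSw vt4 v4_90 env.sw 0x16c5a168591605a = true := by decide +kernel

theorem s4_91 : varSw vt4 v4_91 env.sw 0x168591605b16c5b = true := by decide +kernel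

theorem s4_92 : varSw vt4 v4_92 env.sw 0x1705e1805d17c5c = true := by decide +kernel

theorem s4_93 : varSw vt4 v4_93 env.sw 0x1785d1845c1745f = true := by decide +kernel

theorem s4_94 : varSw vt4 v4_94 env.sw 0x1745c1785e18460 = true := by decide +kernel

theorem s4_95 : varSw vt4 v4_95 env.sw 0x1806117c5f1705d = true := by decide +kernel

theorem s4_96 : varSw vt4 v4_96 env.sw 0x17c60170611805e = true := by decide +kernel

theorem s4_97 : varSw vt4 v4_97 env.sw 0x1845f1746017861 = true := by decide +kernel

theorem s4_98 : varSw vt4 v4_98 env.sw 0x18c6519c6419862 = true := by decide +kernel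

theorem s4_99 : varSw vt4 v4_99 env.sw 0x188681a8691b063 = true := by decide +kernel

theorem s4_100 : varSw vt4 v4_100 env.sw 0x1a0691b46219066 = true := by decide +kernel

theorem s4_101 : varSw vt4 v4_101 env.sw 0x1a462194681ac67 = true := by decide +kernel

theorem s4_102 : varSw vt4 v4_102 env.sw 0x1a86b1b06618864 = true := by decide +kernel

theorem s4_103 : varSw vt4 v4_103 env.sw 0x1b0671886d1a865 = true := by decide +kernel

theorem s4_104 : varSw vt4 v4_104 env.sw 0x190631a0651b46a = true := by decide +kernel

theorem s4_105 : varSw vt4 v4_105 env.sw 0x194641ac631a46c = true := by decide +kernel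

theorem s4_106 : varSw vt4 v4_106 env.sw 0x1986a18c6b19c68 = true := by decide +kernel

theorem s4_107 : varSw vt4 v4_107 env.sw 0x1ac661a46a1946d = true := by decide +kernel

theorem s4_108 : varSw vt4 v4_108 env.sw 0x19c6d1986c18c69 = true := by decide +kernel

theorem s4_109 : varSw vt4 v4_109 env.sw 0x1b46c190671a06b = true := by decide +kernel

theorem s4_110 : varSw vt4 v4_110 env.sw 0x1bc701c46e1b86e = true := by decide +kernel

theorem s4_111 : varSw vt4 v4_111 env.sw 0x1b86f1bc701c46f = true := by decide +kernel

theorem s4_112 : varSw vt4 v4_112 env.sw 0x1c06e1c06f1c071 = true := by decide +kernel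

theorem s4_113 : varSw vt4 v4_113 env.sw 0x1c4711b8711bc70 = true := by decide +kernel

theorem s4_114 : varSw vt4 v4_114 env.sw 0x1cc741c8721d073 = true := by decide +kernel

theorem s4_115 : varSw vt4 v4_115 env.sw 0x1c8731d0741cc72 = true := by decide +kernel

theorem s4_116 : varSw vt4 v4_116 env.sw 0x1d0721cc731c874 = true := by decide +kernel

theorem s4_117 : varSw vt4 v4_117 env.sw 0x1d8771d4751dc76 = true := by decide +kernel

theorem s4_118 : varSw vt4 v4_118 env.sw 0x1d4761dc771d875 = true := by decide +kernel

theorem s4_119 : varSw vt4 v4_119 env.sw 0x1dc751d8761d477 = true := by decide +kernel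

theorem s4_120 : varSw vt4 v4_120 env.sw 0x1e0781e0781e078 = true := by decide +kernel

theorem s5_0 : varSw vt5 v5_0 env.sw 0xc06000020140101000 = true := by decide +kernel

theorem s5_1 : varSw vt5 v5_1 env.sw 0x403004080080101c0000404 = true := by decide +kernel

theorem s5_2 : varSw vt5 v5_2 env.sw 0xc0200809004000080201c05 = true := by decide +kernel

theorem s5_3 : varSw vt5 v5_3 env.sw 0x8010000300c030240302006 = true := by decide +kernel

theorem s5_4 : varSw vt5 v5_4 env.sw 0x100602004014070100400001 = true := by decide +kernel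

theorem s5_5 : varSw vt5 v5_5 env.sw 0x180502405010050000701402 = true := by decide +kernel

theorem s5_6 : varSw vt5 v5_6 env.sw 0x140401800018090180801803 = true := by decide +kernel

theorem s5_7 : varSw vt5 v5_7 env.sw 0x200901c0701c040040500807 = true := by decide +kernel

theorem s5_8 : varSw vt5 v5_8 env.sw 0x1c0801001024080200600c08 = true := by decide +kernel

theorem s5_9 : varSw vt5 v5_9 env.sw 0x2407014020200600c0902409 = true := by decide +kernel

theorem s5_10 : varSw vt5 v5_10 env.sw 0x280a0280a0280a0280a0280a = true := by decide +kernel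

theorem s5_11 : varSw vt5 v5_11 env.sw 0x2c0d03c130300e0480b04410 = true := by decide +kernel

theorem s5_12 : varSw vt5 v5_12 env.sw 0x340c0502302c0c0640e07815 = true := by decide +kernel

theorem s5_13 : varSw vt5 v5_13 env.sw 0x300b0341a0341407c0f08816 = true := by decide +kernel

theorem s5_14 : varSw vt5 v5_14 env.sw 0x3c14038240380b05c0c06c1d = true := by decide +kernel

theorem s5_15 : varSw vt5 v5_15 env.sw 0x380f02c180500f0800d07021 = true := by decide +kernel

theorem s5_16 : varSw vt5 v5_16 env.sw 0x40160602105417074110400b = true := by decide +kernel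

theorem s5_17 : varSw vt5 v5_17 env.sw 0x441a070220641b0781002c11 = true := by decide +kernel

theorem s5_18 : varSw vt5 v5_18 env.sw 0x4c1f080120781d02c1206417 = true := by decide +kernel

theorem s5_19 : varSw vt5 v5_19 env.sw 0x48220840b08c2404c1306818 = true := by decide +kernel

theorem s5_20 : varSw vt5 v5_20 env.sw 0x500e0302603c0d094140a027 = true := by decide +kernel

theorem s5_21 : varSw vt5 v5_21 env.sw 0x581509827040190541b0740c = true := by decide +kernel

theorem s5_22 : varSw vt5 v5_22 env.sw 0x5410068160582509c1c0840d = true := by decide +kernel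

theorem s5_23 : varSw vt5 v5_23 env.sw 0x602505c2006c100381905c12 = true := by decide +kernel

theorem s5_24 : varSw vt5 v5_24 env.sw 0x5c1c0400f098180901a06013 = true := by decide +kernel

theorem s5_25 : varSw vt5 v5_25 env.sw 0x68190941f044150301704819 = true := by decide +kernel

theorem s5_26 : varSw vt5 v5_26 env.sw 0x64110580d0682608c1804c1a = true := by decide +kernel

theorem s5_27 : varSw vt5 v5_27 env.sw 0x702606c2805c1106c150381e = true := by decide +kernel

theorem s5_28 : varSw vt5 v5_28 env.sw 0x6c180441c0941c0a01603c22 = true := by decide +kernel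

theorem s5_29 : varSw vt5 v5_29 env.sw 0x84270901d074120401e0540e = true := by decide +kernel

theorem s5_30 : varSw vt5 v5_30 env.sw 0x88230a01e0481e0441d0301b = true := by decide +kernel

theorem s5_31 : varSw vt5 v5_31 env.sw 0x8c1207c19088270342007c25 = true := by decide +kernel

theorem s5_32 : varSw vt5 v5_32 env.sw 0x9020048170a02103c1f09420 = true := by decide +kernel

theorem s5_33 : varSw vt5 v5_33 env.sw 0x742104c1009c20084220580f = true := by decide +kernel

theorem s5_34 : varSw vt5 v5_34 env.sw 0x78130881107c28088210341c = true := by decide +kernel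

theorem s5_35 : varSw vt5 v5_35 env.sw 0x7c1e09c0c04c230682408c26 = true := by decide +kernel

theorem s5_36 : varSw vt5 v5_36 env.sw 0x80280740e090130602309824 = true := by decide +kernel

theorem s5_37 : varSw vt5 v5_37 env.sw 0x98170642507016050250801f = true := by decide +kernel

theorem s5_38 : varSw vt5 v5_38 env.sw 0x941b054140601a0982609023 = true := by decide +kernel

theorem s5_39 : varSw vt5 v5_39 env.sw 0x9c1d08c150841f0582809c14 = true := by decide +kernel

theorem s5_40 : varSw vt5 v5_40 env.sw 0xa0240781b080220702705028 = true := by decide +kernel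

theorem s5_41 : varSw vt5 v5_41 env.sw 0xa82b0b82f0a42d0b02c0b429 = true := by decide +kernel

theorem s5_42 : varSw vt5 v5_42 env.sw 0xa42a0c8300ac350dc300c82a = true := by decide +kernel

theorem s5_43 : varSw vt5 v5_43 env.sw 0xac290c4330a8330c4340d82b = true := by decide +kernel

theorem s5_44 : varSw vt5 v5_44 env.sw 0xc0310d0370b42c0a4290b02d = true := by decide +kernel

theorem s5_45 : varSw vt5 v5_45 env.sw 0xc8330d4360b0290b42d0a42c = true := by decide +kernel

theorem s5_46 : varSw vt5 v5_46 env.sw 0xd4340a42e0b8320d0310d42f = true := by decide +kernel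

theorem s5_47 : varSw vt5 v5_47 env.sw 0xdc360bc290bc360c0370cc2e = true := by decide +kernel

theorem s5_48 : varSw vt5 v5_48 env.sw 0xb0320c02a0cc340bc2a0c032 = true := by decide +kernel

theorem s5_49 : varSw vt5 v5_49 env.sw 0xcc2c0ac310c8310ac2e0dc33 = true := by decide +kernel

theorem s5_50 : varSw vt5 v5_50 env.sw 0xb4300a8320c42e0d8320a830 = true := by decide +kernel

theorem s5_51 : varSw vt5 v5_51 env.sw 0xc42d0cc2b0c02b0cc350bc31 = true := by decide +kernel

theorem s5_52 : varSw vt5 v5_52 env.sw 0xd02e0b0350d4300b82b0d036 = true := by decide +kernel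

theorem s5_53 : varSw vt5 v5_53 env.sw 0xb8350b4340d02a0d4330b837 = true := by decide +kernel

theorem s5_54 : varSw vt5 v5_54 env.sw 0xd82f0dc2d0dc2f0c8360ac34 = true := by decide +kernel

theorem s5_55 : varSw vt5 v5_55 env.sw 0xbc370d82c0d8370a82f0c435 = true := by decide +kernel

theorem s5_56 : varSw vt5 v5_56 env.sw 0xe43a0ec380e0380f8380f43c = true := by decide +kernel

theorem s5_57 : varSw vt5 v5_57 env.sw 0xe0390e43e0e83b0e4391043f = true := by decide +kernel

theorem s5_58 : varSw vt5 v5_58 env.sw 0xe8380e83d0e43a1043b0e840 = true := by decide +kernel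

theorem s5_59 : varSw vt5 v5_59 env.sw 0xec3b0e03c0ec390fc3a1003b = true := by decide +kernel

theorem s5_60 : varSw vt5 v5_60 env.sw 0xfc400f03b0f03e0f03d0f038 = true := by decide +kernel

theorem s5_61 : varSw vt5 v5_61 env.sw 0x1043d1003a0f83d0f43c0e03d = true := by decide +kernel

theorem s5_62 : varSw vt5 v5_62 env.sw 0xf8410fc390f43c0e03e0f83e = true := by decide +kernel

theorem s5_63 : varSw vt5 v5_63 env.sw 0xf03f0f83f1003f0ec410fc39 = true := by decide +kernel

theorem s5_64 : varSw vt5 v5_64 env.sw 0x1003c0f4400fc41100400ec3a = true := by decide +kernel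

theorem s5_65 : varSw vt5 v5_65 env.sw 0xf43e10441104400e83f0e441 = true := by decide +kernel

theorem s5_66 : varSw vt5 v5_66 env.sw 0x10842114481084411c4311842 = true := by decide +kernel

theorem s5_67 : varSw vt5 v5_67 env.sw 0x10c4510c4a110431244210c46 = true := by decide +kernel

theorem s5_68 : varSw vt5 v5_68 env.sw 0x114441104b10c421104412447 = true := by decide +kernel

theorem s5_69 : varSw vt5 v5_69 env.sw 0x11043108451144512c4512848 = true := by decide +kernel

theorem s5_70 : varSw vt5 v5_70 env.sw 0x118481284611c491184610843 = true := by decide +kernel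

theorem s5_71 : varSw vt5 v5_71 env.sw 0x1204712c47118471084911c44 = true := by decide +kernel

theorem s5_72 : varSw vt5 v5_72 env.sw 0x11c46120421204b1204a12045 = true := by decide +kernel

theorem s5_73 : varSw vt5 v5_73 env.sw 0x1284b124491244610c4711049 = true := by decide +kernel

theorem s5_74 : varSw vt5 v5_74 env.sw 0x1244a1184312c4a128481144a = true := by decide +kernel

theorem s5_75 : varSw vt5 v5_75 env.sw 0x12c4911c44128481144b12c4b = true := by decide +kernel

theorem s5_76 : varSw vt5 v5_76 env.sw 0x1344e13c531304c1484c14450 = true := by decide +kernel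

theorem s5_77 : varSw vt5 v5_77 env.sw 0x1304d1345a1384f17c4d15c54 = true := by decide +kernel

theorem s5_78 : varSw vt5 v5_78 env.sw 0x1384c138581344e16c4f17855 = true := by decide +kernel

theorem s5_79 : varSw vt5 v5_79 env.sw 0x13c4f1305613c4d1704e1645d = true := by decide +kernel

theorem s5_80 : varSw vt5 v5_80 env.sw 0x150551585d14052140511404c = true := by decide +kernel

theorem s5_81 : varSw vt5 v5_81 env.sw 0x15c581645e148511445013051 = true := by decide +kernel

theorem s5_82 : varSw vt5 v5_82 env.sw 0x1685b1705f144501305214852 = true := by decide +kernel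

theorem s5_83 : varSw vt5 v5_83 env.sw 0x17c5e1744c14c531685316056 = true := by decide +kernel

theorem s5_84 : varSw vt5 v5_84 env.sw 0x14054168541545c174571504d = true := by decide +kernel

theorem s5_85 : varSw vt5 v5_85 env.sw 0x15450160551505b154591744e = true := by decide +kernel

theorem s5_86 : varSw vt5 v5_86 env.sw 0x170591404f1585a1585815853 = true := by decide +kernel

theorem s5_87 : varSw vt5 v5_87 env.sw 0x1445a15c5716c591785413457 = true := by decide +kernel

theorem s5_88 : varSw vt5 v5_88 env.sw 0x16c511544e168581605614c58 = true := by decide +kernel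

theorem s5_89 : varSw vt5 v5_89 env.sw 0x1645614459170571645513c5e = true := by decide +kernel

theorem s5_90 : varSw vt5 v5_90 env.sw 0x148571504d1605614c5a1685a = true := by decide +kernel

theorem s5_91 : varSw vt5 v5_91 env.sw 0x1605216c5b15c551385c17c5b = true := by decide +kernel

theorem s5_92 : varSw vt5 v5_92 env.sw 0x1585c1485c1645413c5b1705f = true := by decide +kernel

theorem s5_93 : varSw vt5 v5_93 env.sw 0x1745d14c501745f1505e1544f = true := by decide +kernel

theorem s5_94 : varSw vt5 v5_94 env.sw 0x178531785117c5e15c5d13859 = true := by decide +kernel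

theorem s5_95 : varSw vt5 v5_95 env.sw 0x14c5f17c521785d1345f16c5c = true := by decide +kernel

theorem s5_96 : varSw vt5 v5_96 env.sw 0x1846319869188651a06419c62 = true := by decide +kernel

theorem s5_97 : varSw vt5 v5_97 env.sw 0x1806a1c07b1ac732006c1d86a = true := by decide +kernel

theorem s5_98 : varSw vt5 v5_98 env.sw 0x1a86b1d07e1806d1dc6f1d460 = true := by decide +kernel

theorem s5_99 : varSw vt5 v5_99 env.sw 0x1ac601b8781a8711f0721fc6b = true := by decide +kernel

theorem s5_100 : varSw vt5 v5_100 env.sw 0x1b06e1c8811b46f1e4601bc75 = true := by decide +kernel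

theorem s5_101 : varSw vt5 v5_101 env.sw 0x1c0711cc821bc601b46d1e477 = true := by decide +kernel

theorem s5_102 : varSw vt5 v5_102 env.sw 0x1cc72180741d0701f46e1e87e = true := by decide +kernel

theorem s5_103 : varSw vt5 v5_103 env.sw 0x1d8781e87f1dc791d4751806f = true := by decide +kernel

theorem s5_104 : varSw vt5 v5_104 env.sw 0x1ec7c1f4801d477180791dc6d = true := by decide +kernel

theorem s5_105 : varSw vt5 v5_105 env.sw 0x2007f1f8601f8821ec811e074 = true := by decide +kernel

theorem s5_106 : varSw vt5 v5_106 env.sw 0x1886120c8b18c882508522461 = true := by decide +kernel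

theorem s5_107 : varSw vt5 v5_107 env.sw 0x18c622188a184842308724c63 = true := by decide +kernel

theorem s5_108 : varSw vt5 v5_108 env.sw 0x190832148d210872586121489 = true := by decide +kernel

theorem s5_109 : varSw vt5 v5_109 env.sw 0x20c8422097190621946523868 = true := by decide +kernel

theorem s5_110 : varSw vt5 v5_110 env.sw 0x2106418c8620c8623c662548a = true := by decide +kernel

theorem s5_111 : varSw vt5 v5_111 env.sw 0x2148621c95194642386219067 = true := by decide +kernel

theorem s5_112 : varSw vt5 v5_112 env.sw 0x19485184832186625c832348b = true := by decide +kernel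

theorem s5_113 : varSw vt5 v5_113 env.sw 0x218652108f21463210882588c = true := by decide +kernel

theorem s5_114 : varSw vt5 v5_114 env.sw 0x21c6619091220852406321c93 = true := by decide +kernel

theorem s5_115 : varSw vt5 v5_115 env.sw 0x198881949221c612208424094 = true := by decide +kernel

theorem s5_116 : varSw vt5 v5_116 env.sw 0x2208718866198832488624469 = true := by decide +kernel

theorem s5_117 : varSw vt5 v5_117 env.sw 0x2248a244931a08e19c6718864 = true := by decide +kernel

theorem s5_118 : varSw vt5 v5_118 env.sw 0x19c8b234892309024c8918485 = true := by decide +kernel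

theorem s5_119 : varSw vt5 v5_119 env.sw 0x22c8c2489419c681888e1a065 = true := by decide +kernel

theorem s5_120 : varSw vt5 v5_120 env.sw 0x230672286322c8f228911a486 = true := by decide +kernel

theorem s5_121 : varSw vt5 v5_121 env.sw 0x2348f2409623867190681948e = true := by decide +kernel

theorem s5_122 : varSw vt5 v5_122 env.sw 0x2409119c872488d2448a19895 = true := by decide +kernel

theorem s5_123 : varSw vt5 v5_123 env.sw 0x1a08922c61228921a48d22c83 = true := by decide +kernel

theorem s5_124 : varSw vt5 v5_124 env.sw 0x2286823c8c2248c18c9025084 = true := by decide +kernel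

theorem s5_125 : varSw vt5 v5_125 env.sw 0x248901a0882448b1988f24897 = true := by decide +kernel

theorem s5_126 : varSw vt5 v5_126 env.sw 0x250931a4621a49722c9522866 = true := by decide +kernel

theorem s5_127 : varSw vt5 v5_127 env.sw 0x24c6925467250962249318c87 = true := by decide +kernel

theorem s5_128 : varSw vt5 v5_128 env.sw 0x1a49425c6824c941849623088 = true := by decide +kernel

theorem s5_129 : varSw vt5 v5_129 env.sw 0x2589524c6425c952346921891 = true := by decide +kernel

theorem s5_130 : varSw vt5 v5_130 env.sw 0x25c96250652546920c9723c92 = true := by decide +kernel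

theorem s5_131 : varSw vt5 v5_131 env.sw 0x1b46c1a8701b874208702607b = true := by decide +kernel

theorem s5_132 : varSw vt5 v5_132 env.sw 0x1b86d1c4991b06b1c47326c7c = true := by decide +kernel

theorem s5_133 : varSw vt5 v5_133 env.sw 0x1bc701b0981c47226c6a1b076 = true := by decide +kernel

theorem s5_134 : varSw vt5 v5_134 env.sw 0x1c46f1ac6e1c06e2647420478 = true := by decide +kernel

theorem s5_135 : varSw vt5 v5_135 env.sw 0x1c8741bc7a1cc6c2686b1c87f = true := by decide +kernel

theorem s5_136 : varSw vt5 v5_136 env.sw 0x1d0731b47d1c86a1cc7126880 = true := by decide +kernel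

theorem s5_137 : varSw vt5 v5_137 env.sw 0x1d47b260761f09a1fc761a86c = true := by decide +kernel

theorem s5_138 : varSw vt5 v5_138 env.sw 0x1f0751e06b1ec991e07a1f86e = true := by decide +kernel

theorem s5_139 : varSw vt5 v5_139 env.sw 0x1dc761ec6a1e07d1f8981ec70 = true := by decide +kernel

theorem s5_140 : varSw vt5 v5_140 env.sw 0x1e0772647c1d87c1ac9a20071 = true := by decide +kernel

theorem s5_141 : varSw vt5 v5_141 env.sw 0x1e4981d86c2647a2047b1c098 = true := by decide +kernel

theorem s5_142 : varSw vt5 v5_142 env.sw 0x260992689b1e4751bc771b479 = true := by decide +kernel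

theorem s5_143 : varSw vt5 v5_143 env.sw 0x264791f071260781b87d20899 = true := by decide +kernel

theorem s5_144 : varSw vt5 v5_144 env.sw 0x1e87d1e49a268761c87c1cc9b = true := by decide +kernel

theorem s5_145 : varSw vt5 v5_145 env.sw 0x2687a1d4721f4981e8781d081 = true := by decide +kernel

theorem s5_146 : varSw vt5 v5_146 env.sw 0x1f49a1dc731e87b1d0991f482 = true := by decide +kernel

theorem s5_147 : varSw vt5 v5_147 env.sw 0x1fc7e204752009b1d87f1ac72 = true := by decide +kernel

theorem s5_148 : varSw vt5 v5_148 env.sw 0x1f880208771fc801a89b1f073 = true := by decide +kernel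

theorem s5_149 : varSw vt5 v5_149 env.sw 0x26c811fc6f208812607e1b87a = true := by decide +kernel

theorem s5_150 : varSw vt5 v5_150 env.sw 0x2048226c7926c7f1b0801c49a = true := by decide +kernel

theorem s5_151 : varSw vt5 v5_151 env.sw 0x2089b2006d2047e1c0822647d = true := by decide +kernel

theorem s5_152 : varSw vt5 v5_152 env.sw 0x2388d2248523c912548b20c8d = true := by decide +kernel

theorem s5_153 : varSw vt5 v5_153 env.sw 0x23c8e230842348a2189225c8f = true := by decide +kernel

theorem s5_154 : varSw vt5 v5_154 env.sw 0x24492238902408921c8c22096 = true := by decide +kernel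

theorem s5_155 : varSw vt5 v5_155 env.sw 0x254972588e258932149421090 = true := by decide +kernel

theorem s5_156 : varSw vt5 v5_156 env.sw 0x2749e284a5270a02909f28ca2 = true := by decide +kernel

theorem s5_157 : varSw vt5 v5_157 env.sw 0x2709d2a0b7278ab2f4a62c8ac = true := by decide +kernel

theorem s5_158 : varSw vt5 v5_158 env.sw 0x2789c29cb3274a92e0aa2f0ad = true := by decide +kernel

theorem s5_159 : varSw vt5 v5_159 env.sw 0x298a72a8be2809f2e49c2b8b1 = true := by decide +kernel

theorem s5_160 : varSw vt5 v5_160 env.sw 0x2a0a92acbf27c9c2bca02d0b6 = true := by decide +kernel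

theorem s5_161 : varSw vt5 v5_161 env.sw 0x2acaa270b0284a82e8a72d4bb = true := by decide +kernel

theorem s5_162 : varSw vt5 v5_162 env.sw 0x2b0ad2c0bb288af2d8ae2c49c = true := by decide +kernel

theorem s5_163 : varSw vt5 v5_163 env.sw 0x2c8b32d4bc290b428cb1270ae = true := by decide +kernel

theorem s5_164 : varSw vt5 v5_164 env.sw 0x2dcb82e8bd28cb6270b9290af = true := by decide +kernel

theorem s5_165 : varSw vt5 v5_165 env.sw 0x2f4bc2ec9c294bf2dcbe2ccb0 = true := by decide +kernel

theorem s5_166 : varSw vt5 v5_166 env.sw 0x27ca8298ce2a4aa3549d300c6 = true := by decide +kernel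

theorem s5_167 : varSw vt5 v5_167 env.sw 0x2a49f278c12a0a733ca1350c7 = true := by decide +kernel

theorem s5_168 : varSw vt5 v5_168 env.sw 0x280a6274c229ca135ca8320cc = true := by decide +kernel

theorem s5_169 : varSw vt5 v5_169 env.sw 0x29ca02a4c92989e30cab358cd = true := by decide +kernel

theorem s5_170 : varSw vt5 v5_170 env.sw 0x2a8a127ccb2aca63409e310d2 = true := by decide +kernel

theorem s5_171 : varSw vt5 v5_171 env.sw 0x284ab280d12a89d314a9328d3 = true := by decide +kernel

theorem s5_172 : varSw vt5 v5_172 env.sw 0x288ac308cc2b4c534cc03189d = true := by decide +kernel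

theorem s5_173 : varSw vt5 v5_173 env.sw 0x2b4a2304c72b0c3334c43489e = true := by decide +kernel

theorem s5_174 : varSw vt5 v5_174 env.sw 0x300c1310d42bcae2d0a227ca3 = true := by decide +kernel

theorem s5_175 : varSw vt5 v5_175 env.sw 0x308c3314d72b8a2280af2e4a4 = true := by decide +kernel

theorem s5_176 : varSw vt5 v5_176 env.sw 0x314c4288a12c0c2344c132ca5 = true := by decide +kernel

theorem s5_177 : varSw vt5 v5_177 env.sw 0x318c732cd22d8b92c4a32889f = true := by decide +kernel

theorem s5_178 : varSw vt5 v5_178 env.sw 0x28cb7320b22e0ca2f0c6274c0 = true := by decide +kernel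

theorem s5_179 : varSw vt5 v5_179 env.sw 0x2e0a331c9e2dcc92cccb294c1 = true := by decide +kernel

theorem s5_180 : varSw vt5 v5_180 env.sw 0x320c9328d62e4a32b8b6280b4 = true := by decide +kernel

theorem s5_181 : varSw vt5 v5_181 env.sw 0x328cb28cc42e8c82d4c7284d4 = true := by decide +kernel

theorem s5_182 : varSw vt5 v5_182 env.sw 0x330cd344d32c4a4288b42d8a0 = true := by decide +kernel

theorem s5_183 : varSw vt5 v5_183 env.sw 0x290b23309d2ccd1294ce2dcc2 = true := by decide +kernel

theorem s5_184 : varSw vt5 v5_184 env.sw 0x2cca433cb82c8cd278d02f4c3 = true := by decide +kernel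

theorem s5_185 : varSw vt5 v5_185 env.sw 0x338cf340d52d0b127ca42bcb9 = true := by decide +kernel

theorem s5_186 : varSw vt5 v5_186 env.sw 0x344d0290c52d4cc284cf2e8d7 = true := by decide +kernel

theorem s5_187 : varSw vt5 v5_187 env.sw 0x34cd2294a22ecd7330d431ca1 = true := by decide +kernel

theorem s5_188 : varSw vt5 v5_188 env.sw 0x2f0a5350a32f4d62c8d2278c4 = true := by decide +kernel

theorem s5_189 : varSw vt5 v5_189 env.sw 0x294bd35ca42f0d3274d52e0c5 = true := by decide +kernel

theorem s5_190 : varSw vt5 v5_190 env.sw 0x354d43489f2fcbe338a5304cb = true := by decide +kernel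

theorem s5_191 : varSw vt5 v5_191 env.sw 0x35cd634ca02f8a5308bf324d1 = true := by decide +kernel

theorem s5_192 : varSw vt5 v5_192 env.sw 0x2b8c2300c830cc4358ac298b2 = true := by decide +kernel

theorem s5_193 : varSw vt5 v5_193 env.sw 0x30cae2b4a7308c1324b02f8b3 = true := by decide +kernel

theorem s5_194 : varSw vt5 v5_194 env.sw 0x2bcc02b0a8304b02fcc2338b7 = true := by decide +kernel

theorem s5_195 : varSw vt5 v5_195 env.sw 0x304af30ccf300ad2a4c5354b8 = true := by decide +kernel

theorem s5_196 : varSw vt5 v5_196 env.sw 0x310b02b8b5314c0328ad2a8bc = true := by decide +kernel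

theorem s5_197 : varSw vt5 v5_197 env.sw 0x2c0c52bcba310ac2acc3340bd = true := by decide +kernel

theorem s5_198 : varSw vt5 v5_198 env.sw 0x2c4cc338c6334d0348b22b0a6 = true := by decide +kernel

theorem s5_199 : varSw vt5 v5_199 env.sw 0x334b12ccad330cf31cb52eca7 = true := by decide +kernel

theorem s5_200 : varSw vt5 v5_200 env.sw 0x2d0ce2c8c033cb5350cc2a0c8 = true := by decide +kernel

theorem s5_201 : varSw vt5 v5_201 env.sw 0x33cb4334a9338b3304d12fcc9 = true := by decide +kernel

theorem s5_202 : varSw vt5 v5_202 env.sw 0x2d4d12d0ca340b2310cd2acd6 = true := by decide +kernel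

theorem s5_203 : varSw vt5 v5_203 env.sw 0x340b52c4aa344ce32cb32c0be = true := by decide +kernel

theorem s5_204 : varSw vt5 v5_204 env.sw 0x2d8c62dcac31cba2ecc8330a8 = true := by decide +kernel

theorem s5_205 : varSw vt5 v5_205 env.sw 0x31cb6324cd318b82b4ca34ca9 = true := by decide +kernel

theorem s5_206 : varSw vt5 v5_206 env.sw 0x2e4c8318a6324cb2f8b7308ce = true := by decide +kernel

theorem s5_207 : varSw vt5 v5_207 env.sw 0x324b92e0c3320c729cba35ccf = true := by decide +kernel

theorem s5_208 : varSw vt5 v5_208 env.sw 0x32cba2e4d0328c62a8b8314d5 = true := by decide +kernel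

theorem s5_209 : varSw vt5 v5_209 env.sw 0x2e8ca2d8ab32cb72c0c9344bf = true := by decide +kernel

theorem s5_210 : varSw vt5 v5_210 env.sw 0x348bb2f8b134cd5318bc2b4aa = true := by decide +kernel

theorem s5_211 : varSw vt5 v5_211 env.sw 0x2ecd32fcb6348bd2b0d6334ab = true := by decide +kernel

theorem s5_212 : varSw vt5 v5_212 env.sw 0x358be2f0ae35cd4320bb29cb5 = true := by decide +kernel

theorem s5_213 : varSw vt5 v5_213 env.sw 0x2f8d7354b9358d2298bd30cd0 = true := by decide +kernel

theorem s5_214 : varSw vt5 v5_214 env.sw 0x350bf358b4354bc300d32a4ca = true := by decide +kernel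

theorem s5_215 : varSw vt5 v5_215 env.sw 0x2fcd52f4af350bb2a0d733cba = true := by decide +kernel

theorem s5_216 : varSw vt5 v5_216 env.sw 0x360da374e0364dc37cdb378d8 = true := by decide +kernel

theorem s5_217 : varSw vt5 v5_217 env.sw 0x368d9398f0360e139ce33acd9 = true := by decide +kernel

theorem s5_218 : varSw vt5 v5_218 env.sw 0x364d8388e8368e43b0e53bcda = true := by decide +kernel

theorem s5_219 : varSw vt5 v5_219 env.sw 0x36ce2394f1384e33b4d836cde = true := by decide +kernel

theorem s5_220 : varSw vt5 v5_220 env.sw 0x374e4370ee38cd8370e13a4df = true := by decide +kernel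

theorem s5_221 : varSw vt5 v5_221 env.sw 0x370e5360dd398dd3b8e23a8e0 = true := by decide +kernel

theorem s5_222 : varSw vt5 v5_222 env.sw 0x378e83a8ef39ce93acde360db = true := by decide +kernel

theorem s5_223 : varSw vt5 v5_223 env.sw 0x380ec3b8df3acdf360ed39cdc = true := by decide +kernel

theorem s5_224 : varSw vt5 v5_224 env.sw 0x37cef380d83c0ee380f13a0dd = true := by decide +kernel

theorem s5_225 : varSw vt5 v5_225 env.sw 0x388e1390f336cd9384dc3b4e7 = true := by decide +kernel

theorem s5_226 : varSw vt5 v5_226 env.sw 0x384db368e2388e63ccdd3c4e8 = true := by decide +kernel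

theorem s5_227 : varSw vt5 v5_227 env.sw 0x394e638cf4370db3a4d938ceb = true := by decide +kernel

theorem s5_228 : varSw vt5 v5_228 env.sw 0x398dc384f2394da390e43d4ec = true := by decide +kernel

theorem s5_229 : varSw vt5 v5_229 env.sw 0x38cdd36cea390e53d4da394ef = true := by decide +kernel

theorem s5_230 : varSw vt5 v5_230 env.sw 0x390e3364e6374e23c8e63d0f0 = true := by decide +kernel

theorem s5_231 : varSw vt5 v5_231 env.sw 0x3a0e73c8ec378e7364e937ce1 = true := by decide +kernel

theorem s5_232 : varSw vt5 v5_232 env.sw 0x39cde3a0da3a0f23c0ea380e2 = true := by decide +kernel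

theorem s5_233 : varSw vt5 v5_233 env.sw 0x3a8f23a4f53a4de38ce7370ed = true := by decide +kernel

theorem s5_234 : varSw vt5 v5_234 env.sw 0x3a4ea378e53c8ea3d0e8374f1 = true := by decide +kernel

theorem s5_235 : varSw vt5 v5_235 env.sw 0x3bcf03d0eb37ced378eb364e3 = true := by decide +kernel

theorem s5_236 : varSw vt5 v5_236 env.sw 0x3c0df3cce73bcec368f53b0e4 = true := by decide +kernel

theorem s5_237 : varSw vt5 v5_237 env.sw 0x3c4f33d4ed3b4eb36cdf384e9 = true := by decide +kernel

theorem s5_238 : varSw vt5 v5_238 env.sw 0x3b8f537cdc3d0e0374f33c8ee = true := by decide +kernel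

theorem s5_239 : varSw vt5 v5_239 env.sw 0x3ace03c4de3b0f53bcef368e5 = true := by decide +kernel

theorem s5_240 : varSw vt5 v5_240 env.sw 0x3b0eb3c0d9380f33a0f43c0e6 = true := by decide +kernel

theorem s5_241 : varSw vt5 v5_241 env.sw 0x3b4f13bcdb3ccf43c4e0388ea = true := by decide +kernel

theorem s5_242 : varSw vt5 v5_242 env.sw 0x3c8e939ce43a8e8398f23b8f3 = true := by decide +kernel

theorem s5_243 : varSw vt5 v5_243 env.sw 0x3cced3b0e13c4f0388ee3ccf2 = true := by decide +kernel

theorem s5_244 : varSw vt5 v5_244 env.sw 0x3d4f43ace33b8f13a8f0398f4 = true := by decide +kernel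

theorem s5_245 : varSw vt5 v5_245 env.sw 0x3d0ee3b4e93d4ef394ec390f5 = true := by decide +kernel

theorem s5_246 : varSw vt5 v5_246 env.sw 0x3dcf83ecfe3d8fa3f4f93f0f6 = true := by decide +kernel

theorem s5_247 : varSw vt5 v5_247 env.sw 0x3d8f7405093e104434ff414f7 = true := by decide +kernel

theorem s5_248 : varSw vt5 v5_248 env.sw 0x3e0f6401063dd0242903430f8 = true := by decide +kernel

theorem s5_249 : varSw vt5 v5_249 env.sw 0x3fd0040d0e3e8f941cf63e4fc = true := by decide +kernel

theorem s5_250 : varSw vt5 v5_250 env.sw 0x405024110f3e4f63e8fa41cfd = true := by decide +kernel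

theorem s5_251 : varSw vt5 v5_251 env.sw 0x411033d8fb3ed0142d00420fe = true := by decide +kernel

theorem s5_252 : varSw vt5 v5_252 env.sw 0x415064210c3f5073f0fc3d8f9 = true := by decide +kernel

theorem s5_253 : varSw vt5 v5_253 env.sw 0x4250a42d0d3f0fd3d9073f4fa = true := by decide +kernel

theorem s5_254 : varSw vt5 v5_254 env.sw 0x4350c3f8f63f90f4250e418fb = true := by decide +kernel

theorem s5_255 : varSw vt5 v5_255 env.sw 0x3e5013fd104090344cf73fd05 = true := by decide +kernel

theorem s5_256 : varSw vt5 v5_256 env.sw 0x408f93e10040500444fb43906 = true := by decide +kernel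

theorem s5_257 : varSw vt5 v5_257 env.sw 0x3e8ff3dd01400fb43d0144109 = true := by decide +kernel

theorem s5_258 : varSw vt5 v5_258 env.sw 0x400fa409113fcf84090444d0a = true := by decide +kernel

theorem s5_259 : varSw vt5 v5_259 env.sw 0x40cfb3e508410ff448f840d0c = true := by decide +kernel

theorem s5_260 : varSw vt5 v5_260 env.sw 0x3ed043e90b40cf7411024490d = true := by decide +kernel

theorem s5_261 : varSw vt5 v5_261 env.sw 0x3f1094410542912431053dcff = true := by decide +kernel

theorem s5_262 : varSw vt5 v5_262 env.sw 0x428fc418f842511419083f900 = true := by decide +kernel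

theorem s5_263 : varSw vt5 v5_263 env.sw 0x441114491341cfc3e4fd3e907 = true := by decide +kernel

theorem s5_264 : varSw vt5 v5_264 env.sw 0x449083f10342d10421063ed0e = true := by decide +kernel

theorem s5_265 : varSw vt5 v5_265 env.sw 0x3f505424f74190b3f91042501 = true := by decide +kernel

theorem s5_266 : varSw vt5 v5_266 env.sw 0x418fd4450a4150a3e11243502 = true := by decide +kernel

theorem s5_267 : varSw vt5 v5_267 env.sw 0x42d123f504421093ed1142d0f = true := by decide +kernel

theorem s5_268 : varSw vt5 v5_268 env.sw 0x430fe438fc435134150c3e103 = true := by decide +kernel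

theorem s5_269 : varSw vt5 v5_269 env.sw 0x3f90d43cfd4310d3dd1342904 = true := by decide +kernel

theorem s5_270 : varSw vt5 v5_270 env.sw 0x44d0e430f943d0e440fe40108 = true := by decide +kernel

theorem s5_271 : varSw vt5 v5_271 env.sw 0x43d13434fa438fe4050f4450b = true := by decide +kernel

theorem s5_272 : varSw vt5 v5_272 env.sw 0x41d10414ff445084390940510 = true := by decide +kernel

theorem s5_273 : varSw vt5 v5_273 env.sw 0x4450742902441064010b43d11 = true := by decide +kernel

theorem s5_274 : varSw vt5 v5_274 env.sw 0x4210b41d124490540d0a41113 = true := by decide +kernel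

theorem s5_275 : varSw vt5 v5_275 env.sw 0x4390f44d0744d0c3fd0d40912 = true := by decide +kernel

theorem s5_276 : varSw vt5 v5_276 env.sw 0x4551645d18451144511445114 = true := by decide +kernel

theorem s5_277 : varSw vt5 v5_277 env.sw 0x4511545515459174611545515 = true := by decide +kernel

theorem s5_278 : varSw vt5 v5_278 env.sw 0x4591445916455164591746116 = true := by decide +kernel

theorem s5_279 : varSw vt5 v5_279 env.sw 0x45d174511745d1545d1645d18 = true := by decide +kernel

theorem s5_280 : varSw vt5 v5_280 env.sw 0x4611846114461184551845917 = true := by decide +kernel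

theorem s5_281 : varSw vt5 v5_281 env.sw 0x4691c4791f46d1d465194751b = true := by decide +kernel

theorem s5_282 : varSw vt5 v5_282 env.sw 0x465204891a4852447d1a48920 = true := by decide +kernel

theorem s5_283 : varSw vt5 v5_283 env.sw 0x48121495264651b4751d46d19 = true := by decide +kernel

theorem s5_284 : varSw vt5 v5_284 env.sw 0x4851947123481234711e49d21 = true := by decide +kernel

theorem s5_285 : varSw vt5 v5_285 env.sw 0x48923491274751946d1b4651d = true := by decide +kernel

theorem s5_286 : varSw vt5 v5_286 env.sw 0x4911e46525495224791c49126 = true := by decide +kernel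

theorem s5_287 : varSw vt5 v5_287 env.sw 0x47d2749919499274691f48d25 = true := by decide +kernel

theorem s5_288 : varSw vt5 v5_288 env.sw 0x46d1a481224712549d224811a = true := by decide +kernel

theorem s5_289 : varSw vt5 v5_289 env.sw 0x4711b48d214692148d244991c = true := by decide +kernel

theorem s5_290 : varSw vt5 v5_290 env.sw 0x475224692048d1e4992046922 = true := by decide +kernel

theorem s5_291 : varSw vt5 v5_291 env.sw 0x48d1d4851c4891c4852547d23 = true := by decide +kernel

theorem s5_292 : varSw vt5 v5_292 env.sw 0x47925475244911a4952147927 = true := by decide +kernel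

theorem s5_293 : varSw vt5 v5_293 env.sw 0x4952446d1e47920491234951f = true := by decide +kernel

theorem s5_294 : varSw vt5 v5_294 env.sw 0x49d2647d1b47d26489274851e = true := by decide +kernel

theorem s5_295 : varSw vt5 v5_295 env.sw 0x4991f49d1d49d1f4812647124 = true := by decide +kernel

theorem s5_296 : varSw vt5 v5_296 env.sw 0x4a52a4b5304a12c4bd2b4b928 = true := by decide +kernel

theorem s5_297 : varSw vt5 v5_297 env.sw 0x4a1294cd3b4a9364fd314dd29 = true := by decide +kernel

theorem s5_298 : varSw vt5 v5_298 env.sw 0x4a9284c9384a5344f1354f92a = true := by decide +kernel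

theorem s5_299 : varSw vt5 v5_299 env.sw 0x4c5324d5404b12b4e5284ad2e = true := by decide +kernel

theorem s5_300 : varSw vt5 v5_300 env.sw 0x4cd344d9414ad284b12c4e52f = true := by decide +kernel

theorem s5_301 : varSw vt5 v5_301 env.sw 0x4d9354a12d4b5334f5324e930 = true := by decide +kernel

theorem s5_302 : varSw vt5 v5_302 env.sw 0x4dd384e93e4bd394b92e4a12b = true := by decide +kernel

theorem s5_303 : varSw vt5 v5_303 env.sw 0x4ed3c4f53f4b92f4a1394bd2c = true := by decide +kernel

theorem s5_304 : varSw vt5 v5_304 env.sw 0x4fd3e4c1284c1414ed404e12d = true := by decide +kernel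

theorem s5_305 : varSw vt5 v5_305 env.sw 0x4ad334c5424d135515294c537 = true := by decide +kernel

theorem s5_306 : varSw vt5 v5_306 env.sw 0x4d12b4a9324cd3250d2d50138 = true := by decide +kernel

theorem s5_307 : varSw vt5 v5_307 env.sw 0x4b1314a5334c92d505335093b = true := by decide +kernel

theorem s5_308 : varSw vt5 v5_308 env.sw 0x4c92c4d1434c52a4d1365153c = true := by decide +kernel

theorem s5_309 : varSw vt5 v5_309 env.sw 0x4d52d4ad3a4d9315112a4d53e = true := by decide +kernel

theorem s5_310 : varSw vt5 v5_310 env.sw 0x4b5364b13d4d5294d9345113f = true := by decide +kernel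

theorem s5_311 : varSw vt5 v5_311 env.sw 0x4b93b509374f1444f9374a531 = true := by decide +kernel

theorem s5_312 : varSw vt5 v5_312 env.sw 0x4f12e4e12a4ed434e13a4c132 = true := by decide +kernel

theorem s5_313 : varSw vt5 v5_313 env.sw 0x50943511454e52e4ad2f4b139 = true := by decide +kernel

theorem s5_314 : varSw vt5 v5_314 env.sw 0x5113a4b9354f5424e9384b540 = true := by decide +kernel

theorem s5_315 : varSw vt5 v5_315 env.sw 0x4bd374ed294e13d4c1424ed33 = true := by decide +kernel

theorem s5_316 : varSw vt5 v5_316 env.sw 0x4e12f50d3c4dd3c4a9444fd34 = true := by decide +kernel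

theorem s5_317 : varSw vt5 v5_317 env.sw 0x4f5444bd364e93b4b5434f541 = true := by decide +kernel

theorem s5_318 : varSw vt5 v5_318 env.sw 0x4f9305012e4fd454dd3e4a935 = true := by decide +kernel

theorem s5_319 : varSw vt5 v5_319 env.sw 0x4c13f5052f4f93f4a5454f136 = true := by decide +kernel

theorem s5_320 : varSw vt5 v5_320 env.sw 0x515404f92b50540509304c93a = true := by decide +kernel

theorem s5_321 : varSw vt5 v5_321 env.sw 0x505454fd2c501304cd4150d3d = true := by decide +kernel

theorem s5_322 : varSw vt5 v5_322 env.sw 0x4e5424dd3150d3a5013b4cd42 = true := by decide +kernel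

theorem s5_323 : varSw vt5 v5_323 env.sw 0x50d394f134509384c93d50543 = true := by decide +kernel

theorem s5_324 : varSw vt5 v5_324 env.sw 0x4e93d4e544511374d53c4d945 = true := by decide +kernel

theorem s5_325 : varSw vt5 v5_325 env.sw 0x50141515395153e4c53f4d144 = true := by decide +kernel

theorem s5_326 : varSw vt5 v5_326 env.sw 0x51d4852546519465314652d4a = true := by decide +kernel

theorem s5_327 : varSw vt5 v5_327 env.sw 0x5194751d4c5214951d4753d4d = true := by decide +kernel

theorem s5_328 : varSw vt5 v5_328 env.sw 0x521465214b51d4853d495214e = true := by decide +kernel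

theorem s5_329 : varSw vt5 v5_329 env.sw 0x525495194a525475354853949 = true := by decide +kernel

theorem s5_330 : varSw vt5 v5_330 env.sw 0x5354e529495294c5294b52946 = true := by decide +kernel

theorem s5_331 : varSw vt5 v5_331 env.sw 0x53d4b539485314b52d4a5194b = true := by decide +kernel

theorem s5_332 : varSw vt5 v5_332 env.sw 0x5314f5354752d4a5194c5314c = true := by decide +kernel

theorem s5_333 : varSw vt5 v5_333 env.sw 0x5294d5314d5394d5254f53547 = true := by decide +kernel

theorem s5_334 : varSw vt5 v5_334 env.sw 0x5394a52d4e5354f5394e52548 = true := by decide +kernel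

theorem s5_335 : varSw vt5 v5_335 env.sw 0x52d4c53d4f53d4e5214d51d4f = true := by decide +kernel

theorem s5_336 : varSw vt5 v5_336 env.sw 0x54552555585415455d5355950 = true := by decide +kernel

theorem s5_337 : varSw vt5 v5_337 env.sw 0x5415156d635495e59d5957d51 = true := by decide +kernel

theorem s5_338 : varSw vt5 v5_338 env.sw 0x54950569605455c5915d59952 = true := by decide +kernel

theorem s5_339 : varSw vt5 v5_339 env.sw 0x5655a57568551535855054d56 = true := by decide +kernel

theorem s5_340 : varSw vt5 v5_340 env.sw 0x56d5c5796954d505515458557 = true := by decide +kernel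

theorem s5_341 : varSw vt5 v5_341 env.sw 0x5795d541555555b5955a58958 = true := by decide +kernel

theorem s5_342 : varSw vt5 v5_342 env.sw 0x57d605896655d615595654153 = true := by decide +kernel

theorem s5_343 : varSw vt5 v5_343 env.sw 0x58d6459567559575416155d54 = true := by decide +kernel

theorem s5_344 : varSw vt5 v5_344 env.sw 0x59d66561505616958d6858155 = true := by decide +kernel

theorem s5_345 : varSw vt5 v5_345 env.sw 0x54d5b5656a5715d5b5515655f = true := by decide +kernel

theorem s5_346 : varSw vt5 v5_346 env.sw 0x571535495a56d5a5ad555a160 = true := by decide +kernel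

theorem s5_347 : varSw vt5 v5_347 env.sw 0x551595455b569555a55b5a963 = true := by decide +kernel

theorem s5_348 : varSw vt5 v5_348 env.sw 0x569545716b565525715e5b564 = true := by decide +kernel

theorem s5_349 : varSw vt5 v5_349 env.sw 0x5755554d62579595b15257566 = true := by decide +kernel

theorem s5_350 : varSw vt5 v5_350 env.sw 0x5555e55165575515795c5b167 = true := by decide +kernel

theorem s5_351 : varSw vt5 v5_351 env.sw 0x559635a95f5916c5995f54559 = true := by decide +kernel

theorem s5_352 : varSw vt5 v5_352 env.sw 0x591565815258d6b581625615a = true := by decide +kernel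

theorem s5_353 : varSw vt5 v5_353 env.sw 0x5a96b5b16d5855654d5755161 = true := by decide +kernel

theorem s5_354 : varSw vt5 v5_354 env.sw 0x5b1625595d5956a5896055568 = true := by decide +kernel

theorem s5_355 : varSw vt5 v5_355 env.sw 0x55d5f58d51581655616a58d5b = true := by decide +kernel

theorem s5_356 : varSw vt5 v5_356 env.sw 0x581575ad6457d645496c59d5c = true := by decide +kernel

theorem s5_357 : varSw vt5 v5_357 env.sw 0x5956c55d5e589635556b59569 = true := by decide +kernel

theorem s5_358 : varSw vt5 v5_358 env.sw 0x599585a15659d6d57d665495d = true := by decide +kernel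

theorem s5_359 : varSw vt5 v5_359 env.sw 0x561675a557599675456d5915e = true := by decide +kernel

theorem s5_360 : varSw vt5 v5_360 env.sw 0x5b568599535a5685a95856962 = true := by decide +kernel

theorem s5_361 : varSw vt5 v5_361 env.sw 0x5a56d59d545a15856d695ad65 = true := by decide +kernel

theorem s5_362 : varSw vt5 v5_362 env.sw 0x5856a57d595ad625a16356d6a = true := by decide +kernel

theorem s5_363 : varSw vt5 v5_363 env.sw 0x5ad615915c5a960569655a56b = true := by decide +kernel

theorem s5_364 : varSw vt5 v5_364 env.sw 0x589655856c5b15f575645796d = true := by decide +kernel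

theorem s5_365 : varSw vt5 v5_365 env.sw 0x5a1695b5615b566565675716c = true := by decide +kernel

theorem s5_366 : varSw vt5 v5_366 env.sw 0x5bd715d1775c1735d9725d56e = true := by decide +kernel

theorem s5_367 : varSw vt5 v5_367 env.sw 0x5b9785f9895e5816397a60d6f = true := by decide +kernel

theorem s5_368 : varSw vt5 v5_368 env.sw 0x5e1796098f5b97b6117d62170 = true := by decide +kernel

theorem s5_369 : varSw vt5 v5_369 env.sw 0x5e56e5f1855e17f6298063571 = true := by decide +kernel

theorem s5_370 : varSw vt5 v5_370 env.sw 0x5e97c601905ed7d62d6e5c975 = true := by decide +kernel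

theorem s5_371 : varSw vt5 v5_371 env.sw 0x5f97f605915f56e5cd7b61976 = true := by decide +kernel

theorem s5_372 : varSw vt5 v5_372 env.sw 0x605805b9746097e6317c61d77 = true := by decide +kernel

theorem s5_373 : varSw vt5 v5_373 env.sw 0x60d8561d8d61186621755b972 = true := by decide +kernel

theorem s5_374 : varSw vt5 v5_374 env.sw 0x6258a6318e621765b98b61173 = true := by decide +kernel

theorem s5_375 : varSw vt5 v5_375 env.sw 0x6398d5dd6e63d916259061574 = true := by decide +kernel

theorem s5_376 : varSw vt5 v5_376 env.sw 0x5c16f649985c5976959467978 = true := by decide +kernel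

theorem s5_377 : varSw vt5 v5_377 env.sw 0x5c5706559f5bd936659669179 = true := by decide +kernel

theorem s5_378 : varSw vt5 v5_378 env.sw 0x5c992651a064d966996f5e983 = true := by decide +kernel

theorem s5_379 : varSw vt5 v5_379 env.sw 0x6499365da75c9705ed7362d84 = true := by decide +kernel

theorem s5_380 : varSw vt5 v5_380 env.sw 0x64d725c57c649956857464185 = true := by decide +kernel

theorem s5_381 : varSw vt5 v5_381 env.sw 0x65195659a95cd72619705f588 = true := by decide +kernel

theorem s5_382 : varSw vt5 v5_382 env.sw 0x5cd945bd7e655746459266989 = true := by decide +kernel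

theorem s5_383 : varSw vt5 v5_383 env.sw 0x6557364d9b651715fd976a18a = true := by decide +kernel

theorem s5_384 : varSw vt5 v5_384 env.sw 0x659745c98765d9468d716018d = true := by decide +kernel

theorem s5_385 : varSw vt5 v5_385 env.sw 0x5d1975cd8c6596f605936718e = true := by decide +kernel

theorem s5_386 : varSw vt5 v5_386 env.sw 0x65d965c1825d192675956898f = true := by decide +kernel

theorem s5_387 : varSw vt5 v5_387 env.sw 0x5d5986699e6659c691835bd7a = true := by decide +kernel

theorem s5_388 : varSw vt5 v5_388 env.sw 0x66199675a55d5845c1865d97b = true := by decide +kernel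

theorem s5_389 : varSw vt5 v5_389 env.sw 0x66575615716619b67d875dd7c = true := by decide +kernel

theorem s5_390 : varSw vt5 v5_390 env.sw 0x6699b671a8619755f5845cd8b = true := by decide +kernel

theorem s5_391 : varSw vt5 v5_391 env.sw 0x671875d5806759a689855d190 = true := by decide +kernel

theorem s5_392 : varSw vt5 v5_392 env.sw 0x6799f689a45d98b5d5885c17d = true := by decide +kernel

theorem s5_393 : varSw vt5 v5_393 env.sw 0x5d99e6256f67d8c5dda06617e = true := by decide +kernel

theorem s5_394 : varSw vt5 v5_394 env.sw 0x67d76685996798a5c5a36957f = true := by decide +kernel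

theorem s5_395 : varSw vt5 v5_395 env.sw 0x681a168da662d885c9765ed86 = true := by decide +kernel

theorem s5_396 : varSw vt5 v5_396 env.sw 0x631a35d981689895d1a167591 = true := by decide +kernel

theorem s5_397 : varSw vt5 v5_397 env.sw 0x6917764175695a86798d5c580 = true := by decide +kernel

theorem s5_398 : varSw vt5 v5_398 env.sw 0x5dda5645766918e5bda666581 = true := by decide +kernel

theorem s5_399 : varSw vt5 v5_399 env.sw 0x695a463d705dda7661a967d82 = true := by decide +kernel

theorem s5_400 : varSw vt5 v5_400 env.sw 0x699906357269da9681775f187 = true := by decide +kernel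

theorem s5_401 : varSw vt5 v5_401 env.sw 0x645a8639736a5775f9a766d8c = true := by decide +kernel

theorem s5_402 : varSw vt5 v5_402 env.sw 0x5ed7a5e1925f18269d7e68198 = true := by decide +kernel

theorem s5_403 : varSw vt5 v5_403 env.sw 0x5f17b5fda15e97964d8169999 = true := by decide +kernel

theorem s5_404 : varSw vt5 v5_404 env.sw 0x5f57e5e99a5fd806a1786519e = true := by decide +kernel

theorem s5_405 : varSw vt5 v5_405 env.sw 0x5fd7d5e5955f97c66d826a59f = true := by decide +kernel

theorem s5_406 : varSw vt5 v5_406 env.sw 0x601825f5a26057a67179659a4 = true := by decide +kernel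

theorem s5_407 : varSw vt5 v5_407 env.sw 0x609815ed9d6017865d7f68da5 = true := by decide +kernel

theorem s5_408 : varSw vt5 v5_408 env.sw 0x61183661786159d63d9a62592 = true := by decide +kernel

theorem s5_409 : varSw vt5 v5_409 env.sw 0x6158466d8a60d995e59c63993 = true := by decide +kernel

theorem s5_410 : varSw vt5 v5_410 env.sw 0x6199a60d9466d876a5985f9a0 = true := by decide +kernel

theorem s5_411 : varSw vt5 v5_411 env.sw 0x66d866657f669856559d645a1 = true := by decide +kernel

theorem s5_412 : varSw vt5 v5_412 env.sw 0x61d9d619a36718365999605a6 = true := by decide +kernel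

theorem s5_413 : varSw vt5 v5_413 env.sw 0x6759c6119761d986099b631a7 = true := by decide +kernel

theorem s5_414 : varSw vt5 v5_414 env.sw 0x6218968183629a36359e5e194 = true := by decide +kernel

theorem s5_415 : varSw vt5 v5_415 env.sw 0x6298867d79625a1615a263d95 = true := by decide +kernel

theorem s5_416 : varSw vt5 v5_416 env.sw 0x62da06797a685a2641896499a = true := by decide +kernel

theorem s5_417 : varSw vt5 v5_417 env.sw 0x6858b629936819f5f18c69d9b = true := by decide +kernel

theorem s5_418 : varSw vt5 v5_418 env.sw 0x68da262196631a061d9f609a9 = true := by decide +kernel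

theorem s5_419 : varSw vt5 v5_419 env.sw 0x6898c62d9c68d9e6018a65da8 = true := by decide +kernel

theorem s5_420 : varSw vt5 v5_420 env.sw 0x6358f6a588639a660da45e596 = true := by decide +kernel

theorem s5_421 : varSw vt5 v5_421 env.sw 0x63d8e69d84635a55e1a862997 = true := by decide +kernel

theorem s5_422 : varSw vt5 v5_422 env.sw 0x641a76a18b699a45e98e64d9c = true := by decide +kernel

theorem s5_423 : varSw vt5 v5_423 env.sw 0x69da66957b6418f649916859d = true := by decide +kernel

theorem s5_424 : varSw vt5 v5_424 env.sw 0x6a591699866a18d651a55fda3 = true := by decide +kernel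

theorem s5_425 : varSw vt5 v5_425 env.sw 0x6a1a96917d645906698f655a2 = true := by decide +kernel

theorem s5_426 : varSw vt5 v5_426 env.sw 0x6adad6bdb16b1ae6c1aa6a9aa = true := by decide +kernel

theorem s5_427 : varSw vt5 v5_427 env.sw 0x6a9b26d1b86cdb66edab6adab = true := by decide +kernel

theorem s5_428 : varSw vt5 v5_428 env.sw 0x6c9b36ddbc6a9ac6b1ae6c1ac = true := by decide +kernel

theorem s5_429 : varSw vt5 v5_429 env.sw 0x6cdaa6b5ad6c9b56e5af6c5ad = true := by decide +kernel

theorem s5_430 : varSw vt5 v5_430 env.sw 0x6d1b56d9bd6b9aa6b9ac6b9b0 = true := by decide +kernel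

theorem s5_431 : varSw vt5 v5_431 env.sw 0x6d9af6a9af6ddb46e9ad6bdb1 = true := by decide +kernel

theorem s5_432 : varSw vt5 v5_432 env.sw 0x6e1b96e9bb6c1b06a9b06b1ae = true := by decide +kernel

theorem s5_433 : varSw vt5 v5_433 env.sw 0x6edb16c5aa6f1bd6e1b16b5af = true := by decide +kernel

theorem s5_434 : varSw vt5 v5_434 env.sw 0x6b1ab6c9b26b5b76f1b46e1b2 = true := by decide +kernel

theorem s5_435 : varSw vt5 v5_435 env.sw 0x6b5ac6d5b96adb36cdb66edb3 = true := by decide +kernel

theorem s5_436 : varSw vt5 v5_436 env.sw 0x6b9b46adb46d5af6f5b26d1b8 = true := by decide +kernel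

theorem s5_437 : varSw vt5 v5_437 env.sw 0x6d5ae6cdb56d1ad6d5b76f5b9 = true := by decide +kernel

theorem s5_438 : varSw vt5 v5_438 env.sw 0x6bdb76b9ba6d9ab6d9b36d9bb = true := by decide +kernel

theorem s5_439 : varSw vt5 v5_439 env.sw 0x6ddb66b1b76bdb26ddb56e9bc = true := by decide +kernel

theorem s5_440 : varSw vt5 v5_440 env.sw 0x6c1b86e1ab6e5ba6c5b86c9b4 = true := by decide +kernel

theorem s5_441 : varSw vt5 v5_441 env.sw 0x6e5b06e5b36e1b96b5ba6f1b5 = true := by decide +kernel

theorem s5_442 : varSw vt5 v5_442 env.sw 0x6e9ba6c1b66e9b86bdb96ddbd = true := by decide +kernel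

theorem s5_443 : varSw vt5 v5_443 env.sw 0x6c5bc6f5b06edbb6adbb6cdb6 = true := by decide +kernel

theorem s5_444 : varSw vt5 v5_444 env.sw 0x6f1bb6f1ac6c5bc6c9bd6e5b7 = true := by decide +kernel

theorem s5_445 : varSw vt5 v5_445 env.sw 0x6f5bd6edae6f5b16d1bc6d5ba = true := by decide +kernel

theorem s5_446 : varSw vt5 v5_446 env.sw 0x6fdc170dc4701c26f9be709c0 = true := by decide +kernel

theorem s5_447 : varSw vt5 v5_447 env.sw 0x6f9c571dbf719c9711bf71dc5 = true := by decide +kernel

theorem s5_448 : varSw vt5 v5_448 env.sw 0x715c6729cb6f9c0709c2701be = true := by decide +kernel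

theorem s5_449 : varSw vt5 v5_449 env.sw 0x719be705c8715c8705c3731c6 = true := by decide +kernel

theorem s5_450 : varSw vt5 v5_450 env.sw 0x71dc8725cc709be701c06f9c2 = true := by decide +kernel

theorem s5_451 : varSw vt5 v5_451 env.sw 0x725c36f9ca729c770dc1725cb = true := by decide +kernel

theorem s5_452 : varSw vt5 v5_452 env.sw 0x711cc72dbe72dcc6fdc4721ca = true := by decide +kernel

theorem s5_453 : varSw vt5 v5_453 env.sw 0x701bf715c7705ca731c7715bf = true := by decide +kernel

theorem s5_454 : varSw vt5 v5_454 env.sw 0x705c0721c66fdc6721c972dc1 = true := by decide +kernel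

theorem s5_455 : varSw vt5 v5_455 env.sw 0x709c76fdc5721c372dc56fdc7 = true := by decide +kernel

theorem s5_456 : varSw vt5 v5_456 env.sw 0x721c2719c171dc1719ca711c8 = true := by decide +kernel

theorem s5_457 : varSw vt5 v5_457 env.sw 0x70dca709c9725bf729c670dcc = true := by decide +kernel

theorem s5_458 : varSw vt5 v5_458 env.sw 0x729c9701c370dc5725c8729c4 = true := by decide +kernel

theorem s5_459 : varSw vt5 v5_459 env.sw 0x731cb711c0711cb71dcc719c3 = true := by decide +kernel

theorem s5_460 : varSw vt5 v5_460 env.sw 0x72dc4731c2731c4715cb705c9 = true := by decide +kernel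

theorem s5_461 : varSw vt5 v5_461 env.sw 0x739d0749d373dd1735cd745cf = true := by decide +kernel

theorem s5_462 : varSw vt5 v5_462 env.sw 0x735d4759ce755d874dce759d4 = true := by decide +kernel

theorem s5_463 : varSw vt5 v5_463 env.sw 0x751d5765da735cf745d173dcd = true := by decide +kernel

theorem s5_464 : varSw vt5 v5_464 env.sw 0x755cd741d7751d7741d276dd5 = true := by decide +kernel

theorem s5_465 : varSw vt5 v5_465 env.sw 0x759d7761db745cd73dcf735d1 = true := by decide +kernel

theorem s5_466 : varSw vt5 v5_466 env.sw 0x761d2735d9765d6749d0761da = true := by decide +kernel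

theorem s5_467 : varSw vt5 v5_467 env.sw 0x74ddb769cd769db739d375dd9 = true := by decide +kernel

theorem s5_468 : varSw vt5 v5_468 env.sw 0x73dce751d6741d976dd6751ce = true := by decide +kernel

theorem s5_469 : varSw vt5 v5_469 env.sw 0x741cf75dd5739d575dd8769d0 = true := by decide +kernel

theorem s5_470 : varSw vt5 v5_470 env.sw 0x745d6739d475dd2769d4739d6 = true := by decide +kernel

theorem s5_471 : varSw vt5 v5_471 env.sw 0x75dd1755d0759d0755d974dd7 = true := by decide +kernel

theorem s5_472 : varSw vt5 v5_472 env.sw 0x749d9745d8761ce765d5749db = true := by decide +kernel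

theorem s5_473 : varSw vt5 v5_473 env.sw 0x765d873dd2749d4761d7765d3 = true := by decide +kernel

theorem s5_474 : varSw vt5 v5_474 env.sw 0x76dda74dcf74dda759db755d2 = true := by decide +kernel

theorem s5_475 : varSw vt5 v5_475 env.sw 0x769d376dd176dd3751da741d8 = true := by decide +kernel

theorem s5_476 : varSw vt5 v5_476 env.sw 0x775de77de0771dc771dc771dc = true := by decide +kernel

theorem s5_477 : varSw vt5 v5_477 env.sw 0x771dd775dd779df781dd775dd = true := by decide +kernel

theorem s5_478 : varSw vt5 v5_478 env.sw 0x779dc779de775de779df781de = true := by decide +kernel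

theorem s5_479 : varSw vt5 v5_479 env.sw 0x77ddf771df77ddd77dde77de0 = true := by decide +kernel

theorem s5_480 : varSw vt5 v5_480 env.sw 0x781e0781dc781e0775e0779df = true := by decide +kernel

end Pool.Agent.TH497.TW.K5
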