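import Pool.Agent.TH497.TW.K5.Env
import Pool.Agent.TH497.TW.K5.Table

set_option autoImplicit false

namespace Pool.Agent.TH497.TW.K5

open Pool.Agent.TH497.PW Pool.Agent.TH497.TW

theorem u0 : chkU dflt env tb 5 vt0 vt5 t0 0x3c01 = true := by decide +kernel

theorem u1 : chkU dflt env tb 5 vt1 vt5 t1 0xf00fc00 = true := by decide +kernel

theorem u2 : chkU dflt env tb 5 vt2 vt5 t2 0x3c05 = true := by decide +kernel

theorem u3 : chkU dflt env tb 5 vt2 vt5 t3 0x7c06 = true := by decide +kernel

theorem u4 : chkU dflt env tb 5 vt2 vt5 t4 0xbc08f007c01 = true := by decide +kernel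

theorem u5 : chkU dflt env tb 5 vt3 vt5 t5 0x3c0c = true := by decide +kernel

theorem u6 : chkU dflt env tb 5 vt3 vt5 t6 0xfc0d = true := by decide +kernel

theorem u7 : chkU dflt env tb 5 vt3 vt5 t7 0x13c0e = true := by decide +kernel

theorem u8 : chkU dflt env tb 5 vt3 vt5 t8 0x1fc11f00fc03 = true := by decide +kernel

theorem u9 : chkU dflt env tb 5 vt3 vt5 t9 0x2bc15f00bc02 = true := by decide +kernel

theorem u10 : chkU dflt env tb 5 vt3 vt5 t10 0x37cc10 = true := by decide +kernel

theorem u11 : chkU dflt env tb 5 vt3 vt5 t11 0xef306bc04f013c04 = true := by decide +kernel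

theorem u12 : chkU dflt env tb 5 vt4 vt5 t12 0x3c21 = true := by decide +kernel

theorem u13 : chkU dflt env tb 5 vt4 vt5 t13 0xa01bc22 = true := by decide +kernel

theorem u14 : chkU dflt env tb 5 vt4 vt5 t14 0xb01fc23 = true := by decide +kernel

theorem u15 : chkU dflt env tb 5 vt4 vt5 t15 0x2904fc24 = true := by decide +kernel

theorem u16 : chkU dflt env tb 5 vt4 vt5 t16 0x3805bc36 = true := by decide +kernel

theorem u17 : chkU dflt env tb 5 vt4 vt5 t17 0x4206bc25f01bc06 = true := by decide +kernel

theorem u18 : chkU dflt env tb 5 vt4 vt5 t18 0x13020f09bc0a = true := by decide +kernel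

theorem u19 : chkU dflt env tb 5 vt4 vt5 t19 0x60093c827 = true := by decide +kernel

theorem u20 : chkU dflt env tb 5 vt4 vt5 t20 0x9c0c3c34 = true := by decide +kernel

theorem u21 : chkU dflt env tb 5 vt4 vt5 t21 0xd80f3c29f2017c405 = true := by decide +kernel

theorem u22 : chkU dflt env tb 5 vt4 vt5 t22 0xf6123c2af1017c805 = true := by decide +kernel

theorem u23 : chkU dflt env tb 5 vt4 vt5 t23 0x11413bc57 = true := by decide +kernel

theorem u24 : chkU dflt env tb 5 vt4 vt5 t24 0x11913fc5a = true := by decide +kernel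

theorem u25 : chkU dflt env tb 5 vt4 vt5 t25 0x12814bc3af02bc0a = true := by decide +kernel

theorem u26 : chkU dflt env tb 5 vt4 vt5 t26 0x51858f30c7c408f1023c408 = true := by decide +kernel

theorem u27 : chkU dflt env tb 5 vt4 vt5 t27 0x150173c2ef01fc007 = true := by decide +kernel

theorem u28 : chkU dflt env tb 5 vt4 vt5 t28 0x16e18bc2ff101fc407 = true := by decide +kernel

theorem u29 : chkU dflt env tb 5 vt4 vt5 t29 0x6a86ef10bc09f2027c409 = true := by decide +kernel

theorem u30 : chkU dflt env tb 5 vt4 vt5 t30 0x1be1cbd03df1023c808f023c408 = true := by decide +kernel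

theorem u31 : chkU dflt env tb 5 vt4 vt5 t31 0x1cd1d7d047f1027c809f027c409 = true := by decide +kernel

theorem u32 : chkU dflt env tb 5 vt4 vt5 t32 0x1dc1e3c43f02fc0bf02fc0b = true := by decide +kernel

theorem u33 : chkU dflt env tb 5 vt5 vt5 t33 0 = true := by decide +kernel

theorem u34 : chkU dflt env tb 5 vt5 vt5 t34 0 = true := by decide +kernel

theorem u35 : chkU dflt env tb 5 vt5 vt5 t35 0 = true := by decide +kernel

theorem u36 : chkU dflt env tb 5 vt5 vt5 t36 0 = true := by decide +kernel

theorem u37 : chkU dflt env tb 5 vt5 vt5 t37 0xf037c0d = true := by decide +kernel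

theorem u38 : chkU dflt env tb 5 vt5 vt5 t38 0x3c10 = true := by decide +kernel

theorem u39 : chkU dflt env tb 5 vt5 vt5 t39 0 = true := by decide +kernel

theorem u40 : chkU dflt env tb 5 vt5 vt5 t40 0 = true := by decide +kernel

theorem u41 : chkU dflt env tb 5 vt5 vt5 t41 0xf2033c40c = true := by decide +kernel

theorem u42 : chkU dflt env tb 5 vt5 vt5 t42 0xf41033d040c = true := by decide +kernel

theorem u43 : chkU dflt env tb 5 vt5 vt5 t43 0x3c17 = true := by decide +kernel

theorem u44 : chkU dflt env tb 5 vt5 vt5 t44 0x3c14 = true := by decide +kernel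

theorem u45 : chkU dflt env tb 5 vt5 vt5 t45 0 = true := by decide +kernel

theorem u46 : chkU dflt env tb 5 vt5 vt5 t46 0xf403bd0c0e = true := by decide +kernel

theorem u47 : chkU dflt env tb 5 vt5 vt5 t47 0xf4103bd4c0e = true := by decide +kernel

theorem u48 : chkU dflt env tb 5 vt5 vt5 t48 0xf5303bd040e = true := by decide +kernel

theorem u49 : chkU dflt env tb 5 vt5 vt5 t49 0x3c11f2047c411 = true := by decide +kernel

theorem u50 : chkU dflt env tb 5 vt5 vt5 t50 0xf03fc0f = true := by decide +kernel

theorem u51 : chkU dflt env tb 5 vt5 vt5 t51 0 = true := by decide +kernel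

theorem u52 : chkU dflt env tb 5 vt5 vt5 t52 0 = true := by decide +kernel

theorem u53 : chkU dflt env tb 5 vt5 vt5 t53 0 = true := by decide +kernel

theorem u54 : chkU dflt env tb 5 vt5 vt5 t54 0 = true := by decide +kernel

theorem u55 : chkU dflt env tb 5 vt5 vt5 t55 0 = true := by decide +kernel

theorem u56 : chkU dflt env tb 5 vt5 vt5 t56 0x3c18 = true := by decide +kernel

theorem u57 : chkU dflt env tb 5 vt5 vt5 t57 0 = true := by decide +kernel

theorem u58 : chkU dflt env tb 5 vt5 vt5 t58 0xf0043c10 = true := by decide +kernel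

theorem u59 : chkU dflt env tb 5 vt5 vt5 t59 0xf043c010 = true := by decide +kernel

theorem u60 : chkU dflt env tb 5 vt5 vt5 t60 0 = true := by decide +kernel

theorem u61 : chkU dflt env tb 5 vt5 vt5 t61 0xf047c11f41047d0411 = true := by decide +kernel

theorem u62 : chkU dflt env tb 5 vt5 vt5 t62 0xf04bc12 = true := by decide +kernel

theorem u63 : chkU dflt env tb 5 vt5 vt5 t63 0x3c12f04bc19 = true := by decide +kernel

theorem u64 : chkU dflt env tb 5 vt5 vt5 t64 0xf204fc813 = true := by decide +kernel

theorem u65 : chkU dflt env tb 5 vt5 vt5 t65 0xf204fc813 = true := by decide +kernel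

theorem u66 : chkU dflt env tb 5 vt5 vt5 t66 0x3d415f54057d4c15 = true := by decide +kernel

theorem u67 : chkU dflt env tb 5 vt5 vt5 t67 0xf306bc41af006bc1a = true := by decide +kernel

theorem u68 : chkU dflt env tb 5 vt5 vt5 t68 0xf2053c8414 = true := by decide +kernel

theorem u69 : chkU dflt env tb 5 vt5 vt5 t69 0xf20053c414 = true := by decide +kernel

theorem u70 : chkU dflt env tb 5 vt5 vt5 t70 0xf41053d0414 = true := by decide +kernel

theorem u71 : chkU dflt env tb 5 vt5 vt5 t71 0xf057d415f41057c8c15 = true := by decide +kernel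

theorem u72 : chkU dflt env tb 5 vt5 vt5 t72 0xf05bc16f23057d0415 = true := by decide +kernel

theorem u73 : chkU dflt env tb 5 vt5 vt5 t73 0x3d0416f4105bd0416 = true := by decide +kernel

theorem u74 : chkU dflt env tb 5 vt5 vt5 t74 0x3c81bf406fd041b = true := by decide +kernel

theorem u75 : chkU dflt env tb 5 vt5 vt5 t75 0x3d041cf41073d041c = true := by decide +kernel

theorem u76 : chkU dflt env tb 5 vt5 vt5 t76 0x3c19f2067c419 = true := by decide +kernel

theorem u77 : chkU dflt env tb 5 vt5 vt5 t77 0xf077c1df077c1d = true := by decide +kernel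

theorem u78 : chkU dflt env tb 5 vt5 vt5 t78 0x3cc1af306bd01ef507bc1e = true := by decide +kernel

theorem u79 : chkU dflt env tb 5 vt5 vt5 t79 0xf06fc1bf1073c81c = true := by decide +kernel

theorem u80 : chkU dflt env tb 5 vt5 vt5 t80 0xf073c1cf3073d01c = true := by decide +kernel

theorem u81 : chkU dflt env tb 5 vt5 vt5 t81 0xf067c19f41067d0419 = true := by decide +kernel

theorem u82 : chkU dflt env tb 5 vt5 vt5 t82 0x3c20f083c20f083c20 = true := by decide +kernel

theorem u83 : chkU dflt env tb 5 vt5 vt5 t83 0x3c1df077d01ff507fc1f = true := by decide +kernel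

theorem u84 : chkU dflt env tb 5 vt5 vt5 t84 0 = true := by decide +kernel

theorem u85 : chkU dflt env tb 5 vt5 vt5 t85 0 = true := by decide +kernel

theorem u86 : chkU dflt env tb 5 vt5 vt5 t86 0 = true := by decide +kernel

theorem u87 : chkU dflt env tb 5 vt5 vt5 t87 0 = true := by decide +kernel

theorem u88 : chkU dflt env tb 5 vt5 vt5 t88 0xf05fc17 = true := by decide +kernel

theorem u89 : chkU dflt env tb 5 vt5 vt5 t89 0 = true := by decide +kernel

theorem u90 : chkU dflt env tb 5 vt5 vt5 t90 0 = true := by decide +kernel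

theorem u91 : chkU dflt env tb 5 vt5 vt5 t91 0 = true := by decide +kernel

theorem u92 : chkU dflt env tb 5 vt5 vt5 t92 0xf4063d018 = true := by decide +kernel

theorem u93 : chkU dflt env tb 5 vt5 vt5 t93 0 = true := by decide +kernel

end Pool.Agent.TH497.TW.K5
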