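import Pool.Agent.TH497.TW.Flow
import Pool.Agent.TH497.TW.K5.U
import Pool.Agent.TH497.TW.K5.S
import Pool.Agent.TH497.TW.K5.J0
import Pool.Agent.TH497.TW.K5.J1
import Pool.Agent.TH497.TW.K5.J2
import Pool.Agent.TH497.TW.K5.J3
import Pool.Agent.TH497.TW.K5.J4
import Pool.Agent.TH497.TW.K5.J5
import Pool.Agent.TH497.TW.K5.J6
import Pool.Agent.TH497.TW.K5.J7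
import Pool.Agent.TH497.TW.K5.J8
import Pool.Agent.TH497.TW.K5.J9
import Pool.Agent.TH497.TW.K5.J10
import Pool.Agent.TH497.TW.K5.J11
import Pool.Agent.TH497.TW.K5.J12
import Pool.Agent.TH497.TW.K5.J13
import Pool.Agent.TH497.TW.K5.J14
import Pool.Agent.TH497.TW.K5.J15

set_option autoImplicit false

namespace Pool.Agent.TH497.TW.K5

open Finset Pool.Agent.TH497.PW Pool.Agent.TH497.TW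

/-- the variants with `k` boundary vertices -/
def vtF : ℕ → Tb
  | 0 => vt0
  | 1 => vt1
  | 2 => vt2
  | 3 => vt3
  | 4 => vt4
  | _ => vt5

def Q (s : St) : Prop := (∃ c, chkU dflt env tb 5 (vtF s.k) (vtF 5) s c = true) ∧
  ∃ c κ, joinAll dflt env pt tb (5 ^ s.k) s (vtF s.k) c κ = true

def R (k : ℕ) (s : St) : Prop := s.k = k ∧ ∃ c, varSw (vtF k) s env.sw c = true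

theorem q0 : Q t0 := ⟨⟨_, u0⟩, ⟨_, _, j0⟩⟩
theorem q1 : Q t1 := ⟨⟨_, u1⟩, ⟨_, _, j1⟩⟩
theorem q2 : Q t2 := ⟨⟨_, u2⟩, ⟨_, _, j2⟩⟩
theorem q3 : Q t3 := ⟨⟨_, u3⟩, ⟨_, _, j3⟩⟩
theorem q4 : Q t4 := ⟨⟨_, u4⟩, ⟨_, _, j4⟩⟩
theorem q5 : Q t5 := ⟨⟨_, u5⟩, ⟨_, _, j5⟩⟩
theorem q6 : Q t6 := ⟨⟨_, u6⟩, ⟨_, _, j6⟩⟩
theorem q7 : Q t7 := ⟨⟨_, u7⟩, ⟨_, _, j7⟩⟩
theorem q8 : Q t8 := ⟨⟨_, u8⟩, ⟨_, _, j8⟩⟩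
theorem q9 : Q t9 := ⟨⟨_, u9⟩, ⟨_, _, j9⟩⟩
theorem q10 : Q t10 := ⟨⟨_, u10⟩, ⟨_, _, j10⟩⟩
theorem q11 : Q t11 := ⟨⟨_, u11⟩, ⟨_, _, j11⟩⟩
theorem q12 : Q t12 := ⟨⟨_, u12⟩, ⟨_, _, j12⟩⟩
theorem q13 : Q t13 := ⟨⟨_, u13⟩, ⟨_, _, j13⟩⟩
theorem q14 : Q t14 := ⟨⟨_, u14⟩, ⟨_, _, j14⟩⟩
theorem q15 : Q t15 := ⟨⟨_, u15⟩, ⟨_, _, j15⟩⟩
theorem q16 : Q t16 := ⟨⟨_, u16⟩, ⟨_, _, j16⟩⟩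
theorem q17 : Q t17 := ⟨⟨_, u17⟩, ⟨_, _, j17⟩⟩
theorem q18 : Q t18 := ⟨⟨_, u18⟩, ⟨_, _, j18⟩⟩
theorem q19 : Q t19 := ⟨⟨_, u19⟩, ⟨_, _, j19⟩⟩
theorem q20 : Q t20 := ⟨⟨_, u20⟩, ⟨_, _, j20⟩⟩
theorem q21 : Q t21 := ⟨⟨_, u21⟩, ⟨_, _, j21⟩⟩
theorem q22 : Q t22 := ⟨⟨_, u22⟩, ⟨_, _, j22⟩⟩
theorem q23 : Q t23 := ⟨⟨_, u23⟩, ⟨_, _, j23⟩⟩
theorem q24 : Q t24 := ⟨⟨_, u24⟩, ⟨_, _, j24⟩⟩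
theorem q25 : Q t25 := ⟨⟨_, u25⟩, ⟨_, _, j25⟩⟩
theorem q26 : Q t26 := ⟨⟨_, u26⟩, ⟨_, _, j26⟩⟩
theorem q27 : Q t27 := ⟨⟨_, u27⟩, ⟨_, _, j27⟩⟩
theorem q28 : Q t28 := ⟨⟨_, u28⟩, ⟨_, _, j28⟩⟩
theorem q29 : Q t29 := ⟨⟨_, u29⟩, ⟨_, _, j29⟩⟩
theorem q30 : Q t30 := ⟨⟨_, u30⟩, ⟨_, _, j30⟩⟩
theorem q31 : Q t31 := ⟨⟨_, u31⟩, ⟨_, _, j31⟩⟩
theorem q32 : Q t32 := ⟨⟨_, u32⟩, ⟨_, _, j32⟩⟩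
theorem q33 : Q t33 := ⟨⟨_, u33⟩, ⟨_, _, j33⟩⟩
theorem q34 : Q t34 := ⟨⟨_, u34⟩, ⟨_, _, j34⟩⟩
theorem q35 : Q t35 := ⟨⟨_, u35⟩, ⟨_, _, j35⟩⟩
theorem q36 : Q t36 := ⟨⟨_, u36⟩, ⟨_, _, j36⟩⟩
theorem q37 : Q t37 := ⟨⟨_, u37⟩, ⟨_, _, j37⟩⟩
theorem q38 : Q t38 := ⟨⟨_, u38⟩, ⟨_, _, j38⟩⟩
theorem q39 : Q t39 := ⟨⟨_, u39⟩, ⟨_, _, j39⟩⟩
theorem q40 : Q t40 := ⟨⟨_, u40⟩, ⟨_, _, j40⟩⟩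
theorem q41 : Q t41 := ⟨⟨_, u41⟩, ⟨_, _, j41⟩⟩
theorem q42 : Q t42 := ⟨⟨_, u42⟩, ⟨_, _, j42⟩⟩
theorem q43 : Q t43 := ⟨⟨_, u43⟩, ⟨_, _, j43⟩⟩
theorem q44 : Q t44 := ⟨⟨_, u44⟩, ⟨_, _, j44⟩⟩
theorem q45 : Q t45 := ⟨⟨_, u45⟩, ⟨_, _, j45⟩⟩
theorem q46 : Q t46 := ⟨⟨_, u46⟩, ⟨_, _, j46⟩⟩
theorem q47 : Q t47 := ⟨⟨_, u47⟩, ⟨_, _, j47⟩⟩
theorem q48 : Q t48 := ⟨⟨_, u48⟩, ⟨_, _, j48⟩⟩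
theorem q49 : Q t49 := ⟨⟨_, u49⟩, ⟨_, _, j49⟩⟩
theorem q50 : Q t50 := ⟨⟨_, u50⟩, ⟨_, _, j50⟩⟩
theorem q51 : Q t51 := ⟨⟨_, u51⟩, ⟨_, _, j51⟩⟩
theorem q52 : Q t52 := ⟨⟨_, u52⟩, ⟨_, _, j52⟩⟩
theorem q53 : Q t53 := ⟨⟨_, u53⟩, ⟨_, _, j53⟩⟩
theorem q54 : Q t54 := ⟨⟨_, u54⟩, ⟨_, _, j54⟩⟩
theorem q55 : Q t55 := ⟨⟨_, u55⟩, ⟨_, _, j55⟩⟩
theorem q56 : Q t56 := ⟨⟨_, u56⟩, ⟨_, _, j56⟩⟩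
theorem q57 : Q t57 := ⟨⟨_, u57⟩, ⟨_, _, j57⟩⟩
theorem q58 : Q t58 := ⟨⟨_, u58⟩, ⟨_, _, j58⟩⟩
theorem q59 : Q t59 := ⟨⟨_, u59⟩, ⟨_, _, j59⟩⟩
theorem q60 : Q t60 := ⟨⟨_, u60⟩, ⟨_, _, j60⟩⟩
theorem q61 : Q t61 := ⟨⟨_, u61⟩, ⟨_, _, j61⟩⟩
theorem q62 : Q t62 := ⟨⟨_, u62⟩, ⟨_, _, j62⟩⟩
theorem q63 : Q t63 := ⟨⟨_, u63⟩, ⟨_, _, j63⟩⟩
theorem q64 : Q t64 := ⟨⟨_, u64⟩, ⟨_, _, j64⟩⟩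
theorem q65 : Q t65 := ⟨⟨_, u65⟩, ⟨_, _, j65⟩⟩
theorem q66 : Q t66 := ⟨⟨_, u66⟩, ⟨_, _, j66⟩⟩
theorem q67 : Q t67 := ⟨⟨_, u67⟩, ⟨_, _, j67⟩⟩
theorem q68 : Q t68 := ⟨⟨_, u68⟩, ⟨_, _, j68⟩⟩
theorem q69 : Q t69 := ⟨⟨_, u69⟩, ⟨_, _, j69⟩⟩
theorem q70 : Q t70 := ⟨⟨_, u70⟩, ⟨_, _, j70⟩⟩
theorem q71 : Q t71 := ⟨⟨_, u71⟩, ⟨_, _, j71⟩⟩
theorem q72 : Q t72 := ⟨⟨_, u72⟩, ⟨_, _, j72⟩⟩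
theorem q73 : Q t73 := ⟨⟨_, u73⟩, ⟨_, _, j73⟩⟩
theorem q74 : Q t74 := ⟨⟨_, u74⟩, ⟨_, _, j74⟩⟩
theorem q75 : Q t75 := ⟨⟨_, u75⟩, ⟨_, _, j75⟩⟩
theorem q76 : Q t76 := ⟨⟨_, u76⟩, ⟨_, _, j76⟩⟩
theorem q77 : Q t77 := ⟨⟨_, u77⟩, ⟨_, _, j77⟩⟩
theorem q78 : Q t78 := ⟨⟨_, u78⟩, ⟨_, _, j78⟩⟩
theorem q79 : Q t79 := ⟨⟨_, u79⟩, ⟨_, _, j79⟩⟩
theorem q80 : Q t80 := ⟨⟨_, u80⟩, ⟨_, _, j80⟩⟩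
theorem q81 : Q t81 := ⟨⟨_, u81⟩, ⟨_, _, j81⟩⟩
theorem q82 : Q t82 := ⟨⟨_, u82⟩, ⟨_, _, j82⟩⟩
theorem q83 : Q t83 := ⟨⟨_, u83⟩, ⟨_, _, j83⟩⟩
theorem q84 : Q t84 := ⟨⟨_, u84⟩, ⟨_, _, j84⟩⟩
theorem q85 : Q t85 := ⟨⟨_, u85⟩, ⟨_, _, j85⟩⟩
theorem q86 : Q t86 := ⟨⟨_, u86⟩, ⟨_, _, j86⟩⟩
theorem q87 : Q t87 := ⟨⟨_, u87⟩, ⟨_, _, j87⟩⟩
theorem q88 : Q t88 := ⟨⟨_, u88⟩, ⟨_, _, j88⟩⟩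
theorem q89 : Q t89 := ⟨⟨_, u89⟩, ⟨_, _, j89⟩⟩
theorem q90 : Q t90 := ⟨⟨_, u90⟩, ⟨_, _, j90⟩⟩
theorem q91 : Q t91 := ⟨⟨_, u91⟩, ⟨_, _, j91⟩⟩
theorem q92 : Q t92 := ⟨⟨_, u92⟩, ⟨_, _, j92⟩⟩
theorem q93 : Q t93 := ⟨⟨_, u93⟩, ⟨_, _, j93⟩⟩
theorem r0_0 : R 0 v0_0 := ⟨rfl, ⟨_, s0_0⟩⟩
theorem r1_0 : R 1 v1_0 := ⟨rfl, ⟨_, s1_0⟩⟩
theorem r2_0 : R 2 v2_0 := ⟨rfl, ⟨_, s2_0⟩⟩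
theorem r2_1 : R 2 v2_1 := ⟨rfl, ⟨_, s2_1⟩⟩
theorem r2_2 : R 2 v2_2 := ⟨rfl, ⟨_, s2_2⟩⟩
theorem r3_0 : R 3 v3_0 := ⟨rfl, ⟨_, s3_0⟩⟩
theorem r3_1 : R 3 v3_1 := ⟨rfl, ⟨_, s3_1⟩⟩
theorem r3_2 : R 3 v3_2 := ⟨rfl, ⟨_, s3_2⟩⟩
theorem r3_3 : R 3 v3_3 := ⟨rfl, ⟨_, s3_3⟩⟩
theorem r3_4 : R 3 v3_4 := ⟨rfl, ⟨_, s3_4⟩⟩
theorem r3_5 : R 3 v3_5 := ⟨rfl, ⟨_, s3_5⟩⟩
theorem r3_6 : R 3 v3_6 := ⟨rfl, ⟨_, s3_6⟩⟩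
theorem r3_7 : R 3 v3_7 := ⟨rfl, ⟨_, s3_7⟩⟩
theorem r3_8 : R 3 v3_8 := ⟨rfl, ⟨_, s3_8⟩⟩
theorem r3_9 : R 3 v3_9 := ⟨rfl, ⟨_, s3_9⟩⟩
theorem r3_10 : R 3 v3_10 := ⟨rfl, ⟨_, s3_10⟩⟩
theorem r3_11 : R 3 v3_11 := ⟨rfl, ⟨_, s3_11⟩⟩
theorem r3_12 : R 3 v3_12 := ⟨rfl, ⟨_, s3_12⟩⟩
theorem r3_13 : R 3 v3_13 := ⟨rfl, ⟨_, s3_13⟩⟩
theorem r3_14 : R 3 v3_14 := ⟨rfl, ⟨_, s3_14⟩⟩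
theorem r4_0 : R 4 v4_0 := ⟨rfl, ⟨_, s4_0⟩⟩
theorem r4_1 : R 4 v4_1 := ⟨rfl, ⟨_, s4_1⟩⟩
theorem r4_2 : R 4 v4_2 := ⟨rfl, ⟨_, s4_2⟩⟩
theorem r4_3 : R 4 v4_3 := ⟨rfl, ⟨_, s4_3⟩⟩
theorem r4_4 : R 4 v4_4 := ⟨rfl, ⟨_, s4_4⟩⟩
theorem r4_5 : R 4 v4_5 := ⟨rfl, ⟨_, s4_5⟩⟩
theorem r4_6 : R 4 v4_6 := ⟨rfl, ⟨_, s4_6⟩⟩
theorem r4_7 : R 4 v4_7 := ⟨rfl, ⟨_, s4_7⟩⟩
theorem r4_8 : R 4 v4_8 := ⟨rfl, ⟨_, s4_8⟩⟩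
theorem r4_9 : R 4 v4_9 := ⟨rfl, ⟨_, s4_9⟩⟩
theorem r4_10 : R 4 v4_10 := ⟨rfl, ⟨_, s4_10⟩⟩
theorem r4_11 : R 4 v4_11 := ⟨rfl, ⟨_, s4_11⟩⟩
theorem r4_12 : R 4 v4_12 := ⟨rfl, ⟨_, s4_12⟩⟩
theorem r4_13 : R 4 v4_13 := ⟨rfl, ⟨_, s4_13⟩⟩
theorem r4_14 : R 4 v4_14 := ⟨rfl, ⟨_, s4_14⟩⟩
theorem r4_15 : R 4 v4_15 := ⟨rfl, ⟨_, s4_15⟩⟩
theorem r4_16 : R 4 v4_16 := ⟨rfl, ⟨_, s4_16⟩⟩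
theorem r4_17 : R 4 v4_17 := ⟨rfl, ⟨_, s4_17⟩⟩
theorem r4_18 : R 4 v4_18 := ⟨rfl, ⟨_, s4_18⟩⟩
theorem r4_19 : R 4 v4_19 := ⟨rfl, ⟨_, s4_19⟩⟩
theorem r4_20 : R 4 v4_20 := ⟨rfl, ⟨_, s4_20⟩⟩
theorem r4_21 : R 4 v4_21 := ⟨rfl, ⟨_, s4_21⟩⟩
theorem r4_22 : R 4 v4_22 := ⟨rfl, ⟨_, s4_22⟩⟩
theorem r4_23 : R 4 v4_23 := ⟨rfl, ⟨_, s4_23⟩⟩
theorem r4_24 : R 4 v4_24 := ⟨rfl, ⟨_, s4_24⟩⟩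
theorem r4_25 : R 4 v4_25 := ⟨rfl, ⟨_, s4_25⟩⟩
theorem r4_26 : R 4 v4_26 := ⟨rfl, ⟨_, s4_26⟩⟩
theorem r4_27 : R 4 v4_27 := ⟨rfl, ⟨_, s4_27⟩⟩
theorem r4_28 : R 4 v4_28 := ⟨rfl, ⟨_, s4_28⟩⟩
theorem r4_29 : R 4 v4_29 := ⟨rfl, ⟨_, s4_29⟩⟩
theorem r4_30 : R 4 v4_30 := ⟨rfl, ⟨_, s4_30⟩⟩
theorem r4_31 : R 4 v4_31 := ⟨rfl, ⟨_, s4_31⟩⟩
theorem r4_32 : R 4 v4_32 := ⟨rfl, ⟨_, s4_32⟩⟩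
theorem r4_33 : R 4 v4_33 := ⟨rfl, ⟨_, s4_33⟩⟩
theorem r4_34 : R 4 v4_34 := ⟨rfl, ⟨_, s4_34⟩⟩
theorem r4_35 : R 4 v4_35 := ⟨rfl, ⟨_, s4_35⟩⟩
theorem r4_36 : R 4 v4_36 := ⟨rfl, ⟨_, s4_36⟩⟩
theorem r4_37 : R 4 v4_37 := ⟨rfl, ⟨_, s4_37⟩⟩
theorem r4_38 : R 4 v4_38 := ⟨rfl, ⟨_, s4_38⟩⟩
theorem r4_39 : R 4 v4_39 := ⟨rfl, ⟨_, s4_39⟩⟩
theorem r4_40 : R 4 v4_40 := ⟨rfl, ⟨_, s4_40⟩⟩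
theorem r4_41 : R 4 v4_41 := ⟨rfl, ⟨_, s4_41⟩⟩
theorem r4_42 : R 4 v4_42 := ⟨rfl, ⟨_, s4_42⟩⟩
theorem r4_43 : R 4 v4_43 := ⟨rfl, ⟨_, s4_43⟩⟩
theorem r4_44 : R 4 v4_44 := ⟨rfl, ⟨_, s4_44⟩⟩
theorem r4_45 : R 4 v4_45 := ⟨rfl, ⟨_, s4_45⟩⟩
theorem r4_46 : R 4 v4_46 := ⟨rfl, ⟨_, s4_46⟩⟩
theorem r4_47 : R 4 v4_47 := ⟨rfl, ⟨_, s4_47⟩⟩
theorem r4_48 : R 4 v4_48 := ⟨rfl, ⟨_, s4_48⟩⟩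
theorem r4_49 : R 4 v4_49 := ⟨rfl, ⟨_, s4_49⟩⟩
theorem r4_50 : R 4 v4_50 := ⟨rfl, ⟨_, s4_50⟩⟩
theorem r4_51 : R 4 v4_51 := ⟨rfl, ⟨_, s4_51⟩⟩
theorem r4_52 : R 4 v4_52 := ⟨rfl, ⟨_, s4_52⟩⟩
theorem r4_53 : R 4 v4_53 := ⟨rfl, ⟨_, s4_53⟩⟩
theorem r4_54 : R 4 v4_54 := ⟨rfl, ⟨_, s4_54⟩⟩
theorem r4_55 : R 4 v4_55 := ⟨rfl, ⟨_, s4_55⟩⟩
theorem r4_56 : R 4 v4_56 := ⟨rfl, ⟨_, s4_56⟩⟩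
theorem r4_57 : R 4 v4_57 := ⟨rfl, ⟨_, s4_57⟩⟩
theorem r4_58 : R 4 v4_58 := ⟨rfl, ⟨_, s4_58⟩⟩
theorem r4_59 : R 4 v4_59 := ⟨rfl, ⟨_, s4_59⟩⟩
theorem r4_60 : R 4 v4_60 := ⟨rfl, ⟨_, s4_60⟩⟩
theorem r4_61 : R 4 v4_61 := ⟨rfl, ⟨_, s4_61⟩⟩
theorem r4_62 : R 4 v4_62 := ⟨rfl, ⟨_, s4_62⟩⟩
theorem r4_63 : R 4 v4_63 := ⟨rfl, ⟨_, s4_63⟩⟩
theorem r4_64 : R 4 v4_64 := ⟨rfl, ⟨_, s4_64⟩⟩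
theorem r4_65 : R 4 v4_65 := ⟨rfl, ⟨_, s4_65⟩⟩
theorem r4_66 : R 4 v4_66 := ⟨rfl, ⟨_, s4_66⟩⟩
theorem r4_67 : R 4 v4_67 := ⟨rfl, ⟨_, s4_67⟩⟩
theorem r4_68 : R 4 v4_68 := ⟨rfl, ⟨_, s4_68⟩⟩
theorem r4_69 : R 4 v4_69 := ⟨rfl, ⟨_, s4_69⟩⟩
theorem r4_70 : R 4 v4_70 := ⟨rfl, ⟨_, s4_70⟩⟩
theorem r4_71 : R 4 v4_71 := ⟨rfl, ⟨_, s4_71⟩⟩
theorem r4_72 : R 4 v4_72 := ⟨rfl, ⟨_, s4_72⟩⟩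
theorem r4_73 : R 4 v4_73 := ⟨rfl, ⟨_, s4_73⟩⟩
theorem r4_74 : R 4 v4_74 := ⟨rfl, ⟨_, s4_74⟩⟩
theorem r4_75 : R 4 v4_75 := ⟨rfl, ⟨_, s4_75⟩⟩
theorem r4_76 : R 4 v4_76 := ⟨rfl, ⟨_, s4_76⟩⟩
theorem r4_77 : R 4 v4_77 := ⟨rfl, ⟨_, s4_77⟩⟩
theorem r4_78 : R 4 v4_78 := ⟨rfl, ⟨_, s4_78⟩⟩
theorem r4_79 : R 4 v4_79 := ⟨rfl, ⟨_, s4_79⟩⟩
theorem r4_80 : R 4 v4_80 := ⟨rfl, ⟨_, s4_80⟩⟩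
theorem r4_81 : R 4 v4_81 := ⟨rfl, ⟨_, s4_81⟩⟩
theorem r4_82 : R 4 v4_82 := ⟨rfl, ⟨_, s4_82⟩⟩
theorem r4_83 : R 4 v4_83 := ⟨rfl, ⟨_, s4_83⟩⟩
theorem r4_84 : R 4 v4_84 := ⟨rfl, ⟨_, s4_84⟩⟩
theorem r4_85 : R 4 v4_85 := ⟨rfl, ⟨_, s4_85⟩⟩
theorem r4_86 : R 4 v4_86 := ⟨rfl, ⟨_, s4_86⟩⟩
theorem r4_87 : R 4 v4_87 := ⟨rfl, ⟨_, s4_87⟩⟩
theorem r4_88 : R 4 v4_88 := ⟨rfl, ⟨_, s4_88⟩⟩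
theorem r4_89 : R 4 v4_89 := ⟨rfl, ⟨_, s4_89⟩⟩
theorem r4_90 : R 4 v4_90 := ⟨rfl, ⟨_, s4_90⟩⟩
theorem r4_91 : R 4 v4_91 := ⟨rfl, ⟨_, s4_91⟩⟩
theorem r4_92 : R 4 v4_92 := ⟨rfl, ⟨_, s4_92⟩⟩
theorem r4_93 : R 4 v4_93 := ⟨rfl, ⟨_, s4_93⟩⟩
theorem r4_94 : R 4 v4_94 := ⟨rfl, ⟨_, s4_94⟩⟩
theorem r4_95 : R 4 v4_95 := ⟨rfl, ⟨_, s4_95⟩⟩
theorem r4_96 : R 4 v4_96 := ⟨rfl, ⟨_, s4_96⟩⟩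
theorem r4_97 : R 4 v4_97 := ⟨rfl, ⟨_, s4_97⟩⟩
theorem r4_98 : R 4 v4_98 := ⟨rfl, ⟨_, s4_98⟩⟩
theorem r4_99 : R 4 v4_99 := ⟨rfl, ⟨_, s4_99⟩⟩
theorem r4_100 : R 4 v4_100 := ⟨rfl, ⟨_, s4_100⟩⟩
theorem r4_101 : R 4 v4_101 := ⟨rfl, ⟨_, s4_101⟩⟩
theorem r4_102 : R 4 v4_102 := ⟨rfl, ⟨_, s4_102⟩⟩
theorem r4_103 : R 4 v4_103 := ⟨rfl, ⟨_, s4_103⟩⟩
theorem r4_104 : R 4 v4_104 := ⟨rfl, ⟨_, s4_104⟩⟩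
theorem r4_105 : R 4 v4_105 := ⟨rfl, ⟨_, s4_105⟩⟩
theorem r4_106 : R 4 v4_106 := ⟨rfl, ⟨_, s4_106⟩⟩
theorem r4_107 : R 4 v4_107 := ⟨rfl, ⟨_, s4_107⟩⟩
theorem r4_108 : R 4 v4_108 := ⟨rfl, ⟨_, s4_108⟩⟩
theorem r4_109 : R 4 v4_109 := ⟨rfl, ⟨_, s4_109⟩⟩
theorem r4_110 : R 4 v4_110 := ⟨rfl, ⟨_, s4_110⟩⟩
theorem r4_111 : R 4 v4_111 := ⟨rfl, ⟨_, s4_111⟩⟩
theorem r4_112 : R 4 v4_112 := ⟨rfl, ⟨_, s4_112⟩⟩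
theorem r4_113 : R 4 v4_113 := ⟨rfl, ⟨_, s4_113⟩⟩
theorem r4_114 : R 4 v4_114 := ⟨rfl, ⟨_, s4_114⟩⟩
theorem r4_115 : R 4 v4_115 := ⟨rfl, ⟨_, s4_115⟩⟩
theorem r4_116 : R 4 v4_116 := ⟨rfl, ⟨_, s4_116⟩⟩
theorem r4_117 : R 4 v4_117 := ⟨rfl, ⟨_, s4_117⟩⟩
theorem r4_118 : R 4 v4_118 := ⟨rfl, ⟨_, s4_118⟩⟩
theorem r4_119 : R 4 v4_119 := ⟨rfl, ⟨_, s4_119⟩⟩
theorem r4_120 : R 4 v4_120 := ⟨rfl, ⟨_, s4_120⟩⟩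
theorem r5_0 : R 5 v5_0 := ⟨rfl, ⟨_, s5_0⟩⟩
theorem r5_1 : R 5 v5_1 := ⟨rfl, ⟨_, s5_1⟩⟩
theorem r5_2 : R 5 v5_2 := ⟨rfl, ⟨_, s5_2⟩⟩
theorem r5_3 : R 5 v5_3 := ⟨rfl, ⟨_, s5_3⟩⟩
theorem r5_4 : R 5 v5_4 := ⟨rfl, ⟨_, s5_4⟩⟩
theorem r5_5 : R 5 v5_5 := ⟨rfl, ⟨_, s5_5⟩⟩
theorem r5_6 : R 5 v5_6 := ⟨rfl, ⟨_, s5_6⟩⟩
theorem r5_7 : R 5 v5_7 := ⟨rfl, ⟨_, s5_7⟩⟩
theorem r5_8 : R 5 v5_8 := ⟨rfl, ⟨_, s5_8⟩⟩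
theorem r5_9 : R 5 v5_9 := ⟨rfl, ⟨_, s5_9⟩⟩
theorem r5_10 : R 5 v5_10 := ⟨rfl, ⟨_, s5_10⟩⟩
theorem r5_11 : R 5 v5_11 := ⟨rfl, ⟨_, s5_11⟩⟩
theorem r5_12 : R 5 v5_12 := ⟨rfl, ⟨_, s5_12⟩⟩
theorem r5_13 : R 5 v5_13 := ⟨rfl, ⟨_, s5_13⟩⟩
theorem r5_14 : R 5 v5_14 := ⟨rfl, ⟨_, s5_14⟩⟩
theorem r5_15 : R 5 v5_15 := ⟨rfl, ⟨_, s5_15⟩⟩
theorem r5_16 : R 5 v5_16 := ⟨rfl, ⟨_, s5_16⟩⟩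
theorem r5_17 : R 5 v5_17 := ⟨rfl, ⟨_, s5_17⟩⟩
theorem r5_18 : R 5 v5_18 := ⟨rfl, ⟨_, s5_18⟩⟩
theorem r5_19 : R 5 v5_19 := ⟨rfl, ⟨_, s5_19⟩⟩
theorem r5_20 : R 5 v5_20 := ⟨rfl, ⟨_, s5_20⟩⟩
theorem r5_21 : R 5 v5_21 := ⟨rfl, ⟨_, s5_21⟩⟩
theorem r5_22 : R 5 v5_22 := ⟨rfl, ⟨_, s5_22⟩⟩
theorem r5_23 : R 5 v5_23 := ⟨rfl, ⟨_, s5_23⟩⟩
theorem r5_24 : R 5 v5_24 := ⟨rfl, ⟨_, s5_24⟩⟩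
theorem r5_25 : R 5 v5_25 := ⟨rfl, ⟨_, s5_25⟩⟩
theorem r5_26 : R 5 v5_26 := ⟨rfl, ⟨_, s5_26⟩⟩
theorem r5_27 : R 5 v5_27 := ⟨rfl, ⟨_, s5_27⟩⟩
theorem r5_28 : R 5 v5_28 := ⟨rfl, ⟨_, s5_28⟩⟩
theorem r5_29 : R 5 v5_29 := ⟨rfl, ⟨_, s5_29⟩⟩
theorem r5_30 : R 5 v5_30 := ⟨rfl, ⟨_, s5_30⟩⟩
theorem r5_31 : R 5 v5_31 := ⟨rfl, ⟨_, s5_31⟩⟩
theorem r5_32 : R 5 v5_32 := ⟨rfl, ⟨_, s5_32⟩⟩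
theorem r5_33 : R 5 v5_33 := ⟨rfl, ⟨_, s5_33⟩⟩
theorem r5_34 : R 5 v5_34 := ⟨rfl, ⟨_, s5_34⟩⟩
theorem r5_35 : R 5 v5_35 := ⟨rfl, ⟨_, s5_35⟩⟩
theorem r5_36 : R 5 v5_36 := ⟨rfl, ⟨_, s5_36⟩⟩
theorem r5_37 : R 5 v5_37 := ⟨rfl, ⟨_, s5_37⟩⟩
theorem r5_38 : R 5 v5_38 := ⟨rfl, ⟨_, s5_38⟩⟩
theorem r5_39 : R 5 v5_39 := ⟨rfl, ⟨_, s5_39⟩⟩
theorem r5_40 : R 5 v5_40 := ⟨rfl, ⟨_, s5_40⟩⟩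
theorem r5_41 : R 5 v5_41 := ⟨rfl, ⟨_, s5_41⟩⟩
theorem r5_42 : R 5 v5_42 := ⟨rfl, ⟨_, s5_42⟩⟩
theorem r5_43 : R 5 v5_43 := ⟨rfl, ⟨_, s5_43⟩⟩
theorem r5_44 : R 5 v5_44 := ⟨rfl, ⟨_, s5_44⟩⟩
theorem r5_45 : R 5 v5_45 := ⟨rfl, ⟨_, s5_45⟩⟩
theorem r5_46 : R 5 v5_46 := ⟨rfl, ⟨_, s5_46⟩⟩
theorem r5_47 : R 5 v5_47 := ⟨rfl, ⟨_, s5_47⟩⟩
theorem r5_48 : R 5 v5_48 := ⟨rfl, ⟨_, s5_48⟩⟩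
theorem r5_49 : R 5 v5_49 := ⟨rfl, ⟨_, s5_49⟩⟩
theorem r5_50 : R 5 v5_50 := ⟨rfl, ⟨_, s5_50⟩⟩
theorem r5_51 : R 5 v5_51 := ⟨rfl, ⟨_, s5_51⟩⟩
theorem r5_52 : R 5 v5_52 := ⟨rfl, ⟨_, s5_52⟩⟩
theorem r5_53 : R 5 v5_53 := ⟨rfl, ⟨_, s5_53⟩⟩
theorem r5_54 : R 5 v5_54 := ⟨rfl, ⟨_, s5_54⟩⟩
theorem r5_55 : R 5 v5_55 := ⟨rfl, ⟨_, s5_55⟩⟩
theorem r5_56 : R 5 v5_56 := ⟨rfl, ⟨_, s5_56⟩⟩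
theorem r5_57 : R 5 v5_57 := ⟨rfl, ⟨_, s5_57⟩⟩
theorem r5_58 : R 5 v5_58 := ⟨rfl, ⟨_, s5_58⟩⟩
theorem r5_59 : R 5 v5_59 := ⟨rfl, ⟨_, s5_59⟩⟩
theorem r5_60 : R 5 v5_60 := ⟨rfl, ⟨_, s5_60⟩⟩
theorem r5_61 : R 5 v5_61 := ⟨rfl, ⟨_, s5_61⟩⟩
theorem r5_62 : R 5 v5_62 := ⟨rfl, ⟨_, s5_62⟩⟩
theorem r5_63 : R 5 v5_63 := ⟨rfl, ⟨_, s5_63⟩⟩
theorem r5_64 : R 5 v5_64 := ⟨rfl, ⟨_, s5_64⟩⟩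
theorem r5_65 : R 5 v5_65 := ⟨rfl, ⟨_, s5_65⟩⟩
theorem r5_66 : R 5 v5_66 := ⟨rfl, ⟨_, s5_66⟩⟩
theorem r5_67 : R 5 v5_67 := ⟨rfl, ⟨_, s5_67⟩⟩
theorem r5_68 : R 5 v5_68 := ⟨rfl, ⟨_, s5_68⟩⟩
theorem r5_69 : R 5 v5_69 := ⟨rfl, ⟨_, s5_69⟩⟩
theorem r5_70 : R 5 v5_70 := ⟨rfl, ⟨_, s5_70⟩⟩
theorem r5_71 : R 5 v5_71 := ⟨rfl, ⟨_, s5_71⟩⟩
theorem r5_72 : R 5 v5_72 := ⟨rfl, ⟨_, s5_72⟩⟩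
theorem r5_73 : R 5 v5_73 := ⟨rfl, ⟨_, s5_73⟩⟩
theorem r5_74 : R 5 v5_74 := ⟨rfl, ⟨_, s5_74⟩⟩
theorem r5_75 : R 5 v5_75 := ⟨rfl, ⟨_, s5_75⟩⟩
theorem r5_76 : R 5 v5_76 := ⟨rfl, ⟨_, s5_76⟩⟩
theorem r5_77 : R 5 v5_77 := ⟨rfl, ⟨_, s5_77⟩⟩
theorem r5_78 : R 5 v5_78 := ⟨rfl, ⟨_, s5_78⟩⟩
theorem r5_79 : R 5 v5_79 := ⟨rfl, ⟨_, s5_79⟩⟩
theorem r5_80 : R 5 v5_80 := ⟨rfl, ⟨_, s5_80⟩⟩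
theorem r5_81 : R 5 v5_81 := ⟨rfl, ⟨_, s5_81⟩⟩
theorem r5_82 : R 5 v5_82 := ⟨rfl, ⟨_, s5_82⟩⟩
theorem r5_83 : R 5 v5_83 := ⟨rfl, ⟨_, s5_83⟩⟩
theorem r5_84 : R 5 v5_84 := ⟨rfl, ⟨_, s5_84⟩⟩
theorem r5_85 : R 5 v5_85 := ⟨rfl, ⟨_, s5_85⟩⟩
theorem r5_86 : R 5 v5_86 := ⟨rfl, ⟨_, s5_86⟩⟩
theorem r5_87 : R 5 v5_87 := ⟨rfl, ⟨_, s5_87⟩⟩
theorem r5_88 : R 5 v5_88 := ⟨rfl, ⟨_, s5_88⟩⟩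
theorem r5_89 : R 5 v5_89 := ⟨rfl, ⟨_, s5_89⟩⟩
theorem r5_90 : R 5 v5_90 := ⟨rfl, ⟨_, s5_90⟩⟩
theorem r5_91 : R 5 v5_91 := ⟨rfl, ⟨_, s5_91⟩⟩
theorem r5_92 : R 5 v5_92 := ⟨rfl, ⟨_, s5_92⟩⟩
theorem r5_93 : R 5 v5_93 := ⟨rfl, ⟨_, s5_93⟩⟩
theorem r5_94 : R 5 v5_94 := ⟨rfl, ⟨_, s5_94⟩⟩
theorem r5_95 : R 5 v5_95 := ⟨rfl, ⟨_, s5_95⟩⟩
theorem r5_96 : R 5 v5_96 := ⟨rfl, ⟨_, s5_96⟩⟩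
theorem r5_97 : R 5 v5_97 := ⟨rfl, ⟨_, s5_97⟩⟩
theorem r5_98 : R 5 v5_98 := ⟨rfl, ⟨_, s5_98⟩⟩
theorem r5_99 : R 5 v5_99 := ⟨rfl, ⟨_, s5_99⟩⟩
theorem r5_100 : R 5 v5_100 := ⟨rfl, ⟨_, s5_100⟩⟩
theorem r5_101 : R 5 v5_101 := ⟨rfl, ⟨_, s5_101⟩⟩
theorem r5_102 : R 5 v5_102 := ⟨rfl, ⟨_, s5_102⟩⟩
theorem r5_103 : R 5 v5_103 := ⟨rfl, ⟨_, s5_103⟩⟩
theorem r5_104 : R 5 v5_104 := ⟨rfl, ⟨_, s5_104⟩⟩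
theorem r5_105 : R 5 v5_105 := ⟨rfl, ⟨_, s5_105⟩⟩
theorem r5_106 : R 5 v5_106 := ⟨rfl, ⟨_, s5_106⟩⟩
theorem r5_107 : R 5 v5_107 := ⟨rfl, ⟨_, s5_107⟩⟩
theorem r5_108 : R 5 v5_108 := ⟨rfl, ⟨_, s5_108⟩⟩
theorem r5_109 : R 5 v5_109 := ⟨rfl, ⟨_, s5_109⟩⟩
theorem r5_110 : R 5 v5_110 := ⟨rfl, ⟨_, s5_110⟩⟩
theorem r5_111 : R 5 v5_111 := ⟨rfl, ⟨_, s5_111⟩⟩
theorem r5_112 : R 5 v5_112 := ⟨rfl, ⟨_, s5_112⟩⟩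
theorem r5_113 : R 5 v5_113 := ⟨rfl, ⟨_, s5_113⟩⟩
theorem r5_114 : R 5 v5_114 := ⟨rfl, ⟨_, s5_114⟩⟩
theorem r5_115 : R 5 v5_115 := ⟨rfl, ⟨_, s5_115⟩⟩
theorem r5_116 : R 5 v5_116 := ⟨rfl, ⟨_, s5_116⟩⟩
theorem r5_117 : R 5 v5_117 := ⟨rfl, ⟨_, s5_117⟩⟩
theorem r5_118 : R 5 v5_118 := ⟨rfl, ⟨_, s5_118⟩⟩
theorem r5_119 : R 5 v5_119 := ⟨rfl, ⟨_, s5_119⟩⟩
theorem r5_120 : R 5 v5_120 := ⟨rfl, ⟨_, s5_120⟩⟩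
theorem r5_121 : R 5 v5_121 := ⟨rfl, ⟨_, s5_121⟩⟩
theorem r5_122 : R 5 v5_122 := ⟨rfl, ⟨_, s5_122⟩⟩
theorem r5_123 : R 5 v5_123 := ⟨rfl, ⟨_, s5_123⟩⟩
theorem r5_124 : R 5 v5_124 := ⟨rfl, ⟨_, s5_124⟩⟩
theorem r5_125 : R 5 v5_125 := ⟨rfl, ⟨_, s5_125⟩⟩
theorem r5_126 : R 5 v5_126 := ⟨rfl, ⟨_, s5_126⟩⟩
theorem r5_127 : R 5 v5_127 := ⟨rfl, ⟨_, s5_127⟩⟩
theorem r5_128 : R 5 v5_128 := ⟨rfl, ⟨_, s5_128⟩⟩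
theorem r5_129 : R 5 v5_129 := ⟨rfl, ⟨_, s5_129⟩⟩
theorem r5_130 : R 5 v5_130 := ⟨rfl, ⟨_, s5_130⟩⟩
theorem r5_131 : R 5 v5_131 := ⟨rfl, ⟨_, s5_131⟩⟩
theorem r5_132 : R 5 v5_132 := ⟨rfl, ⟨_, s5_132⟩⟩
theorem r5_133 : R 5 v5_133 := ⟨rfl, ⟨_, s5_133⟩⟩
theorem r5_134 : R 5 v5_134 := ⟨rfl, ⟨_, s5_134⟩⟩
theorem r5_135 : R 5 v5_135 := ⟨rfl, ⟨_, s5_135⟩⟩
theorem r5_136 : R 5 v5_136 := ⟨rfl, ⟨_, s5_136⟩⟩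
theorem r5_137 : R 5 v5_137 := ⟨rfl, ⟨_, s5_137⟩⟩
theorem r5_138 : R 5 v5_138 := ⟨rfl, ⟨_, s5_138⟩⟩
theorem r5_139 : R 5 v5_139 := ⟨rfl, ⟨_, s5_139⟩⟩
theorem r5_140 : R 5 v5_140 := ⟨rfl, ⟨_, s5_140⟩⟩
theorem r5_141 : R 5 v5_141 := ⟨rfl, ⟨_, s5_141⟩⟩
theorem r5_142 : R 5 v5_142 := ⟨rfl, ⟨_, s5_142⟩⟩
theorem r5_143 : R 5 v5_143 := ⟨rfl, ⟨_, s5_143⟩⟩
theorem r5_144 : R 5 v5_144 := ⟨rfl, ⟨_, s5_144⟩⟩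
theorem r5_145 : R 5 v5_145 := ⟨rfl, ⟨_, s5_145⟩⟩
theorem r5_146 : R 5 v5_146 := ⟨rfl, ⟨_, s5_146⟩⟩
theorem r5_147 : R 5 v5_147 := ⟨rfl, ⟨_, s5_147⟩⟩
theorem r5_148 : R 5 v5_148 := ⟨rfl, ⟨_, s5_148⟩⟩
theorem r5_149 : R 5 v5_149 := ⟨rfl, ⟨_, s5_149⟩⟩
theorem r5_150 : R 5 v5_150 := ⟨rfl, ⟨_, s5_150⟩⟩
theorem r5_151 : R 5 v5_151 := ⟨rfl, ⟨_, s5_151⟩⟩
theorem r5_152 : R 5 v5_152 := ⟨rfl, ⟨_, s5_152⟩⟩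
theorem r5_153 : R 5 v5_153 := ⟨rfl, ⟨_, s5_153⟩⟩
theorem r5_154 : R 5 v5_154 := ⟨rfl, ⟨_, s5_154⟩⟩
theorem r5_155 : R 5 v5_155 := ⟨rfl, ⟨_, s5_155⟩⟩
theorem r5_156 : R 5 v5_156 := ⟨rfl, ⟨_, s5_156⟩⟩
theorem r5_157 : R 5 v5_157 := ⟨rfl, ⟨_, s5_157⟩⟩
theorem r5_158 : R 5 v5_158 := ⟨rfl, ⟨_, s5_158⟩⟩
theorem r5_159 : R 5 v5_159 := ⟨rfl, ⟨_, s5_159⟩⟩
theorem r5_160 : R 5 v5_160 := ⟨rfl, ⟨_, s5_160⟩⟩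
theorem r5_161 : R 5 v5_161 := ⟨rfl, ⟨_, s5_161⟩⟩
theorem r5_162 : R 5 v5_162 := ⟨rfl, ⟨_, s5_162⟩⟩
theorem r5_163 : R 5 v5_163 := ⟨rfl, ⟨_, s5_163⟩⟩
theorem r5_164 : R 5 v5_164 := ⟨rfl, ⟨_, s5_164⟩⟩
theorem r5_165 : R 5 v5_165 := ⟨rfl, ⟨_, s5_165⟩⟩
theorem r5_166 : R 5 v5_166 := ⟨rfl, ⟨_, s5_166⟩⟩
theorem r5_167 : R 5 v5_167 := ⟨rfl, ⟨_, s5_167⟩⟩
theorem r5_168 : R 5 v5_168 := ⟨rfl, ⟨_, s5_168⟩⟩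
theorem r5_169 : R 5 v5_169 := ⟨rfl, ⟨_, s5_169⟩⟩
theorem r5_170 : R 5 v5_170 := ⟨rfl, ⟨_, s5_170⟩⟩
theorem r5_171 : R 5 v5_171 := ⟨rfl, ⟨_, s5_171⟩⟩
theorem r5_172 : R 5 v5_172 := ⟨rfl, ⟨_, s5_172⟩⟩
theorem r5_173 : R 5 v5_173 := ⟨rfl, ⟨_, s5_173⟩⟩
theorem r5_174 : R 5 v5_174 := ⟨rfl, ⟨_, s5_174⟩⟩
theorem r5_175 : R 5 v5_175 := ⟨rfl, ⟨_, s5_175⟩⟩
theorem r5_176 : R 5 v5_176 := ⟨rfl, ⟨_, s5_176⟩⟩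
theorem r5_177 : R 5 v5_177 := ⟨rfl, ⟨_, s5_177⟩⟩
theorem r5_178 : R 5 v5_178 := ⟨rfl, ⟨_, s5_178⟩⟩
theorem r5_179 : R 5 v5_179 := ⟨rfl, ⟨_, s5_179⟩⟩
theorem r5_180 : R 5 v5_180 := ⟨rfl, ⟨_, s5_180⟩⟩
theorem r5_181 : R 5 v5_181 := ⟨rfl, ⟨_, s5_181⟩⟩
theorem r5_182 : R 5 v5_182 := ⟨rfl, ⟨_, s5_182⟩⟩
theorem r5_183 : R 5 v5_183 := ⟨rfl, ⟨_, s5_183⟩⟩
theorem r5_184 : R 5 v5_184 := ⟨rfl, ⟨_, s5_184⟩⟩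
theorem r5_185 : R 5 v5_185 := ⟨rfl, ⟨_, s5_185⟩⟩
theorem r5_186 : R 5 v5_186 := ⟨rfl, ⟨_, s5_186⟩⟩
theorem r5_187 : R 5 v5_187 := ⟨rfl, ⟨_, s5_187⟩⟩
theorem r5_188 : R 5 v5_188 := ⟨rfl, ⟨_, s5_188⟩⟩
theorem r5_189 : R 5 v5_189 := ⟨rfl, ⟨_, s5_189⟩⟩
theorem r5_190 : R 5 v5_190 := ⟨rfl, ⟨_, s5_190⟩⟩
theorem r5_191 : R 5 v5_191 := ⟨rfl, ⟨_, s5_191⟩⟩
theorem r5_192 : R 5 v5_192 := ⟨rfl, ⟨_, s5_192⟩⟩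
theorem r5_193 : R 5 v5_193 := ⟨rfl, ⟨_, s5_193⟩⟩
theorem r5_194 : R 5 v5_194 := ⟨rfl, ⟨_, s5_194⟩⟩
theorem r5_195 : R 5 v5_195 := ⟨rfl, ⟨_, s5_195⟩⟩
theorem r5_196 : R 5 v5_196 := ⟨rfl, ⟨_, s5_196⟩⟩
theorem r5_197 : R 5 v5_197 := ⟨rfl, ⟨_, s5_197⟩⟩
theorem r5_198 : R 5 v5_198 := ⟨rfl, ⟨_, s5_198⟩⟩
theorem r5_199 : R 5 v5_199 := ⟨rfl, ⟨_, s5_199⟩⟩
theorem r5_200 : R 5 v5_200 := ⟨rfl, ⟨_, s5_200⟩⟩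
theorem r5_201 : R 5 v5_201 := ⟨rfl, ⟨_, s5_201⟩⟩
theorem r5_202 : R 5 v5_202 := ⟨rfl, ⟨_, s5_202⟩⟩
theorem r5_203 : R 5 v5_203 := ⟨rfl, ⟨_, s5_203⟩⟩
theorem r5_204 : R 5 v5_204 := ⟨rfl, ⟨_, s5_204⟩⟩
theorem r5_205 : R 5 v5_205 := ⟨rfl, ⟨_, s5_205⟩⟩
theorem r5_206 : R 5 v5_206 := ⟨rfl, ⟨_, s5_206⟩⟩
theorem r5_207 : R 5 v5_207 := ⟨rfl, ⟨_, s5_207⟩⟩
theorem r5_208 : R 5 v5_208 := ⟨rfl, ⟨_, s5_208⟩⟩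
theorem r5_209 : R 5 v5_209 := ⟨rfl, ⟨_, s5_209⟩⟩
theorem r5_210 : R 5 v5_210 := ⟨rfl, ⟨_, s5_210⟩⟩
theorem r5_211 : R 5 v5_211 := ⟨rfl, ⟨_, s5_211⟩⟩
theorem r5_212 : R 5 v5_212 := ⟨rfl, ⟨_, s5_212⟩⟩
theorem r5_213 : R 5 v5_213 := ⟨rfl, ⟨_, s5_213⟩⟩
theorem r5_214 : R 5 v5_214 := ⟨rfl, ⟨_, s5_214⟩⟩
theorem r5_215 : R 5 v5_215 := ⟨rfl, ⟨_, s5_215⟩⟩
theorem r5_216 : R 5 v5_216 := ⟨rfl, ⟨_, s5_216⟩⟩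
theorem r5_217 : R 5 v5_217 := ⟨rfl, ⟨_, s5_217⟩⟩
theorem r5_218 : R 5 v5_218 := ⟨rfl, ⟨_, s5_218⟩⟩
theorem r5_219 : R 5 v5_219 := ⟨rfl, ⟨_, s5_219⟩⟩
theorem r5_220 : R 5 v5_220 := ⟨rfl, ⟨_, s5_220⟩⟩
theorem r5_221 : R 5 v5_221 := ⟨rfl, ⟨_, s5_221⟩⟩
theorem r5_222 : R 5 v5_222 := ⟨rfl, ⟨_, s5_222⟩⟩
theorem r5_223 : R 5 v5_223 := ⟨rfl, ⟨_, s5_223⟩⟩
theorem r5_224 : R 5 v5_224 := ⟨rfl, ⟨_, s5_224⟩⟩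
theorem r5_225 : R 5 v5_225 := ⟨rfl, ⟨_, s5_225⟩⟩
theorem r5_226 : R 5 v5_226 := ⟨rfl, ⟨_, s5_226⟩⟩
theorem r5_227 : R 5 v5_227 := ⟨rfl, ⟨_, s5_227⟩⟩
theorem r5_228 : R 5 v5_228 := ⟨rfl, ⟨_, s5_228⟩⟩
theorem r5_229 : R 5 v5_229 := ⟨rfl, ⟨_, s5_229⟩⟩
theorem r5_230 : R 5 v5_230 := ⟨rfl, ⟨_, s5_230⟩⟩
theorem r5_231 : R 5 v5_231 := ⟨rfl, ⟨_, s5_231⟩⟩
theorem r5_232 : R 5 v5_232 := ⟨rfl, ⟨_, s5_232⟩⟩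
theorem r5_233 : R 5 v5_233 := ⟨rfl, ⟨_, s5_233⟩⟩
theorem r5_234 : R 5 v5_234 := ⟨rfl, ⟨_, s5_234⟩⟩
theorem r5_235 : R 5 v5_235 := ⟨rfl, ⟨_, s5_235⟩⟩
theorem r5_236 : R 5 v5_236 := ⟨rfl, ⟨_, s5_236⟩⟩
theorem r5_237 : R 5 v5_237 := ⟨rfl, ⟨_, s5_237⟩⟩
theorem r5_238 : R 5 v5_238 := ⟨rfl, ⟨_, s5_238⟩⟩
theorem r5_239 : R 5 v5_239 := ⟨rfl, ⟨_, s5_239⟩⟩
theorem r5_240 : R 5 v5_240 := ⟨rfl, ⟨_, s5_240⟩⟩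
theorem r5_241 : R 5 v5_241 := ⟨rfl, ⟨_, s5_241⟩⟩
theorem r5_242 : R 5 v5_242 := ⟨rfl, ⟨_, s5_242⟩⟩
theorem r5_243 : R 5 v5_243 := ⟨rfl, ⟨_, s5_243⟩⟩
theorem r5_244 : R 5 v5_244 := ⟨rfl, ⟨_, s5_244⟩⟩
theorem r5_245 : R 5 v5_245 := ⟨rfl, ⟨_, s5_245⟩⟩
theorem r5_246 : R 5 v5_246 := ⟨rfl, ⟨_, s5_246⟩⟩
theorem r5_247 : R 5 v5_247 := ⟨rfl, ⟨_, s5_247⟩⟩
theorem r5_248 : R 5 v5_248 := ⟨rfl, ⟨_, s5_248⟩⟩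
theorem r5_249 : R 5 v5_249 := ⟨rfl, ⟨_, s5_249⟩⟩
theorem r5_250 : R 5 v5_250 := ⟨rfl, ⟨_, s5_250⟩⟩
theorem r5_251 : R 5 v5_251 := ⟨rfl, ⟨_, s5_251⟩⟩
theorem r5_252 : R 5 v5_252 := ⟨rfl, ⟨_, s5_252⟩⟩
theorem r5_253 : R 5 v5_253 := ⟨rfl, ⟨_, s5_253⟩⟩
theorem r5_254 : R 5 v5_254 := ⟨rfl, ⟨_, s5_254⟩⟩
theorem r5_255 : R 5 v5_255 := ⟨rfl, ⟨_, s5_255⟩⟩
theorem r5_256 : R 5 v5_256 := ⟨rfl, ⟨_, s5_256⟩⟩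
theorem r5_257 : R 5 v5_257 := ⟨rfl, ⟨_, s5_257⟩⟩
theorem r5_258 : R 5 v5_258 := ⟨rfl, ⟨_, s5_258⟩⟩
theorem r5_259 : R 5 v5_259 := ⟨rfl, ⟨_, s5_259⟩⟩
theorem r5_260 : R 5 v5_260 := ⟨rfl, ⟨_, s5_260⟩⟩
theorem r5_261 : R 5 v5_261 := ⟨rfl, ⟨_, s5_261⟩⟩
theorem r5_262 : R 5 v5_262 := ⟨rfl, ⟨_, s5_262⟩⟩
theorem r5_263 : R 5 v5_263 := ⟨rfl, ⟨_, s5_263⟩⟩
theorem r5_264 : R 5 v5_264 := ⟨rfl, ⟨_, s5_264⟩⟩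
theorem r5_265 : R 5 v5_265 := ⟨rfl, ⟨_, s5_265⟩⟩
theorem r5_266 : R 5 v5_266 := ⟨rfl, ⟨_, s5_266⟩⟩
theorem r5_267 : R 5 v5_267 := ⟨rfl, ⟨_, s5_267⟩⟩
theorem r5_268 : R 5 v5_268 := ⟨rfl, ⟨_, s5_268⟩⟩
theorem r5_269 : R 5 v5_269 := ⟨rfl, ⟨_, s5_269⟩⟩
theorem r5_270 : R 5 v5_270 := ⟨rfl, ⟨_, s5_270⟩⟩
theorem r5_271 : R 5 v5_271 := ⟨rfl, ⟨_, s5_271⟩⟩
theorem r5_272 : R 5 v5_272 := ⟨rfl, ⟨_, s5_272⟩⟩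
theorem r5_273 : R 5 v5_273 := ⟨rfl, ⟨_, s5_273⟩⟩
theorem r5_274 : R 5 v5_274 := ⟨rfl, ⟨_, s5_274⟩⟩
theorem r5_275 : R 5 v5_275 := ⟨rfl, ⟨_, s5_275⟩⟩
theorem r5_276 : R 5 v5_276 := ⟨rfl, ⟨_, s5_276⟩⟩
theorem r5_277 : R 5 v5_277 := ⟨rfl, ⟨_, s5_277⟩⟩
theorem r5_278 : R 5 v5_278 := ⟨rfl, ⟨_, s5_278⟩⟩
theorem r5_279 : R 5 v5_279 := ⟨rfl, ⟨_, s5_279⟩⟩
theorem r5_280 : R 5 v5_280 := ⟨rfl, ⟨_, s5_280⟩⟩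
theorem r5_281 : R 5 v5_281 := ⟨rfl, ⟨_, s5_281⟩⟩
theorem r5_282 : R 5 v5_282 := ⟨rfl, ⟨_, s5_282⟩⟩
theorem r5_283 : R 5 v5_283 := ⟨rfl, ⟨_, s5_283⟩⟩
theorem r5_284 : R 5 v5_284 := ⟨rfl, ⟨_, s5_284⟩⟩
theorem r5_285 : R 5 v5_285 := ⟨rfl, ⟨_, s5_285⟩⟩
theorem r5_286 : R 5 v5_286 := ⟨rfl, ⟨_, s5_286⟩⟩
theorem r5_287 : R 5 v5_287 := ⟨rfl, ⟨_, s5_287⟩⟩
theorem r5_288 : R 5 v5_288 := ⟨rfl, ⟨_, s5_288⟩⟩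
theorem r5_289 : R 5 v5_289 := ⟨rfl, ⟨_, s5_289⟩⟩
theorem r5_290 : R 5 v5_290 := ⟨rfl, ⟨_, s5_290⟩⟩
theorem r5_291 : R 5 v5_291 := ⟨rfl, ⟨_, s5_291⟩⟩
theorem r5_292 : R 5 v5_292 := ⟨rfl, ⟨_, s5_292⟩⟩
theorem r5_293 : R 5 v5_293 := ⟨rfl, ⟨_, s5_293⟩⟩
theorem r5_294 : R 5 v5_294 := ⟨rfl, ⟨_, s5_294⟩⟩
theorem r5_295 : R 5 v5_295 := ⟨rfl, ⟨_, s5_295⟩⟩
theorem r5_296 : R 5 v5_296 := ⟨rfl, ⟨_, s5_296⟩⟩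
theorem r5_297 : R 5 v5_297 := ⟨rfl, ⟨_, s5_297⟩⟩
theorem r5_298 : R 5 v5_298 := ⟨rfl, ⟨_, s5_298⟩⟩
theorem r5_299 : R 5 v5_299 := ⟨rfl, ⟨_, s5_299⟩⟩
theorem r5_300 : R 5 v5_300 := ⟨rfl, ⟨_, s5_300⟩⟩
theorem r5_301 : R 5 v5_301 := ⟨rfl, ⟨_, s5_301⟩⟩
theorem r5_302 : R 5 v5_302 := ⟨rfl, ⟨_, s5_302⟩⟩
theorem r5_303 : R 5 v5_303 := ⟨rfl, ⟨_, s5_303⟩⟩
theorem r5_304 : R 5 v5_304 := ⟨rfl, ⟨_, s5_304⟩⟩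
theorem r5_305 : R 5 v5_305 := ⟨rfl, ⟨_, s5_305⟩⟩
theorem r5_306 : R 5 v5_306 := ⟨rfl, ⟨_, s5_306⟩⟩
theorem r5_307 : R 5 v5_307 := ⟨rfl, ⟨_, s5_307⟩⟩
theorem r5_308 : R 5 v5_308 := ⟨rfl, ⟨_, s5_308⟩⟩
theorem r5_309 : R 5 v5_309 := ⟨rfl, ⟨_, s5_309⟩⟩
theorem r5_310 : R 5 v5_310 := ⟨rfl, ⟨_, s5_310⟩⟩
theorem r5_311 : R 5 v5_311 := ⟨rfl, ⟨_, s5_311⟩⟩
theorem r5_312 : R 5 v5_312 := ⟨rfl, ⟨_, s5_312⟩⟩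
theorem r5_313 : R 5 v5_313 := ⟨rfl, ⟨_, s5_313⟩⟩
theorem r5_314 : R 5 v5_314 := ⟨rfl, ⟨_, s5_314⟩⟩
theorem r5_315 : R 5 v5_315 := ⟨rfl, ⟨_, s5_315⟩⟩
theorem r5_316 : R 5 v5_316 := ⟨rfl, ⟨_, s5_316⟩⟩
theorem r5_317 : R 5 v5_317 := ⟨rfl, ⟨_, s5_317⟩⟩
theorem r5_318 : R 5 v5_318 := ⟨rfl, ⟨_, s5_318⟩⟩
theorem r5_319 : R 5 v5_319 := ⟨rfl, ⟨_, s5_319⟩⟩
theorem r5_320 : R 5 v5_320 := ⟨rfl, ⟨_, s5_320⟩⟩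
theorem r5_321 : R 5 v5_321 := ⟨rfl, ⟨_, s5_321⟩⟩
theorem r5_322 : R 5 v5_322 := ⟨rfl, ⟨_, s5_322⟩⟩
theorem r5_323 : R 5 v5_323 := ⟨rfl, ⟨_, s5_323⟩⟩
theorem r5_324 : R 5 v5_324 := ⟨rfl, ⟨_, s5_324⟩⟩
theorem r5_325 : R 5 v5_325 := ⟨rfl, ⟨_, s5_325⟩⟩
theorem r5_326 : R 5 v5_326 := ⟨rfl, ⟨_, s5_326⟩⟩
theorem r5_327 : R 5 v5_327 := ⟨rfl, ⟨_, s5_327⟩⟩
theorem r5_328 : R 5 v5_328 := ⟨rfl, ⟨_, s5_328⟩⟩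
theorem r5_329 : R 5 v5_329 := ⟨rfl, ⟨_, s5_329⟩⟩
theorem r5_330 : R 5 v5_330 := ⟨rfl, ⟨_, s5_330⟩⟩
theorem r5_331 : R 5 v5_331 := ⟨rfl, ⟨_, s5_331⟩⟩
theorem r5_332 : R 5 v5_332 := ⟨rfl, ⟨_, s5_332⟩⟩
theorem r5_333 : R 5 v5_333 := ⟨rfl, ⟨_, s5_333⟩⟩
theorem r5_334 : R 5 v5_334 := ⟨rfl, ⟨_, s5_334⟩⟩
theorem r5_335 : R 5 v5_335 := ⟨rfl, ⟨_, s5_335⟩⟩
theorem r5_336 : R 5 v5_336 := ⟨rfl, ⟨_, s5_336⟩⟩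
theorem r5_337 : R 5 v5_337 := ⟨rfl, ⟨_, s5_337⟩⟩
theorem r5_338 : R 5 v5_338 := ⟨rfl, ⟨_, s5_338⟩⟩
theorem r5_339 : R 5 v5_339 := ⟨rfl, ⟨_, s5_339⟩⟩
theorem r5_340 : R 5 v5_340 := ⟨rfl, ⟨_, s5_340⟩⟩
theorem r5_341 : R 5 v5_341 := ⟨rfl, ⟨_, s5_341⟩⟩
theorem r5_342 : R 5 v5_342 := ⟨rfl, ⟨_, s5_342⟩⟩
theorem r5_343 : R 5 v5_343 := ⟨rfl, ⟨_, s5_343⟩⟩
theorem r5_344 : R 5 v5_344 := ⟨rfl, ⟨_, s5_344⟩⟩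
theorem r5_345 : R 5 v5_345 := ⟨rfl, ⟨_, s5_345⟩⟩
theorem r5_346 : R 5 v5_346 := ⟨rfl, ⟨_, s5_346⟩⟩
theorem r5_347 : R 5 v5_347 := ⟨rfl, ⟨_, s5_347⟩⟩
theorem r5_348 : R 5 v5_348 := ⟨rfl, ⟨_, s5_348⟩⟩
theorem r5_349 : R 5 v5_349 := ⟨rfl, ⟨_, s5_349⟩⟩
theorem r5_350 : R 5 v5_350 := ⟨rfl, ⟨_, s5_350⟩⟩
theorem r5_351 : R 5 v5_351 := ⟨rfl, ⟨_, s5_351⟩⟩
theorem r5_352 : R 5 v5_352 := ⟨rfl, ⟨_, s5_352⟩⟩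
theorem r5_353 : R 5 v5_353 := ⟨rfl, ⟨_, s5_353⟩⟩
theorem r5_354 : R 5 v5_354 := ⟨rfl, ⟨_, s5_354⟩⟩
theorem r5_355 : R 5 v5_355 := ⟨rfl, ⟨_, s5_355⟩⟩
theorem r5_356 : R 5 v5_356 := ⟨rfl, ⟨_, s5_356⟩⟩
theorem r5_357 : R 5 v5_357 := ⟨rfl, ⟨_, s5_357⟩⟩
theorem r5_358 : R 5 v5_358 := ⟨rfl, ⟨_, s5_358⟩⟩
theorem r5_359 : R 5 v5_359 := ⟨rfl, ⟨_, s5_359⟩⟩
theorem r5_360 : R 5 v5_360 := ⟨rfl, ⟨_, s5_360⟩⟩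
theorem r5_361 : R 5 v5_361 := ⟨rfl, ⟨_, s5_361⟩⟩
theorem r5_362 : R 5 v5_362 := ⟨rfl, ⟨_, s5_362⟩⟩
theorem r5_363 : R 5 v5_363 := ⟨rfl, ⟨_, s5_363⟩⟩
theorem r5_364 : R 5 v5_364 := ⟨rfl, ⟨_, s5_364⟩⟩
theorem r5_365 : R 5 v5_365 := ⟨rfl, ⟨_, s5_365⟩⟩
theorem r5_366 : R 5 v5_366 := ⟨rfl, ⟨_, s5_366⟩⟩
theorem r5_367 : R 5 v5_367 := ⟨rfl, ⟨_, s5_367⟩⟩
theorem r5_368 : R 5 v5_368 := ⟨rfl, ⟨_, s5_368⟩⟩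
theorem r5_369 : R 5 v5_369 := ⟨rfl, ⟨_, s5_369⟩⟩
theorem r5_370 : R 5 v5_370 := ⟨rfl, ⟨_, s5_370⟩⟩
theorem r5_371 : R 5 v5_371 := ⟨rfl, ⟨_, s5_371⟩⟩
theorem r5_372 : R 5 v5_372 := ⟨rfl, ⟨_, s5_372⟩⟩
theorem r5_373 : R 5 v5_373 := ⟨rfl, ⟨_, s5_373⟩⟩
theorem r5_374 : R 5 v5_374 := ⟨rfl, ⟨_, s5_374⟩⟩
theorem r5_375 : R 5 v5_375 := ⟨rfl, ⟨_, s5_375⟩⟩
theorem r5_376 : R 5 v5_376 := ⟨rfl, ⟨_, s5_376⟩⟩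
theorem r5_377 : R 5 v5_377 := ⟨rfl, ⟨_, s5_377⟩⟩
theorem r5_378 : R 5 v5_378 := ⟨rfl, ⟨_, s5_378⟩⟩
theorem r5_379 : R 5 v5_379 := ⟨rfl, ⟨_, s5_379⟩⟩
theorem r5_380 : R 5 v5_380 := ⟨rfl, ⟨_, s5_380⟩⟩
theorem r5_381 : R 5 v5_381 := ⟨rfl, ⟨_, s5_381⟩⟩
theorem r5_382 : R 5 v5_382 := ⟨rfl, ⟨_, s5_382⟩⟩
theorem r5_383 : R 5 v5_383 := ⟨rfl, ⟨_, s5_383⟩⟩
theorem r5_384 : R 5 v5_384 := ⟨rfl, ⟨_, s5_384⟩⟩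
theorem r5_385 : R 5 v5_385 := ⟨rfl, ⟨_, s5_385⟩⟩
theorem r5_386 : R 5 v5_386 := ⟨rfl, ⟨_, s5_386⟩⟩
theorem r5_387 : R 5 v5_387 := ⟨rfl, ⟨_, s5_387⟩⟩
theorem r5_388 : R 5 v5_388 := ⟨rfl, ⟨_, s5_388⟩⟩
theorem r5_389 : R 5 v5_389 := ⟨rfl, ⟨_, s5_389⟩⟩
theorem r5_390 : R 5 v5_390 := ⟨rfl, ⟨_, s5_390⟩⟩
theorem r5_391 : R 5 v5_391 := ⟨rfl, ⟨_, s5_391⟩⟩
theorem r5_392 : R 5 v5_392 := ⟨rfl, ⟨_, s5_392⟩⟩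
theorem r5_393 : R 5 v5_393 := ⟨rfl, ⟨_, s5_393⟩⟩
theorem r5_394 : R 5 v5_394 := ⟨rfl, ⟨_, s5_394⟩⟩
theorem r5_395 : R 5 v5_395 := ⟨rfl, ⟨_, s5_395⟩⟩
theorem r5_396 : R 5 v5_396 := ⟨rfl, ⟨_, s5_396⟩⟩
theorem r5_397 : R 5 v5_397 := ⟨rfl, ⟨_, s5_397⟩⟩
theorem r5_398 : R 5 v5_398 := ⟨rfl, ⟨_, s5_398⟩⟩
theorem r5_399 : R 5 v5_399 := ⟨rfl, ⟨_, s5_399⟩⟩
theorem r5_400 : R 5 v5_400 := ⟨rfl, ⟨_, s5_400⟩⟩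
theorem r5_401 : R 5 v5_401 := ⟨rfl, ⟨_, s5_401⟩⟩
theorem r5_402 : R 5 v5_402 := ⟨rfl, ⟨_, s5_402⟩⟩
theorem r5_403 : R 5 v5_403 := ⟨rfl, ⟨_, s5_403⟩⟩
theorem r5_404 : R 5 v5_404 := ⟨rfl, ⟨_, s5_404⟩⟩
theorem r5_405 : R 5 v5_405 := ⟨rfl, ⟨_, s5_405⟩⟩
theorem r5_406 : R 5 v5_406 := ⟨rfl, ⟨_, s5_406⟩⟩
theorem r5_407 : R 5 v5_407 := ⟨rfl, ⟨_, s5_407⟩⟩
theorem r5_408 : R 5 v5_408 := ⟨rfl, ⟨_, s5_408⟩⟩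
theorem r5_409 : R 5 v5_409 := ⟨rfl, ⟨_, s5_409⟩⟩
theorem r5_410 : R 5 v5_410 := ⟨rfl, ⟨_, s5_410⟩⟩
theorem r5_411 : R 5 v5_411 := ⟨rfl, ⟨_, s5_411⟩⟩
theorem r5_412 : R 5 v5_412 := ⟨rfl, ⟨_, s5_412⟩⟩
theorem r5_413 : R 5 v5_413 := ⟨rfl, ⟨_, s5_413⟩⟩
theorem r5_414 : R 5 v5_414 := ⟨rfl, ⟨_, s5_414⟩⟩
theorem r5_415 : R 5 v5_415 := ⟨rfl, ⟨_, s5_415⟩⟩
theorem r5_416 : R 5 v5_416 := ⟨rfl, ⟨_, s5_416⟩⟩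
theorem r5_417 : R 5 v5_417 := ⟨rfl, ⟨_, s5_417⟩⟩
theorem r5_418 : R 5 v5_418 := ⟨rfl, ⟨_, s5_418⟩⟩
theorem r5_419 : R 5 v5_419 := ⟨rfl, ⟨_, s5_419⟩⟩
theorem r5_420 : R 5 v5_420 := ⟨rfl, ⟨_, s5_420⟩⟩
theorem r5_421 : R 5 v5_421 := ⟨rfl, ⟨_, s5_421⟩⟩
theorem r5_422 : R 5 v5_422 := ⟨rfl, ⟨_, s5_422⟩⟩
theorem r5_423 : R 5 v5_423 := ⟨rfl, ⟨_, s5_423⟩⟩
theorem r5_424 : R 5 v5_424 := ⟨rfl, ⟨_, s5_424⟩⟩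
theorem r5_425 : R 5 v5_425 := ⟨rfl, ⟨_, s5_425⟩⟩
theorem r5_426 : R 5 v5_426 := ⟨rfl, ⟨_, s5_426⟩⟩
theorem r5_427 : R 5 v5_427 := ⟨rfl, ⟨_, s5_427⟩⟩
theorem r5_428 : R 5 v5_428 := ⟨rfl, ⟨_, s5_428⟩⟩
theorem r5_429 : R 5 v5_429 := ⟨rfl, ⟨_, s5_429⟩⟩
theorem r5_430 : R 5 v5_430 := ⟨rfl, ⟨_, s5_430⟩⟩
theorem r5_431 : R 5 v5_431 := ⟨rfl, ⟨_, s5_431⟩⟩
theorem r5_432 : R 5 v5_432 := ⟨rfl, ⟨_, s5_432⟩⟩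
theorem r5_433 : R 5 v5_433 := ⟨rfl, ⟨_, s5_433⟩⟩
theorem r5_434 : R 5 v5_434 := ⟨rfl, ⟨_, s5_434⟩⟩
theorem r5_435 : R 5 v5_435 := ⟨rfl, ⟨_, s5_435⟩⟩
theorem r5_436 : R 5 v5_436 := ⟨rfl, ⟨_, s5_436⟩⟩
theorem r5_437 : R 5 v5_437 := ⟨rfl, ⟨_, s5_437⟩⟩
theorem r5_438 : R 5 v5_438 := ⟨rfl, ⟨_, s5_438⟩⟩
theorem r5_439 : R 5 v5_439 := ⟨rfl, ⟨_, s5_439⟩⟩
theorem r5_440 : R 5 v5_440 := ⟨rfl, ⟨_, s5_440⟩⟩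
theorem r5_441 : R 5 v5_441 := ⟨rfl, ⟨_, s5_441⟩⟩
theorem r5_442 : R 5 v5_442 := ⟨rfl, ⟨_, s5_442⟩⟩
theorem r5_443 : R 5 v5_443 := ⟨rfl, ⟨_, s5_443⟩⟩
theorem r5_444 : R 5 v5_444 := ⟨rfl, ⟨_, s5_444⟩⟩
theorem r5_445 : R 5 v5_445 := ⟨rfl, ⟨_, s5_445⟩⟩
theorem r5_446 : R 5 v5_446 := ⟨rfl, ⟨_, s5_446⟩⟩
theorem r5_447 : R 5 v5_447 := ⟨rfl, ⟨_, s5_447⟩⟩
theorem r5_448 : R 5 v5_448 := ⟨rfl, ⟨_, s5_448⟩⟩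
theorem r5_449 : R 5 v5_449 := ⟨rfl, ⟨_, s5_449⟩⟩
theorem r5_450 : R 5 v5_450 := ⟨rfl, ⟨_, s5_450⟩⟩
theorem r5_451 : R 5 v5_451 := ⟨rfl, ⟨_, s5_451⟩⟩
theorem r5_452 : R 5 v5_452 := ⟨rfl, ⟨_, s5_452⟩⟩
theorem r5_453 : R 5 v5_453 := ⟨rfl, ⟨_, s5_453⟩⟩
theorem r5_454 : R 5 v5_454 := ⟨rfl, ⟨_, s5_454⟩⟩
theorem r5_455 : R 5 v5_455 := ⟨rfl, ⟨_, s5_455⟩⟩
theorem r5_456 : R 5 v5_456 := ⟨rfl, ⟨_, s5_456⟩⟩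
theorem r5_457 : R 5 v5_457 := ⟨rfl, ⟨_, s5_457⟩⟩
theorem r5_458 : R 5 v5_458 := ⟨rfl, ⟨_, s5_458⟩⟩
theorem r5_459 : R 5 v5_459 := ⟨rfl, ⟨_, s5_459⟩⟩
theorem r5_460 : R 5 v5_460 := ⟨rfl, ⟨_, s5_460⟩⟩
theorem r5_461 : R 5 v5_461 := ⟨rfl, ⟨_, s5_461⟩⟩
theorem r5_462 : R 5 v5_462 := ⟨rfl, ⟨_, s5_462⟩⟩
theorem r5_463 : R 5 v5_463 := ⟨rfl, ⟨_, s5_463⟩⟩
theorem r5_464 : R 5 v5_464 := ⟨rfl, ⟨_, s5_464⟩⟩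
theorem r5_465 : R 5 v5_465 := ⟨rfl, ⟨_, s5_465⟩⟩
theorem r5_466 : R 5 v5_466 := ⟨rfl, ⟨_, s5_466⟩⟩
theorem r5_467 : R 5 v5_467 := ⟨rfl, ⟨_, s5_467⟩⟩
theorem r5_468 : R 5 v5_468 := ⟨rfl, ⟨_, s5_468⟩⟩
theorem r5_469 : R 5 v5_469 := ⟨rfl, ⟨_, s5_469⟩⟩
theorem r5_470 : R 5 v5_470 := ⟨rfl, ⟨_, s5_470⟩⟩
theorem r5_471 : R 5 v5_471 := ⟨rfl, ⟨_, s5_471⟩⟩
theorem r5_472 : R 5 v5_472 := ⟨rfl, ⟨_, s5_472⟩⟩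
theorem r5_473 : R 5 v5_473 := ⟨rfl, ⟨_, s5_473⟩⟩
theorem r5_474 : R 5 v5_474 := ⟨rfl, ⟨_, s5_474⟩⟩
theorem r5_475 : R 5 v5_475 := ⟨rfl, ⟨_, s5_475⟩⟩
theorem r5_476 : R 5 v5_476 := ⟨rfl, ⟨_, s5_476⟩⟩
theorem r5_477 : R 5 v5_477 := ⟨rfl, ⟨_, s5_477⟩⟩
theorem r5_478 : R 5 v5_478 := ⟨rfl, ⟨_, s5_478⟩⟩
theorem r5_479 : R 5 v5_479 := ⟨rfl, ⟨_, s5_479⟩⟩
theorem r5_480 : R 5 v5_480 := ⟨rfl, ⟨_, s5_480⟩⟩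
theorem a6_0 : AllT Q n6_0 := ⟨q0, q64⟩
theorem a6_1 : AllT Q n6_1 := ⟨q1, q65⟩
theorem a6_2 : AllT Q n6_2 := ⟨q2, q66⟩
theorem a6_3 : AllT Q n6_3 := ⟨q3, q67⟩
theorem a6_4 : AllT Q n6_4 := ⟨q4, q68⟩
theorem a6_5 : AllT Q n6_5 := ⟨q5, q69⟩
theorem a6_6 : AllT Q n6_6 := ⟨q6, q70⟩
theorem a6_7 : AllT Q n6_7 := ⟨q7, q71⟩
theorem a6_8 : AllT Q n6_8 := ⟨q8, q72⟩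
theorem a6_9 : AllT Q n6_9 := ⟨q9, q73⟩
theorem a6_10 : AllT Q n6_10 := ⟨q10, q74⟩
theorem a6_11 : AllT Q n6_11 := ⟨q11, q75⟩
theorem a6_12 : AllT Q n6_12 := ⟨q12, q76⟩
theorem a6_13 : AllT Q n6_13 := ⟨q13, q77⟩
theorem a6_14 : AllT Q n6_14 := ⟨q14, q78⟩
theorem a6_15 : AllT Q n6_15 := ⟨q15, q79⟩
theorem a6_16 : AllT Q n6_16 := ⟨q16, q80⟩
theorem a6_17 : AllT Q n6_17 := ⟨q17, q81⟩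
theorem a6_18 : AllT Q n6_18 := ⟨q18, q82⟩
theorem a6_19 : AllT Q n6_19 := ⟨q19, q83⟩
theorem a6_20 : AllT Q n6_20 := ⟨q20, q84⟩
theorem a6_21 : AllT Q n6_21 := ⟨q21, q85⟩
theorem a6_22 : AllT Q n6_22 := ⟨q22, q86⟩
theorem a6_23 : AllT Q n6_23 := ⟨q23, q87⟩
theorem a6_24 : AllT Q n6_24 := ⟨q24, q88⟩
theorem a6_25 : AllT Q n6_25 := ⟨q25, q89⟩
theorem a6_26 : AllT Q n6_26 := ⟨q26, q90⟩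
theorem a6_27 : AllT Q n6_27 := ⟨q27, q91⟩
theorem a6_28 : AllT Q n6_28 := ⟨q28, q92⟩
theorem a6_29 : AllT Q n6_29 := ⟨q29, q93⟩
theorem a6_30 : AllT Q n6_30 := ⟨q30, q0⟩
theorem a6_31 : AllT Q n6_31 := ⟨q31, q0⟩
theorem a6_32 : AllT Q n6_32 := ⟨q32, q0⟩
theorem a6_33 : AllT Q n6_33 := ⟨q33, q0⟩
theorem a6_34 : AllT Q n6_34 := ⟨q34, q0⟩
theorem a6_35 : AllT Q n6_35 := ⟨q35, q0⟩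
theorem a6_36 : AllT Q n6_36 := ⟨q36, q0⟩
theorem a6_37 : AllT Q n6_37 := ⟨q37, q0⟩
theorem a6_38 : AllT Q n6_38 := ⟨q38, q0⟩
theorem a6_39 : AllT Q n6_39 := ⟨q39, q0⟩
theorem a6_40 : AllT Q n6_40 := ⟨q40, q0⟩
theorem a6_41 : AllT Q n6_41 := ⟨q41, q0⟩
theorem a6_42 : AllT Q n6_42 := ⟨q42, q0⟩
theorem a6_43 : AllT Q n6_43 := ⟨q43, q0⟩
theorem a6_44 : AllT Q n6_44 := ⟨q44, q0⟩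
theorem a6_45 : AllT Q n6_45 := ⟨q45, q0⟩
theorem a6_46 : AllT Q n6_46 := ⟨q46, q0⟩
theorem a6_47 : AllT Q n6_47 := ⟨q47, q0⟩
theorem a6_48 : AllT Q n6_48 := ⟨q48, q0⟩
theorem a6_49 : AllT Q n6_49 := ⟨q49, q0⟩
theorem a6_50 : AllT Q n6_50 := ⟨q50, q0⟩
theorem a6_51 : AllT Q n6_51 := ⟨q51, q0⟩
theorem a6_52 : AllT Q n6_52 := ⟨q52, q0⟩
theorem a6_53 : AllT Q n6_53 := ⟨q53, q0⟩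
theorem a6_54 : AllT Q n6_54 := ⟨q54, q0⟩
theorem a6_55 : AllT Q n6_55 := ⟨q55, q0⟩
theorem a6_56 : AllT Q n6_56 := ⟨q56, q0⟩
theorem a6_57 : AllT Q n6_57 := ⟨q57, q0⟩
theorem a6_58 : AllT Q n6_58 := ⟨q58, q0⟩
theorem a6_59 : AllT Q n6_59 := ⟨q59, q0⟩
theorem a6_60 : AllT Q n6_60 := ⟨q60, q0⟩
theorem a6_61 : AllT Q n6_61 := ⟨q61, q0⟩
theorem a6_62 : AllT Q n6_62 := ⟨q62, q0⟩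
theorem a6_63 : AllT Q n6_63 := ⟨q63, q0⟩
theorem a5_0 : AllT Q n5_0 := ⟨a6_0, a6_32⟩
theorem a5_1 : AllT Q n5_1 := ⟨a6_1, a6_33⟩
theorem a5_2 : AllT Q n5_2 := ⟨a6_2, a6_34⟩
theorem a5_3 : AllT Q n5_3 := ⟨a6_3, a6_35⟩
theorem a5_4 : AllT Q n5_4 := ⟨a6_4, a6_36⟩
theorem a5_5 : AllT Q n5_5 := ⟨a6_5, a6_37⟩
theorem a5_6 : AllT Q n5_6 := ⟨a6_6, a6_38⟩
theorem a5_7 : AllT Q n5_7 := ⟨a6_7, a6_39⟩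
theorem a5_8 : AllT Q n5_8 := ⟨a6_8, a6_40⟩
theorem a5_9 : AllT Q n5_9 := ⟨a6_9, a6_41⟩
theorem a5_10 : AllT Q n5_10 := ⟨a6_10, a6_42⟩
theorem a5_11 : AllT Q n5_11 := ⟨a6_11, a6_43⟩
theorem a5_12 : AllT Q n5_12 := ⟨a6_12, a6_44⟩
theorem a5_13 : AllT Q n5_13 := ⟨a6_13, a6_45⟩
theorem a5_14 : AllT Q n5_14 := ⟨a6_14, a6_46⟩
theorem a5_15 : AllT Q n5_15 := ⟨a6_15, a6_47⟩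
theorem a5_16 : AllT Q n5_16 := ⟨a6_16, a6_48⟩
theorem a5_17 : AllT Q n5_17 := ⟨a6_17, a6_49⟩
theorem a5_18 : AllT Q n5_18 := ⟨a6_18, a6_50⟩
theorem a5_19 : AllT Q n5_19 := ⟨a6_19, a6_51⟩
theorem a5_20 : AllT Q n5_20 := ⟨a6_20, a6_52⟩
theorem a5_21 : AllT Q n5_21 := ⟨a6_21, a6_53⟩
theorem a5_22 : AllT Q n5_22 := ⟨a6_22, a6_54⟩
theorem a5_23 : AllT Q n5_23 := ⟨a6_23, a6_55⟩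
theorem a5_24 : AllT Q n5_24 := ⟨a6_24, a6_56⟩
theorem a5_25 : AllT Q n5_25 := ⟨a6_25, a6_57⟩
theorem a5_26 : AllT Q n5_26 := ⟨a6_26, a6_58⟩
theorem a5_27 : AllT Q n5_27 := ⟨a6_27, a6_59⟩
theorem a5_28 : AllT Q n5_28 := ⟨a6_28, a6_60⟩
theorem a5_29 : AllT Q n5_29 := ⟨a6_29, a6_61⟩
theorem a5_30 : AllT Q n5_30 := ⟨a6_30, a6_62⟩
theorem a5_31 : AllT Q n5_31 := ⟨a6_31, a6_63⟩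
theorem a4_0 : AllT Q n4_0 := ⟨a5_0, a5_16⟩
theorem a4_1 : AllT Q n4_1 := ⟨a5_1, a5_17⟩
theorem a4_2 : AllT Q n4_2 := ⟨a5_2, a5_18⟩
theorem a4_3 : AllT Q n4_3 := ⟨a5_3, a5_19⟩
theorem a4_4 : AllT Q n4_4 := ⟨a5_4, a5_20⟩
theorem a4_5 : AllT Q n4_5 := ⟨a5_5, a5_21⟩
theorem a4_6 : AllT Q n4_6 := ⟨a5_6, a5_22⟩
theorem a4_7 : AllT Q n4_7 := ⟨a5_7, a5_23⟩
theorem a4_8 : AllT Q n4_8 := ⟨a5_8, a5_24⟩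
theorem a4_9 : AllT Q n4_9 := ⟨a5_9, a5_25⟩
theorem a4_10 : AllT Q n4_10 := ⟨a5_10, a5_26⟩
theorem a4_11 : AllT Q n4_11 := ⟨a5_11, a5_27⟩
theorem a4_12 : AllT Q n4_12 := ⟨a5_12, a5_28⟩
theorem a4_13 : AllT Q n4_13 := ⟨a5_13, a5_29⟩
theorem a4_14 : AllT Q n4_14 := ⟨a5_14, a5_30⟩
theorem a4_15 : AllT Q n4_15 := ⟨a5_15, a5_31⟩
theorem a3_0 : AllT Q n3_0 := ⟨a4_0, a4_8⟩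
theorem a3_1 : AllT Q n3_1 := ⟨a4_1, a4_9⟩
theorem a3_2 : AllT Q n3_2 := ⟨a4_2, a4_10⟩
theorem a3_3 : AllT Q n3_3 := ⟨a4_3, a4_11⟩
theorem a3_4 : AllT Q n3_4 := ⟨a4_4, a4_12⟩
theorem a3_5 : AllT Q n3_5 := ⟨a4_5, a4_13⟩
theorem a3_6 : AllT Q n3_6 := ⟨a4_6, a4_14⟩
theorem a3_7 : AllT Q n3_7 := ⟨a4_7, a4_15⟩
theorem a2_0 : AllT Q n2_0 := ⟨a3_0, a3_4⟩
theorem a2_1 : AllT Q n2_1 := ⟨a3_1, a3_5⟩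
theorem a2_2 : AllT Q n2_2 := ⟨a3_2, a3_6⟩
theorem a2_3 : AllT Q n2_3 := ⟨a3_3, a3_7⟩
theorem a1_0 : AllT Q n1_0 := ⟨a2_0, a2_2⟩
theorem a1_1 : AllT Q n1_1 := ⟨a2_1, a2_3⟩
theorem a0_0 : AllT Q n0_0 := ⟨a1_0, a1_1⟩
theorem b2_1_0 : AllT (R 2) m2_1_0 := ⟨r2_0, r2_2⟩
theorem b2_1_1 : AllT (R 2) m2_1_1 := ⟨r2_1, r2_0⟩
theorem b2_0_0 : AllT (R 2) m2_0_0 := ⟨b2_1_0, b2_1_1⟩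
theorem b3_3_0 : AllT (R 3) m3_3_0 := ⟨r3_0, r3_8⟩
theorem b3_3_1 : AllT (R 3) m3_3_1 := ⟨r3_1, r3_9⟩
theorem b3_3_2 : AllT (R 3) m3_3_2 := ⟨r3_2, r3_10⟩
theorem b3_3_3 : AllT (R 3) m3_3_3 := ⟨r3_3, r3_11⟩
theorem b3_3_4 : AllT (R 3) m3_3_4 := ⟨r3_4, r3_12⟩
theorem b3_3_5 : AllT (R 3) m3_3_5 := ⟨r3_5, r3_13⟩
theorem b3_3_6 : AllT (R 3) m3_3_6 := ⟨r3_6, r3_14⟩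
theorem b3_3_7 : AllT (R 3) m3_3_7 := ⟨r3_7, r3_0⟩
theorem b3_2_0 : AllT (R 3) m3_2_0 := ⟨b3_3_0, b3_3_4⟩
theorem b3_2_1 : AllT (R 3) m3_2_1 := ⟨b3_3_1, b3_3_5⟩
theorem b3_2_2 : AllT (R 3) m3_2_2 := ⟨b3_3_2, b3_3_6⟩
theorem b3_2_3 : AllT (R 3) m3_2_3 := ⟨b3_3_3, b3_3_7⟩
theorem b3_1_0 : AllT (R 3) m3_1_0 := ⟨b3_2_0, b3_2_2⟩
theorem b3_1_1 : AllT (R 3) m3_1_1 := ⟨b3_2_1, b3_2_3⟩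
theorem b3_0_0 : AllT (R 3) m3_0_0 := ⟨b3_1_0, b3_1_1⟩
theorem b4_6_0 : AllT (R 4) m4_6_0 := ⟨r4_0, r4_64⟩
theorem b4_6_1 : AllT (R 4) m4_6_1 := ⟨r4_1, r4_65⟩
theorem b4_6_2 : AllT (R 4) m4_6_2 := ⟨r4_2, r4_66⟩
theorem b4_6_3 : AllT (R 4) m4_6_3 := ⟨r4_3, r4_67⟩
theorem b4_6_4 : AllT (R 4) m4_6_4 := ⟨r4_4, r4_68⟩
theorem b4_6_5 : AllT (R 4) m4_6_5 := ⟨r4_5, r4_69⟩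
theorem b4_6_6 : AllT (R 4) m4_6_6 := ⟨r4_6, r4_70⟩
theorem b4_6_7 : AllT (R 4) m4_6_7 := ⟨r4_7, r4_71⟩
theorem b4_6_8 : AllT (R 4) m4_6_8 := ⟨r4_8, r4_72⟩
theorem b4_6_9 : AllT (R 4) m4_6_9 := ⟨r4_9, r4_73⟩
theorem b4_6_10 : AllT (R 4) m4_6_10 := ⟨r4_10, r4_74⟩
theorem b4_6_11 : AllT (R 4) m4_6_11 := ⟨r4_11, r4_75⟩
theorem b4_6_12 : AllT (R 4) m4_6_12 := ⟨r4_12, r4_76⟩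
theorem b4_6_13 : AllT (R 4) m4_6_13 := ⟨r4_13, r4_77⟩
theorem b4_6_14 : AllT (R 4) m4_6_14 := ⟨r4_14, r4_78⟩
theorem b4_6_15 : AllT (R 4) m4_6_15 := ⟨r4_15, r4_79⟩
theorem b4_6_16 : AllT (R 4) m4_6_16 := ⟨r4_16, r4_80⟩
theorem b4_6_17 : AllT (R 4) m4_6_17 := ⟨r4_17, r4_81⟩
theorem b4_6_18 : AllT (R 4) m4_6_18 := ⟨r4_18, r4_82⟩
theorem b4_6_19 : AllT (R 4) m4_6_19 := ⟨r4_19, r4_83⟩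
theorem b4_6_20 : AllT (R 4) m4_6_20 := ⟨r4_20, r4_84⟩
theorem b4_6_21 : AllT (R 4) m4_6_21 := ⟨r4_21, r4_85⟩
theorem b4_6_22 : AllT (R 4) m4_6_22 := ⟨r4_22, r4_86⟩
theorem b4_6_23 : AllT (R 4) m4_6_23 := ⟨r4_23, r4_87⟩
theorem b4_6_24 : AllT (R 4) m4_6_24 := ⟨r4_24, r4_88⟩
theorem b4_6_25 : AllT (R 4) m4_6_25 := ⟨r4_25, r4_89⟩
theorem b4_6_26 : AllT (R 4) m4_6_26 := ⟨r4_26, r4_90⟩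
theorem b4_6_27 : AllT (R 4) m4_6_27 := ⟨r4_27, r4_91⟩
theorem b4_6_28 : AllT (R 4) m4_6_28 := ⟨r4_28, r4_92⟩
theorem b4_6_29 : AllT (R 4) m4_6_29 := ⟨r4_29, r4_93⟩
theorem b4_6_30 : AllT (R 4) m4_6_30 := ⟨r4_30, r4_94⟩
theorem b4_6_31 : AllT (R 4) m4_6_31 := ⟨r4_31, r4_95⟩
theorem b4_6_32 : AllT (R 4) m4_6_32 := ⟨r4_32, r4_96⟩
theorem b4_6_33 : AllT (R 4) m4_6_33 := ⟨r4_33, r4_97⟩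
theorem b4_6_34 : AllT (R 4) m4_6_34 := ⟨r4_34, r4_98⟩
theorem b4_6_35 : AllT (R 4) m4_6_35 := ⟨r4_35, r4_99⟩
theorem b4_6_36 : AllT (R 4) m4_6_36 := ⟨r4_36, r4_100⟩
theorem b4_6_37 : AllT (R 4) m4_6_37 := ⟨r4_37, r4_101⟩
theorem b4_6_38 : AllT (R 4) m4_6_38 := ⟨r4_38, r4_102⟩
theorem b4_6_39 : AllT (R 4) m4_6_39 := ⟨r4_39, r4_103⟩
theorem b4_6_40 : AllT (R 4) m4_6_40 := ⟨r4_40, r4_104⟩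
theorem b4_6_41 : AllT (R 4) m4_6_41 := ⟨r4_41, r4_105⟩
theorem b4_6_42 : AllT (R 4) m4_6_42 := ⟨r4_42, r4_106⟩
theorem b4_6_43 : AllT (R 4) m4_6_43 := ⟨r4_43, r4_107⟩
theorem b4_6_44 : AllT (R 4) m4_6_44 := ⟨r4_44, r4_108⟩
theorem b4_6_45 : AllT (R 4) m4_6_45 := ⟨r4_45, r4_109⟩
theorem b4_6_46 : AllT (R 4) m4_6_46 := ⟨r4_46, r4_110⟩
theorem b4_6_47 : AllT (R 4) m4_6_47 := ⟨r4_47, r4_111⟩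
theorem b4_6_48 : AllT (R 4) m4_6_48 := ⟨r4_48, r4_112⟩
theorem b4_6_49 : AllT (R 4) m4_6_49 := ⟨r4_49, r4_113⟩
theorem b4_6_50 : AllT (R 4) m4_6_50 := ⟨r4_50, r4_114⟩
theorem b4_6_51 : AllT (R 4) m4_6_51 := ⟨r4_51, r4_115⟩
theorem b4_6_52 : AllT (R 4) m4_6_52 := ⟨r4_52, r4_116⟩
theorem b4_6_53 : AllT (R 4) m4_6_53 := ⟨r4_53, r4_117⟩
theorem b4_6_54 : AllT (R 4) m4_6_54 := ⟨r4_54, r4_118⟩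
theorem b4_6_55 : AllT (R 4) m4_6_55 := ⟨r4_55, r4_119⟩
theorem b4_6_56 : AllT (R 4) m4_6_56 := ⟨r4_56, r4_120⟩
theorem b4_6_57 : AllT (R 4) m4_6_57 := ⟨r4_57, r4_0⟩
theorem b4_6_58 : AllT (R 4) m4_6_58 := ⟨r4_58, r4_0⟩
theorem b4_6_59 : AllT (R 4) m4_6_59 := ⟨r4_59, r4_0⟩
theorem b4_6_60 : AllT (R 4) m4_6_60 := ⟨r4_60, r4_0⟩
theorem b4_6_61 : AllT (R 4) m4_6_61 := ⟨r4_61, r4_0⟩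
theorem b4_6_62 : AllT (R 4) m4_6_62 := ⟨r4_62, r4_0⟩
theorem b4_6_63 : AllT (R 4) m4_6_63 := ⟨r4_63, r4_0⟩
theorem b4_5_0 : AllT (R 4) m4_5_0 := ⟨b4_6_0, b4_6_32⟩
theorem b4_5_1 : AllT (R 4) m4_5_1 := ⟨b4_6_1, b4_6_33⟩
theorem b4_5_2 : AllT (R 4) m4_5_2 := ⟨b4_6_2, b4_6_34⟩
theorem b4_5_3 : AllT (R 4) m4_5_3 := ⟨b4_6_3, b4_6_35⟩
theorem b4_5_4 : AllT (R 4) m4_5_4 := ⟨b4_6_4, b4_6_36⟩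
theorem b4_5_5 : AllT (R 4) m4_5_5 := ⟨b4_6_5, b4_6_37⟩
theorem b4_5_6 : AllT (R 4) m4_5_6 := ⟨b4_6_6, b4_6_38⟩
theorem b4_5_7 : AllT (R 4) m4_5_7 := ⟨b4_6_7, b4_6_39⟩
theorem b4_5_8 : AllT (R 4) m4_5_8 := ⟨b4_6_8, b4_6_40⟩
theorem b4_5_9 : AllT (R 4) m4_5_9 := ⟨b4_6_9, b4_6_41⟩
theorem b4_5_10 : AllT (R 4) m4_5_10 := ⟨b4_6_10, b4_6_42⟩
theorem b4_5_11 : AllT (R 4) m4_5_11 := ⟨b4_6_11, b4_6_43⟩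
theorem b4_5_12 : AllT (R 4) m4_5_12 := ⟨b4_6_12, b4_6_44⟩
theorem b4_5_13 : AllT (R 4) m4_5_13 := ⟨b4_6_13, b4_6_45⟩
theorem b4_5_14 : AllT (R 4) m4_5_14 := ⟨b4_6_14, b4_6_46⟩
theorem b4_5_15 : AllT (R 4) m4_5_15 := ⟨b4_6_15, b4_6_47⟩
theorem b4_5_16 : AllT (R 4) m4_5_16 := ⟨b4_6_16, b4_6_48⟩
theorem b4_5_17 : AllT (R 4) m4_5_17 := ⟨b4_6_17, b4_6_49⟩
theorem b4_5_18 : AllT (R 4) m4_5_18 := ⟨b4_6_18, b4_6_50⟩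
theorem b4_5_19 : AllT (R 4) m4_5_19 := ⟨b4_6_19, b4_6_51⟩
theorem b4_5_20 : AllT (R 4) m4_5_20 := ⟨b4_6_20, b4_6_52⟩
theorem b4_5_21 : AllT (R 4) m4_5_21 := ⟨b4_6_21, b4_6_53⟩
theorem b4_5_22 : AllT (R 4) m4_5_22 := ⟨b4_6_22, b4_6_54⟩
theorem b4_5_23 : AllT (R 4) m4_5_23 := ⟨b4_6_23, b4_6_55⟩
theorem b4_5_24 : AllT (R 4) m4_5_24 := ⟨b4_6_24, b4_6_56⟩
theorem b4_5_25 : AllT (R 4) m4_5_25 := ⟨b4_6_25, b4_6_57⟩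
theorem b4_5_26 : AllT (R 4) m4_5_26 := ⟨b4_6_26, b4_6_58⟩
theorem b4_5_27 : AllT (R 4) m4_5_27 := ⟨b4_6_27, b4_6_59⟩
theorem b4_5_28 : AllT (R 4) m4_5_28 := ⟨b4_6_28, b4_6_60⟩
theorem b4_5_29 : AllT (R 4) m4_5_29 := ⟨b4_6_29, b4_6_61⟩
theorem b4_5_30 : AllT (R 4) m4_5_30 := ⟨b4_6_30, b4_6_62⟩
theorem b4_5_31 : AllT (R 4) m4_5_31 := ⟨b4_6_31, b4_6_63⟩
theorem b4_4_0 : AllT (R 4) m4_4_0 := ⟨b4_5_0, b4_5_16⟩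
theorem b4_4_1 : AllT (R 4) m4_4_1 := ⟨b4_5_1, b4_5_17⟩
theorem b4_4_2 : AllT (R 4) m4_4_2 := ⟨b4_5_2, b4_5_18⟩
theorem b4_4_3 : AllT (R 4) m4_4_3 := ⟨b4_5_3, b4_5_19⟩
theorem b4_4_4 : AllT (R 4) m4_4_4 := ⟨b4_5_4, b4_5_20⟩
theorem b4_4_5 : AllT (R 4) m4_4_5 := ⟨b4_5_5, b4_5_21⟩
theorem b4_4_6 : AllT (R 4) m4_4_6 := ⟨b4_5_6, b4_5_22⟩
theorem b4_4_7 : AllT (R 4) m4_4_7 := ⟨b4_5_7, b4_5_23⟩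
theorem b4_4_8 : AllT (R 4) m4_4_8 := ⟨b4_5_8, b4_5_24⟩
theorem b4_4_9 : AllT (R 4) m4_4_9 := ⟨b4_5_9, b4_5_25⟩
theorem b4_4_10 : AllT (R 4) m4_4_10 := ⟨b4_5_10, b4_5_26⟩
theorem b4_4_11 : AllT (R 4) m4_4_11 := ⟨b4_5_11, b4_5_27⟩
theorem b4_4_12 : AllT (R 4) m4_4_12 := ⟨b4_5_12, b4_5_28⟩
theorem b4_4_13 : AllT (R 4) m4_4_13 := ⟨b4_5_13, b4_5_29⟩
theorem b4_4_14 : AllT (R 4) m4_4_14 := ⟨b4_5_14, b4_5_30⟩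
theorem b4_4_15 : AllT (R 4) m4_4_15 := ⟨b4_5_15, b4_5_31⟩
theorem b4_3_0 : AllT (R 4) m4_3_0 := ⟨b4_4_0, b4_4_8⟩
theorem b4_3_1 : AllT (R 4) m4_3_1 := ⟨b4_4_1, b4_4_9⟩
theorem b4_3_2 : AllT (R 4) m4_3_2 := ⟨b4_4_2, b4_4_10⟩
theorem b4_3_3 : AllT (R 4) m4_3_3 := ⟨b4_4_3, b4_4_11⟩
theorem b4_3_4 : AllT (R 4) m4_3_4 := ⟨b4_4_4, b4_4_12⟩
theorem b4_3_5 : AllT (R 4) m4_3_5 := ⟨b4_4_5, b4_4_13⟩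
theorem b4_3_6 : AllT (R 4) m4_3_6 := ⟨b4_4_6, b4_4_14⟩
theorem b4_3_7 : AllT (R 4) m4_3_7 := ⟨b4_4_7, b4_4_15⟩
theorem b4_2_0 : AllT (R 4) m4_2_0 := ⟨b4_3_0, b4_3_4⟩
theorem b4_2_1 : AllT (R 4) m4_2_1 := ⟨b4_3_1, b4_3_5⟩
theorem b4_2_2 : AllT (R 4) m4_2_2 := ⟨b4_3_2, b4_3_6⟩
theorem b4_2_3 : AllT (R 4) m4_2_3 := ⟨b4_3_3, b4_3_7⟩
theorem b4_1_0 : AllT (R 4) m4_1_0 := ⟨b4_2_0, b4_2_2⟩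
theorem b4_1_1 : AllT (R 4) m4_1_1 := ⟨b4_2_1, b4_2_3⟩
theorem b4_0_0 : AllT (R 4) m4_0_0 := ⟨b4_1_0, b4_1_1⟩
theorem b5_8_0 : AllT (R 5) m5_8_0 := ⟨r5_0, r5_256⟩
theorem b5_8_1 : AllT (R 5) m5_8_1 := ⟨r5_1, r5_257⟩
theorem b5_8_2 : AllT (R 5) m5_8_2 := ⟨r5_2, r5_258⟩
theorem b5_8_3 : AllT (R 5) m5_8_3 := ⟨r5_3, r5_259⟩
theorem b5_8_4 : AllT (R 5) m5_8_4 := ⟨r5_4, r5_260⟩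
theorem b5_8_5 : AllT (R 5) m5_8_5 := ⟨r5_5, r5_261⟩
theorem b5_8_6 : AllT (R 5) m5_8_6 := ⟨r5_6, r5_262⟩
theorem b5_8_7 : AllT (R 5) m5_8_7 := ⟨r5_7, r5_263⟩
theorem b5_8_8 : AllT (R 5) m5_8_8 := ⟨r5_8, r5_264⟩
theorem b5_8_9 : AllT (R 5) m5_8_9 := ⟨r5_9, r5_265⟩
theorem b5_8_10 : AllT (R 5) m5_8_10 := ⟨r5_10, r5_266⟩
theorem b5_8_11 : AllT (R 5) m5_8_11 := ⟨r5_11, r5_267⟩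
theorem b5_8_12 : AllT (R 5) m5_8_12 := ⟨r5_12, r5_268⟩
theorem b5_8_13 : AllT (R 5) m5_8_13 := ⟨r5_13, r5_269⟩
theorem b5_8_14 : AllT (R 5) m5_8_14 := ⟨r5_14, r5_270⟩
theorem b5_8_15 : AllT (R 5) m5_8_15 := ⟨r5_15, r5_271⟩
theorem b5_8_16 : AllT (R 5) m5_8_16 := ⟨r5_16, r5_272⟩
theorem b5_8_17 : AllT (R 5) m5_8_17 := ⟨r5_17, r5_273⟩
theorem b5_8_18 : AllT (R 5) m5_8_18 := ⟨r5_18, r5_274⟩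
theorem b5_8_19 : AllT (R 5) m5_8_19 := ⟨r5_19, r5_275⟩
theorem b5_8_20 : AllT (R 5) m5_8_20 := ⟨r5_20, r5_276⟩
theorem b5_8_21 : AllT (R 5) m5_8_21 := ⟨r5_21, r5_277⟩
theorem b5_8_22 : AllT (R 5) m5_8_22 := ⟨r5_22, r5_278⟩
theorem b5_8_23 : AllT (R 5) m5_8_23 := ⟨r5_23, r5_279⟩
theorem b5_8_24 : AllT (R 5) m5_8_24 := ⟨r5_24, r5_280⟩
theorem b5_8_25 : AllT (R 5) m5_8_25 := ⟨r5_25, r5_281⟩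
theorem b5_8_26 : AllT (R 5) m5_8_26 := ⟨r5_26, r5_282⟩
theorem b5_8_27 : AllT (R 5) m5_8_27 := ⟨r5_27, r5_283⟩
theorem b5_8_28 : AllT (R 5) m5_8_28 := ⟨r5_28, r5_284⟩
theorem b5_8_29 : AllT (R 5) m5_8_29 := ⟨r5_29, r5_285⟩
theorem b5_8_30 : AllT (R 5) m5_8_30 := ⟨r5_30, r5_286⟩
theorem b5_8_31 : AllT (R 5) m5_8_31 := ⟨r5_31, r5_287⟩
theorem b5_8_32 : AllT (R 5) m5_8_32 := ⟨r5_32, r5_288⟩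
theorem b5_8_33 : AllT (R 5) m5_8_33 := ⟨r5_33, r5_289⟩
theorem b5_8_34 : AllT (R 5) m5_8_34 := ⟨r5_34, r5_290⟩
theorem b5_8_35 : AllT (R 5) m5_8_35 := ⟨r5_35, r5_291⟩
theorem b5_8_36 : AllT (R 5) m5_8_36 := ⟨r5_36, r5_292⟩
theorem b5_8_37 : AllT (R 5) m5_8_37 := ⟨r5_37, r5_293⟩
theorem b5_8_38 : AllT (R 5) m5_8_38 := ⟨r5_38, r5_294⟩
theorem b5_8_39 : AllT (R 5) m5_8_39 := ⟨r5_39, r5_295⟩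
theorem b5_8_40 : AllT (R 5) m5_8_40 := ⟨r5_40, r5_296⟩
theorem b5_8_41 : AllT (R 5) m5_8_41 := ⟨r5_41, r5_297⟩
theorem b5_8_42 : AllT (R 5) m5_8_42 := ⟨r5_42, r5_298⟩
theorem b5_8_43 : AllT (R 5) m5_8_43 := ⟨r5_43, r5_299⟩
theorem b5_8_44 : AllT (R 5) m5_8_44 := ⟨r5_44, r5_300⟩
theorem b5_8_45 : AllT (R 5) m5_8_45 := ⟨r5_45, r5_301⟩
theorem b5_8_46 : AllT (R 5) m5_8_46 := ⟨r5_46, r5_302⟩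
theorem b5_8_47 : AllT (R 5) m5_8_47 := ⟨r5_47, r5_303⟩
theorem b5_8_48 : AllT (R 5) m5_8_48 := ⟨r5_48, r5_304⟩
theorem b5_8_49 : AllT (R 5) m5_8_49 := ⟨r5_49, r5_305⟩
theorem b5_8_50 : AllT (R 5) m5_8_50 := ⟨r5_50, r5_306⟩
theorem b5_8_51 : AllT (R 5) m5_8_51 := ⟨r5_51, r5_307⟩
theorem b5_8_52 : AllT (R 5) m5_8_52 := ⟨r5_52, r5_308⟩
theorem b5_8_53 : AllT (R 5) m5_8_53 := ⟨r5_53, r5_309⟩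
theorem b5_8_54 : AllT (R 5) m5_8_54 := ⟨r5_54, r5_310⟩
theorem b5_8_55 : AllT (R 5) m5_8_55 := ⟨r5_55, r5_311⟩
theorem b5_8_56 : AllT (R 5) m5_8_56 := ⟨r5_56, r5_312⟩
theorem b5_8_57 : AllT (R 5) m5_8_57 := ⟨r5_57, r5_313⟩
theorem b5_8_58 : AllT (R 5) m5_8_58 := ⟨r5_58, r5_314⟩
theorem b5_8_59 : AllT (R 5) m5_8_59 := ⟨r5_59, r5_315⟩
theorem b5_8_60 : AllT (R 5) m5_8_60 := ⟨r5_60, r5_316⟩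
theorem b5_8_61 : AllT (R 5) m5_8_61 := ⟨r5_61, r5_317⟩
theorem b5_8_62 : AllT (R 5) m5_8_62 := ⟨r5_62, r5_318⟩
theorem b5_8_63 : AllT (R 5) m5_8_63 := ⟨r5_63, r5_319⟩
theorem b5_8_64 : AllT (R 5) m5_8_64 := ⟨r5_64, r5_320⟩
theorem b5_8_65 : AllT (R 5) m5_8_65 := ⟨r5_65, r5_321⟩
theorem b5_8_66 : AllT (R 5) m5_8_66 := ⟨r5_66, r5_322⟩
theorem b5_8_67 : AllT (R 5) m5_8_67 := ⟨r5_67, r5_323⟩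
theorem b5_8_68 : AllT (R 5) m5_8_68 := ⟨r5_68, r5_324⟩
theorem b5_8_69 : AllT (R 5) m5_8_69 := ⟨r5_69, r5_325⟩
theorem b5_8_70 : AllT (R 5) m5_8_70 := ⟨r5_70, r5_326⟩
theorem b5_8_71 : AllT (R 5) m5_8_71 := ⟨r5_71, r5_327⟩
theorem b5_8_72 : AllT (R 5) m5_8_72 := ⟨r5_72, r5_328⟩
theorem b5_8_73 : AllT (R 5) m5_8_73 := ⟨r5_73, r5_329⟩
theorem b5_8_74 : AllT (R 5) m5_8_74 := ⟨r5_74, r5_330⟩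
theorem b5_8_75 : AllT (R 5) m5_8_75 := ⟨r5_75, r5_331⟩
theorem b5_8_76 : AllT (R 5) m5_8_76 := ⟨r5_76, r5_332⟩
theorem b5_8_77 : AllT (R 5) m5_8_77 := ⟨r5_77, r5_333⟩
theorem b5_8_78 : AllT (R 5) m5_8_78 := ⟨r5_78, r5_334⟩
theorem b5_8_79 : AllT (R 5) m5_8_79 := ⟨r5_79, r5_335⟩
theorem b5_8_80 : AllT (R 5) m5_8_80 := ⟨r5_80, r5_336⟩
theorem b5_8_81 : AllT (R 5) m5_8_81 := ⟨r5_81, r5_337⟩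
theorem b5_8_82 : AllT (R 5) m5_8_82 := ⟨r5_82, r5_338⟩
theorem b5_8_83 : AllT (R 5) m5_8_83 := ⟨r5_83, r5_339⟩
theorem b5_8_84 : AllT (R 5) m5_8_84 := ⟨r5_84, r5_340⟩
theorem b5_8_85 : AllT (R 5) m5_8_85 := ⟨r5_85, r5_341⟩
theorem b5_8_86 : AllT (R 5) m5_8_86 := ⟨r5_86, r5_342⟩
theorem b5_8_87 : AllT (R 5) m5_8_87 := ⟨r5_87, r5_343⟩
theorem b5_8_88 : AllT (R 5) m5_8_88 := ⟨r5_88, r5_344⟩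
theorem b5_8_89 : AllT (R 5) m5_8_89 := ⟨r5_89, r5_345⟩
theorem b5_8_90 : AllT (R 5) m5_8_90 := ⟨r5_90, r5_346⟩
theorem b5_8_91 : AllT (R 5) m5_8_91 := ⟨r5_91, r5_347⟩
theorem b5_8_92 : AllT (R 5) m5_8_92 := ⟨r5_92, r5_348⟩
theorem b5_8_93 : AllT (R 5) m5_8_93 := ⟨r5_93, r5_349⟩
theorem b5_8_94 : AllT (R 5) m5_8_94 := ⟨r5_94, r5_350⟩
theorem b5_8_95 : AllT (R 5) m5_8_95 := ⟨r5_95, r5_351⟩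
theorem b5_8_96 : AllT (R 5) m5_8_96 := ⟨r5_96, r5_352⟩
theorem b5_8_97 : AllT (R 5) m5_8_97 := ⟨r5_97, r5_353⟩
theorem b5_8_98 : AllT (R 5) m5_8_98 := ⟨r5_98, r5_354⟩
theorem b5_8_99 : AllT (R 5) m5_8_99 := ⟨r5_99, r5_355⟩
theorem b5_8_100 : AllT (R 5) m5_8_100 := ⟨r5_100, r5_356⟩
theorem b5_8_101 : AllT (R 5) m5_8_101 := ⟨r5_101, r5_357⟩
theorem b5_8_102 : AllT (R 5) m5_8_102 := ⟨r5_102, r5_358⟩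
theorem b5_8_103 : AllT (R 5) m5_8_103 := ⟨r5_103, r5_359⟩
theorem b5_8_104 : AllT (R 5) m5_8_104 := ⟨r5_104, r5_360⟩
theorem b5_8_105 : AllT (R 5) m5_8_105 := ⟨r5_105, r5_361⟩
theorem b5_8_106 : AllT (R 5) m5_8_106 := ⟨r5_106, r5_362⟩
theorem b5_8_107 : AllT (R 5) m5_8_107 := ⟨r5_107, r5_363⟩
theorem b5_8_108 : AllT (R 5) m5_8_108 := ⟨r5_108, r5_364⟩
theorem b5_8_109 : AllT (R 5) m5_8_109 := ⟨r5_109, r5_365⟩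
theorem b5_8_110 : AllT (R 5) m5_8_110 := ⟨r5_110, r5_366⟩
theorem b5_8_111 : AllT (R 5) m5_8_111 := ⟨r5_111, r5_367⟩
theorem b5_8_112 : AllT (R 5) m5_8_112 := ⟨r5_112, r5_368⟩
theorem b5_8_113 : AllT (R 5) m5_8_113 := ⟨r5_113, r5_369⟩
theorem b5_8_114 : AllT (R 5) m5_8_114 := ⟨r5_114, r5_370⟩
theorem b5_8_115 : AllT (R 5) m5_8_115 := ⟨r5_115, r5_371⟩
theorem b5_8_116 : AllT (R 5) m5_8_116 := ⟨r5_116, r5_372⟩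
theorem b5_8_117 : AllT (R 5) m5_8_117 := ⟨r5_117, r5_373⟩
theorem b5_8_118 : AllT (R 5) m5_8_118 := ⟨r5_118, r5_374⟩
theorem b5_8_119 : AllT (R 5) m5_8_119 := ⟨r5_119, r5_375⟩
theorem b5_8_120 : AllT (R 5) m5_8_120 := ⟨r5_120, r5_376⟩
theorem b5_8_121 : AllT (R 5) m5_8_121 := ⟨r5_121, r5_377⟩
theorem b5_8_122 : AllT (R 5) m5_8_122 := ⟨r5_122, r5_378⟩
theorem b5_8_123 : AllT (R 5) m5_8_123 := ⟨r5_123, r5_379⟩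
theorem b5_8_124 : AllT (R 5) m5_8_124 := ⟨r5_124, r5_380⟩
theorem b5_8_125 : AllT (R 5) m5_8_125 := ⟨r5_125, r5_381⟩
theorem b5_8_126 : AllT (R 5) m5_8_126 := ⟨r5_126, r5_382⟩
theorem b5_8_127 : AllT (R 5) m5_8_127 := ⟨r5_127, r5_383⟩
theorem b5_8_128 : AllT (R 5) m5_8_128 := ⟨r5_128, r5_384⟩
theorem b5_8_129 : AllT (R 5) m5_8_129 := ⟨r5_129, r5_385⟩
theorem b5_8_130 : AllT (R 5) m5_8_130 := ⟨r5_130, r5_386⟩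
theorem b5_8_131 : AllT (R 5) m5_8_131 := ⟨r5_131, r5_387⟩
theorem b5_8_132 : AllT (R 5) m5_8_132 := ⟨r5_132, r5_388⟩
theorem b5_8_133 : AllT (R 5) m5_8_133 := ⟨r5_133, r5_389⟩
theorem b5_8_134 : AllT (R 5) m5_8_134 := ⟨r5_134, r5_390⟩
theorem b5_8_135 : AllT (R 5) m5_8_135 := ⟨r5_135, r5_391⟩
theorem b5_8_136 : AllT (R 5) m5_8_136 := ⟨r5_136, r5_392⟩
theorem b5_8_137 : AllT (R 5) m5_8_137 := ⟨r5_137, r5_393⟩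
theorem b5_8_138 : AllT (R 5) m5_8_138 := ⟨r5_138, r5_394⟩
theorem b5_8_139 : AllT (R 5) m5_8_139 := ⟨r5_139, r5_395⟩
theorem b5_8_140 : AllT (R 5) m5_8_140 := ⟨r5_140, r5_396⟩
theorem b5_8_141 : AllT (R 5) m5_8_141 := ⟨r5_141, r5_397⟩
theorem b5_8_142 : AllT (R 5) m5_8_142 := ⟨r5_142, r5_398⟩
theorem b5_8_143 : AllT (R 5) m5_8_143 := ⟨r5_143, r5_399⟩
theorem b5_8_144 : AllT (R 5) m5_8_144 := ⟨r5_144, r5_400⟩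
theorem b5_8_145 : AllT (R 5) m5_8_145 := ⟨r5_145, r5_401⟩
theorem b5_8_146 : AllT (R 5) m5_8_146 := ⟨r5_146, r5_402⟩
theorem b5_8_147 : AllT (R 5) m5_8_147 := ⟨r5_147, r5_403⟩
theorem b5_8_148 : AllT (R 5) m5_8_148 := ⟨r5_148, r5_404⟩
theorem b5_8_149 : AllT (R 5) m5_8_149 := ⟨r5_149, r5_405⟩
theorem b5_8_150 : AllT (R 5) m5_8_150 := ⟨r5_150, r5_406⟩
theorem b5_8_151 : AllT (R 5) m5_8_151 := ⟨r5_151, r5_407⟩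
theorem b5_8_152 : AllT (R 5) m5_8_152 := ⟨r5_152, r5_408⟩
theorem b5_8_153 : AllT (R 5) m5_8_153 := ⟨r5_153, r5_409⟩
theorem b5_8_154 : AllT (R 5) m5_8_154 := ⟨r5_154, r5_410⟩
theorem b5_8_155 : AllT (R 5) m5_8_155 := ⟨r5_155, r5_411⟩
theorem b5_8_156 : AllT (R 5) m5_8_156 := ⟨r5_156, r5_412⟩
theorem b5_8_157 : AllT (R 5) m5_8_157 := ⟨r5_157, r5_413⟩
theorem b5_8_158 : AllT (R 5) m5_8_158 := ⟨r5_158, r5_414⟩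
theorem b5_8_159 : AllT (R 5) m5_8_159 := ⟨r5_159, r5_415⟩
theorem b5_8_160 : AllT (R 5) m5_8_160 := ⟨r5_160, r5_416⟩
theorem b5_8_161 : AllT (R 5) m5_8_161 := ⟨r5_161, r5_417⟩
theorem b5_8_162 : AllT (R 5) m5_8_162 := ⟨r5_162, r5_418⟩
theorem b5_8_163 : AllT (R 5) m5_8_163 := ⟨r5_163, r5_419⟩
theorem b5_8_164 : AllT (R 5) m5_8_164 := ⟨r5_164, r5_420⟩
theorem b5_8_165 : AllT (R 5) m5_8_165 := ⟨r5_165, r5_421⟩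
theorem b5_8_166 : AllT (R 5) m5_8_166 := ⟨r5_166, r5_422⟩
theorem b5_8_167 : AllT (R 5) m5_8_167 := ⟨r5_167, r5_423⟩
theorem b5_8_168 : AllT (R 5) m5_8_168 := ⟨r5_168, r5_424⟩
theorem b5_8_169 : AllT (R 5) m5_8_169 := ⟨r5_169, r5_425⟩
theorem b5_8_170 : AllT (R 5) m5_8_170 := ⟨r5_170, r5_426⟩
theorem b5_8_171 : AllT (R 5) m5_8_171 := ⟨r5_171, r5_427⟩
theorem b5_8_172 : AllT (R 5) m5_8_172 := ⟨r5_172, r5_428⟩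
theorem b5_8_173 : AllT (R 5) m5_8_173 := ⟨r5_173, r5_429⟩
theorem b5_8_174 : AllT (R 5) m5_8_174 := ⟨r5_174, r5_430⟩
theorem b5_8_175 : AllT (R 5) m5_8_175 := ⟨r5_175, r5_431⟩
theorem b5_8_176 : AllT (R 5) m5_8_176 := ⟨r5_176, r5_432⟩
theorem b5_8_177 : AllT (R 5) m5_8_177 := ⟨r5_177, r5_433⟩
theorem b5_8_178 : AllT (R 5) m5_8_178 := ⟨r5_178, r5_434⟩
theorem b5_8_179 : AllT (R 5) m5_8_179 := ⟨r5_179, r5_435⟩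
theorem b5_8_180 : AllT (R 5) m5_8_180 := ⟨r5_180, r5_436⟩
theorem b5_8_181 : AllT (R 5) m5_8_181 := ⟨r5_181, r5_437⟩
theorem b5_8_182 : AllT (R 5) m5_8_182 := ⟨r5_182, r5_438⟩
theorem b5_8_183 : AllT (R 5) m5_8_183 := ⟨r5_183, r5_439⟩
theorem b5_8_184 : AllT (R 5) m5_8_184 := ⟨r5_184, r5_440⟩
theorem b5_8_185 : AllT (R 5) m5_8_185 := ⟨r5_185, r5_441⟩
theorem b5_8_186 : AllT (R 5) m5_8_186 := ⟨r5_186, r5_442⟩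
theorem b5_8_187 : AllT (R 5) m5_8_187 := ⟨r5_187, r5_443⟩
theorem b5_8_188 : AllT (R 5) m5_8_188 := ⟨r5_188, r5_444⟩
theorem b5_8_189 : AllT (R 5) m5_8_189 := ⟨r5_189, r5_445⟩
theorem b5_8_190 : AllT (R 5) m5_8_190 := ⟨r5_190, r5_446⟩
theorem b5_8_191 : AllT (R 5) m5_8_191 := ⟨r5_191, r5_447⟩
theorem b5_8_192 : AllT (R 5) m5_8_192 := ⟨r5_192, r5_448⟩
theorem b5_8_193 : AllT (R 5) m5_8_193 := ⟨r5_193, r5_449⟩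
theorem b5_8_194 : AllT (R 5) m5_8_194 := ⟨r5_194, r5_450⟩
theorem b5_8_195 : AllT (R 5) m5_8_195 := ⟨r5_195, r5_451⟩
theorem b5_8_196 : AllT (R 5) m5_8_196 := ⟨r5_196, r5_452⟩
theorem b5_8_197 : AllT (R 5) m5_8_197 := ⟨r5_197, r5_453⟩
theorem b5_8_198 : AllT (R 5) m5_8_198 := ⟨r5_198, r5_454⟩
theorem b5_8_199 : AllT (R 5) m5_8_199 := ⟨r5_199, r5_455⟩
theorem b5_8_200 : AllT (R 5) m5_8_200 := ⟨r5_200, r5_456⟩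
theorem b5_8_201 : AllT (R 5) m5_8_201 := ⟨r5_201, r5_457⟩
theorem b5_8_202 : AllT (R 5) m5_8_202 := ⟨r5_202, r5_458⟩
theorem b5_8_203 : AllT (R 5) m5_8_203 := ⟨r5_203, r5_459⟩
theorem b5_8_204 : AllT (R 5) m5_8_204 := ⟨r5_204, r5_460⟩
theorem b5_8_205 : AllT (R 5) m5_8_205 := ⟨r5_205, r5_461⟩
theorem b5_8_206 : AllT (R 5) m5_8_206 := ⟨r5_206, r5_462⟩
theorem b5_8_207 : AllT (R 5) m5_8_207 := ⟨r5_207, r5_463⟩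
theorem b5_8_208 : AllT (R 5) m5_8_208 := ⟨r5_208, r5_464⟩
theorem b5_8_209 : AllT (R 5) m5_8_209 := ⟨r5_209, r5_465⟩
theorem b5_8_210 : AllT (R 5) m5_8_210 := ⟨r5_210, r5_466⟩
theorem b5_8_211 : AllT (R 5) m5_8_211 := ⟨r5_211, r5_467⟩
theorem b5_8_212 : AllT (R 5) m5_8_212 := ⟨r5_212, r5_468⟩
theorem b5_8_213 : AllT (R 5) m5_8_213 := ⟨r5_213, r5_469⟩
theorem b5_8_214 : AllT (R 5) m5_8_214 := ⟨r5_214, r5_470⟩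
theorem b5_8_215 : AllT (R 5) m5_8_215 := ⟨r5_215, r5_471⟩
theorem b5_8_216 : AllT (R 5) m5_8_216 := ⟨r5_216, r5_472⟩
theorem b5_8_217 : AllT (R 5) m5_8_217 := ⟨r5_217, r5_473⟩
theorem b5_8_218 : AllT (R 5) m5_8_218 := ⟨r5_218, r5_474⟩
theorem b5_8_219 : AllT (R 5) m5_8_219 := ⟨r5_219, r5_475⟩
theorem b5_8_220 : AllT (R 5) m5_8_220 := ⟨r5_220, r5_476⟩
theorem b5_8_221 : AllT (R 5) m5_8_221 := ⟨r5_221, r5_477⟩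
theorem b5_8_222 : AllT (R 5) m5_8_222 := ⟨r5_222, r5_478⟩
theorem b5_8_223 : AllT (R 5) m5_8_223 := ⟨r5_223, r5_479⟩
theorem b5_8_224 : AllT (R 5) m5_8_224 := ⟨r5_224, r5_480⟩
theorem b5_8_225 : AllT (R 5) m5_8_225 := ⟨r5_225, r5_0⟩
theorem b5_8_226 : AllT (R 5) m5_8_226 := ⟨r5_226, r5_0⟩
theorem b5_8_227 : AllT (R 5) m5_8_227 := ⟨r5_227, r5_0⟩
theorem b5_8_228 : AllT (R 5) m5_8_228 := ⟨r5_228, r5_0⟩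
theorem b5_8_229 : AllT (R 5) m5_8_229 := ⟨r5_229, r5_0⟩
theorem b5_8_230 : AllT (R 5) m5_8_230 := ⟨r5_230, r5_0⟩
theorem b5_8_231 : AllT (R 5) m5_8_231 := ⟨r5_231, r5_0⟩
theorem b5_8_232 : AllT (R 5) m5_8_232 := ⟨r5_232, r5_0⟩
theorem b5_8_233 : AllT (R 5) m5_8_233 := ⟨r5_233, r5_0⟩
theorem b5_8_234 : AllT (R 5) m5_8_234 := ⟨r5_234, r5_0⟩
theorem b5_8_235 : AllT (R 5) m5_8_235 := ⟨r5_235, r5_0⟩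
theorem b5_8_236 : AllT (R 5) m5_8_236 := ⟨r5_236, r5_0⟩
theorem b5_8_237 : AllT (R 5) m5_8_237 := ⟨r5_237, r5_0⟩
theorem b5_8_238 : AllT (R 5) m5_8_238 := ⟨r5_238, r5_0⟩
theorem b5_8_239 : AllT (R 5) m5_8_239 := ⟨r5_239, r5_0⟩
theorem b5_8_240 : AllT (R 5) m5_8_240 := ⟨r5_240, r5_0⟩
theorem b5_8_241 : AllT (R 5) m5_8_241 := ⟨r5_241, r5_0⟩
theorem b5_8_242 : AllT (R 5) m5_8_242 := ⟨r5_242, r5_0⟩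
theorem b5_8_243 : AllT (R 5) m5_8_243 := ⟨r5_243, r5_0⟩
theorem b5_8_244 : AllT (R 5) m5_8_244 := ⟨r5_244, r5_0⟩
theorem b5_8_245 : AllT (R 5) m5_8_245 := ⟨r5_245, r5_0⟩
theorem b5_8_246 : AllT (R 5) m5_8_246 := ⟨r5_246, r5_0⟩
theorem b5_8_247 : AllT (R 5) m5_8_247 := ⟨r5_247, r5_0⟩
theorem b5_8_248 : AllT (R 5) m5_8_248 := ⟨r5_248, r5_0⟩
theorem b5_8_249 : AllT (R 5) m5_8_249 := ⟨r5_249, r5_0⟩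
theorem b5_8_250 : AllT (R 5) m5_8_250 := ⟨r5_250, r5_0⟩
theorem b5_8_251 : AllT (R 5) m5_8_251 := ⟨r5_251, r5_0⟩
theorem b5_8_252 : AllT (R 5) m5_8_252 := ⟨r5_252, r5_0⟩
theorem b5_8_253 : AllT (R 5) m5_8_253 := ⟨r5_253, r5_0⟩
theorem b5_8_254 : AllT (R 5) m5_8_254 := ⟨r5_254, r5_0⟩
theorem b5_8_255 : AllT (R 5) m5_8_255 := ⟨r5_255, r5_0⟩
theorem b5_7_0 : AllT (R 5) m5_7_0 := ⟨b5_8_0, b5_8_128⟩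
theorem b5_7_1 : AllT (R 5) m5_7_1 := ⟨b5_8_1, b5_8_129⟩
theorem b5_7_2 : AllT (R 5) m5_7_2 := ⟨b5_8_2, b5_8_130⟩
theorem b5_7_3 : AllT (R 5) m5_7_3 := ⟨b5_8_3, b5_8_131⟩
theorem b5_7_4 : AllT (R 5) m5_7_4 := ⟨b5_8_4, b5_8_132⟩
theorem b5_7_5 : AllT (R 5) m5_7_5 := ⟨b5_8_5, b5_8_133⟩
theorem b5_7_6 : AllT (R 5) m5_7_6 := ⟨b5_8_6, b5_8_134⟩
theorem b5_7_7 : AllT (R 5) m5_7_7 := ⟨b5_8_7, b5_8_135⟩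
theorem b5_7_8 : AllT (R 5) m5_7_8 := ⟨b5_8_8, b5_8_136⟩
theorem b5_7_9 : AllT (R 5) m5_7_9 := ⟨b5_8_9, b5_8_137⟩
theorem b5_7_10 : AllT (R 5) m5_7_10 := ⟨b5_8_10, b5_8_138⟩
theorem b5_7_11 : AllT (R 5) m5_7_11 := ⟨b5_8_11, b5_8_139⟩
theorem b5_7_12 : AllT (R 5) m5_7_12 := ⟨b5_8_12, b5_8_140⟩
theorem b5_7_13 : AllT (R 5) m5_7_13 := ⟨b5_8_13, b5_8_141⟩
theorem b5_7_14 : AllT (R 5) m5_7_14 := ⟨b5_8_14, b5_8_142⟩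
theorem b5_7_15 : AllT (R 5) m5_7_15 := ⟨b5_8_15, b5_8_143⟩
theorem b5_7_16 : AllT (R 5) m5_7_16 := ⟨b5_8_16, b5_8_144⟩
theorem b5_7_17 : AllT (R 5) m5_7_17 := ⟨b5_8_17, b5_8_145⟩
theorem b5_7_18 : AllT (R 5) m5_7_18 := ⟨b5_8_18, b5_8_146⟩
theorem b5_7_19 : AllT (R 5) m5_7_19 := ⟨b5_8_19, b5_8_147⟩
theorem b5_7_20 : AllT (R 5) m5_7_20 := ⟨b5_8_20, b5_8_148⟩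
theorem b5_7_21 : AllT (R 5) m5_7_21 := ⟨b5_8_21, b5_8_149⟩
theorem b5_7_22 : AllT (R 5) m5_7_22 := ⟨b5_8_22, b5_8_150⟩
theorem b5_7_23 : AllT (R 5) m5_7_23 := ⟨b5_8_23, b5_8_151⟩
theorem b5_7_24 : AllT (R 5) m5_7_24 := ⟨b5_8_24, b5_8_152⟩
theorem b5_7_25 : AllT (R 5) m5_7_25 := ⟨b5_8_25, b5_8_153⟩
theorem b5_7_26 : AllT (R 5) m5_7_26 := ⟨b5_8_26, b5_8_154⟩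
theorem b5_7_27 : AllT (R 5) m5_7_27 := ⟨b5_8_27, b5_8_155⟩
theorem b5_7_28 : AllT (R 5) m5_7_28 := ⟨b5_8_28, b5_8_156⟩
theorem b5_7_29 : AllT (R 5) m5_7_29 := ⟨b5_8_29, b5_8_157⟩
theorem b5_7_30 : AllT (R 5) m5_7_30 := ⟨b5_8_30, b5_8_158⟩
theorem b5_7_31 : AllT (R 5) m5_7_31 := ⟨b5_8_31, b5_8_159⟩
theorem b5_7_32 : AllT (R 5) m5_7_32 := ⟨b5_8_32, b5_8_160⟩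
theorem b5_7_33 : AllT (R 5) m5_7_33 := ⟨b5_8_33, b5_8_161⟩
theorem b5_7_34 : AllT (R 5) m5_7_34 := ⟨b5_8_34, b5_8_162⟩
theorem b5_7_35 : AllT (R 5) m5_7_35 := ⟨b5_8_35, b5_8_163⟩
theorem b5_7_36 : AllT (R 5) m5_7_36 := ⟨b5_8_36, b5_8_164⟩
theorem b5_7_37 : AllT (R 5) m5_7_37 := ⟨b5_8_37, b5_8_165⟩
theorem b5_7_38 : AllT (R 5) m5_7_38 := ⟨b5_8_38, b5_8_166⟩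
theorem b5_7_39 : AllT (R 5) m5_7_39 := ⟨b5_8_39, b5_8_167⟩
theorem b5_7_40 : AllT (R 5) m5_7_40 := ⟨b5_8_40, b5_8_168⟩
theorem b5_7_41 : AllT (R 5) m5_7_41 := ⟨b5_8_41, b5_8_169⟩
theorem b5_7_42 : AllT (R 5) m5_7_42 := ⟨b5_8_42, b5_8_170⟩
theorem b5_7_43 : AllT (R 5) m5_7_43 := ⟨b5_8_43, b5_8_171⟩
theorem b5_7_44 : AllT (R 5) m5_7_44 := ⟨b5_8_44, b5_8_172⟩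
theorem b5_7_45 : AllT (R 5) m5_7_45 := ⟨b5_8_45, b5_8_173⟩
theorem b5_7_46 : AllT (R 5) m5_7_46 := ⟨b5_8_46, b5_8_174⟩
theorem b5_7_47 : AllT (R 5) m5_7_47 := ⟨b5_8_47, b5_8_175⟩
theorem b5_7_48 : AllT (R 5) m5_7_48 := ⟨b5_8_48, b5_8_176⟩
theorem b5_7_49 : AllT (R 5) m5_7_49 := ⟨b5_8_49, b5_8_177⟩
theorem b5_7_50 : AllT (R 5) m5_7_50 := ⟨b5_8_50, b5_8_178⟩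
theorem b5_7_51 : AllT (R 5) m5_7_51 := ⟨b5_8_51, b5_8_179⟩
theorem b5_7_52 : AllT (R 5) m5_7_52 := ⟨b5_8_52, b5_8_180⟩
theorem b5_7_53 : AllT (R 5) m5_7_53 := ⟨b5_8_53, b5_8_181⟩
theorem b5_7_54 : AllT (R 5) m5_7_54 := ⟨b5_8_54, b5_8_182⟩
theorem b5_7_55 : AllT (R 5) m5_7_55 := ⟨b5_8_55, b5_8_183⟩
theorem b5_7_56 : AllT (R 5) m5_7_56 := ⟨b5_8_56, b5_8_184⟩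
theorem b5_7_57 : AllT (R 5) m5_7_57 := ⟨b5_8_57, b5_8_185⟩
theorem b5_7_58 : AllT (R 5) m5_7_58 := ⟨b5_8_58, b5_8_186⟩
theorem b5_7_59 : AllT (R 5) m5_7_59 := ⟨b5_8_59, b5_8_187⟩
theorem b5_7_60 : AllT (R 5) m5_7_60 := ⟨b5_8_60, b5_8_188⟩
theorem b5_7_61 : AllT (R 5) m5_7_61 := ⟨b5_8_61, b5_8_189⟩
theorem b5_7_62 : AllT (R 5) m5_7_62 := ⟨b5_8_62, b5_8_190⟩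
theorem b5_7_63 : AllT (R 5) m5_7_63 := ⟨b5_8_63, b5_8_191⟩
theorem b5_7_64 : AllT (R 5) m5_7_64 := ⟨b5_8_64, b5_8_192⟩
theorem b5_7_65 : AllT (R 5) m5_7_65 := ⟨b5_8_65, b5_8_193⟩
theorem b5_7_66 : AllT (R 5) m5_7_66 := ⟨b5_8_66, b5_8_194⟩
theorem b5_7_67 : AllT (R 5) m5_7_67 := ⟨b5_8_67, b5_8_195⟩
theorem b5_7_68 : AllT (R 5) m5_7_68 := ⟨b5_8_68, b5_8_196⟩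
theorem b5_7_69 : AllT (R 5) m5_7_69 := ⟨b5_8_69, b5_8_197⟩
theorem b5_7_70 : AllT (R 5) m5_7_70 := ⟨b5_8_70, b5_8_198⟩
theorem b5_7_71 : AllT (R 5) m5_7_71 := ⟨b5_8_71, b5_8_199⟩
theorem b5_7_72 : AllT (R 5) m5_7_72 := ⟨b5_8_72, b5_8_200⟩
theorem b5_7_73 : AllT (R 5) m5_7_73 := ⟨b5_8_73, b5_8_201⟩
theorem b5_7_74 : AllT (R 5) m5_7_74 := ⟨b5_8_74, b5_8_202⟩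
theorem b5_7_75 : AllT (R 5) m5_7_75 := ⟨b5_8_75, b5_8_203⟩
theorem b5_7_76 : AllT (R 5) m5_7_76 := ⟨b5_8_76, b5_8_204⟩
theorem b5_7_77 : AllT (R 5) m5_7_77 := ⟨b5_8_77, b5_8_205⟩
theorem b5_7_78 : AllT (R 5) m5_7_78 := ⟨b5_8_78, b5_8_206⟩
theorem b5_7_79 : AllT (R 5) m5_7_79 := ⟨b5_8_79, b5_8_207⟩
theorem b5_7_80 : AllT (R 5) m5_7_80 := ⟨b5_8_80, b5_8_208⟩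
theorem b5_7_81 : AllT (R 5) m5_7_81 := ⟨b5_8_81, b5_8_209⟩
theorem b5_7_82 : AllT (R 5) m5_7_82 := ⟨b5_8_82, b5_8_210⟩
theorem b5_7_83 : AllT (R 5) m5_7_83 := ⟨b5_8_83, b5_8_211⟩
theorem b5_7_84 : AllT (R 5) m5_7_84 := ⟨b5_8_84, b5_8_212⟩
theorem b5_7_85 : AllT (R 5) m5_7_85 := ⟨b5_8_85, b5_8_213⟩
theorem b5_7_86 : AllT (R 5) m5_7_86 := ⟨b5_8_86, b5_8_214⟩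
theorem b5_7_87 : AllT (R 5) m5_7_87 := ⟨b5_8_87, b5_8_215⟩
theorem b5_7_88 : AllT (R 5) m5_7_88 := ⟨b5_8_88, b5_8_216⟩
theorem b5_7_89 : AllT (R 5) m5_7_89 := ⟨b5_8_89, b5_8_217⟩
theorem b5_7_90 : AllT (R 5) m5_7_90 := ⟨b5_8_90, b5_8_218⟩
theorem b5_7_91 : AllT (R 5) m5_7_91 := ⟨b5_8_91, b5_8_219⟩
theorem b5_7_92 : AllT (R 5) m5_7_92 := ⟨b5_8_92, b5_8_220⟩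
theorem b5_7_93 : AllT (R 5) m5_7_93 := ⟨b5_8_93, b5_8_221⟩
theorem b5_7_94 : AllT (R 5) m5_7_94 := ⟨b5_8_94, b5_8_222⟩
theorem b5_7_95 : AllT (R 5) m5_7_95 := ⟨b5_8_95, b5_8_223⟩
theorem b5_7_96 : AllT (R 5) m5_7_96 := ⟨b5_8_96, b5_8_224⟩
theorem b5_7_97 : AllT (R 5) m5_7_97 := ⟨b5_8_97, b5_8_225⟩
theorem b5_7_98 : AllT (R 5) m5_7_98 := ⟨b5_8_98, b5_8_226⟩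
theorem b5_7_99 : AllT (R 5) m5_7_99 := ⟨b5_8_99, b5_8_227⟩
theorem b5_7_100 : AllT (R 5) m5_7_100 := ⟨b5_8_100, b5_8_228⟩
theorem b5_7_101 : AllT (R 5) m5_7_101 := ⟨b5_8_101, b5_8_229⟩
theorem b5_7_102 : AllT (R 5) m5_7_102 := ⟨b5_8_102, b5_8_230⟩
theorem b5_7_103 : AllT (R 5) m5_7_103 := ⟨b5_8_103, b5_8_231⟩
theorem b5_7_104 : AllT (R 5) m5_7_104 := ⟨b5_8_104, b5_8_232⟩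
theorem b5_7_105 : AllT (R 5) m5_7_105 := ⟨b5_8_105, b5_8_233⟩
theorem b5_7_106 : AllT (R 5) m5_7_106 := ⟨b5_8_106, b5_8_234⟩
theorem b5_7_107 : AllT (R 5) m5_7_107 := ⟨b5_8_107, b5_8_235⟩
theorem b5_7_108 : AllT (R 5) m5_7_108 := ⟨b5_8_108, b5_8_236⟩
theorem b5_7_109 : AllT (R 5) m5_7_109 := ⟨b5_8_109, b5_8_237⟩
theorem b5_7_110 : AllT (R 5) m5_7_110 := ⟨b5_8_110, b5_8_238⟩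
theorem b5_7_111 : AllT (R 5) m5_7_111 := ⟨b5_8_111, b5_8_239⟩
theorem b5_7_112 : AllT (R 5) m5_7_112 := ⟨b5_8_112, b5_8_240⟩
theorem b5_7_113 : AllT (R 5) m5_7_113 := ⟨b5_8_113, b5_8_241⟩
theorem b5_7_114 : AllT (R 5) m5_7_114 := ⟨b5_8_114, b5_8_242⟩
theorem b5_7_115 : AllT (R 5) m5_7_115 := ⟨b5_8_115, b5_8_243⟩
theorem b5_7_116 : AllT (R 5) m5_7_116 := ⟨b5_8_116, b5_8_244⟩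
theorem b5_7_117 : AllT (R 5) m5_7_117 := ⟨b5_8_117, b5_8_245⟩
theorem b5_7_118 : AllT (R 5) m5_7_118 := ⟨b5_8_118, b5_8_246⟩
theorem b5_7_119 : AllT (R 5) m5_7_119 := ⟨b5_8_119, b5_8_247⟩
theorem b5_7_120 : AllT (R 5) m5_7_120 := ⟨b5_8_120, b5_8_248⟩
theorem b5_7_121 : AllT (R 5) m5_7_121 := ⟨b5_8_121, b5_8_249⟩
theorem b5_7_122 : AllT (R 5) m5_7_122 := ⟨b5_8_122, b5_8_250⟩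
theorem b5_7_123 : AllT (R 5) m5_7_123 := ⟨b5_8_123, b5_8_251⟩
theorem b5_7_124 : AllT (R 5) m5_7_124 := ⟨b5_8_124, b5_8_252⟩
theorem b5_7_125 : AllT (R 5) m5_7_125 := ⟨b5_8_125, b5_8_253⟩
theorem b5_7_126 : AllT (R 5) m5_7_126 := ⟨b5_8_126, b5_8_254⟩
theorem b5_7_127 : AllT (R 5) m5_7_127 := ⟨b5_8_127, b5_8_255⟩
theorem b5_6_0 : AllT (R 5) m5_6_0 := ⟨b5_7_0, b5_7_64⟩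
theorem b5_6_1 : AllT (R 5) m5_6_1 := ⟨b5_7_1, b5_7_65⟩
theorem b5_6_2 : AllT (R 5) m5_6_2 := ⟨b5_7_2, b5_7_66⟩
theorem b5_6_3 : AllT (R 5) m5_6_3 := ⟨b5_7_3, b5_7_67⟩
theorem b5_6_4 : AllT (R 5) m5_6_4 := ⟨b5_7_4, b5_7_68⟩
theorem b5_6_5 : AllT (R 5) m5_6_5 := ⟨b5_7_5, b5_7_69⟩
theorem b5_6_6 : AllT (R 5) m5_6_6 := ⟨b5_7_6, b5_7_70⟩
theorem b5_6_7 : AllT (R 5) m5_6_7 := ⟨b5_7_7, b5_7_71⟩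
theorem b5_6_8 : AllT (R 5) m5_6_8 := ⟨b5_7_8, b5_7_72⟩
theorem b5_6_9 : AllT (R 5) m5_6_9 := ⟨b5_7_9, b5_7_73⟩
theorem b5_6_10 : AllT (R 5) m5_6_10 := ⟨b5_7_10, b5_7_74⟩
theorem b5_6_11 : AllT (R 5) m5_6_11 := ⟨b5_7_11, b5_7_75⟩
theorem b5_6_12 : AllT (R 5) m5_6_12 := ⟨b5_7_12, b5_7_76⟩
theorem b5_6_13 : AllT (R 5) m5_6_13 := ⟨b5_7_13, b5_7_77⟩
theorem b5_6_14 : AllT (R 5) m5_6_14 := ⟨b5_7_14, b5_7_78⟩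
theorem b5_6_15 : AllT (R 5) m5_6_15 := ⟨b5_7_15, b5_7_79⟩
theorem b5_6_16 : AllT (R 5) m5_6_16 := ⟨b5_7_16, b5_7_80⟩
theorem b5_6_17 : AllT (R 5) m5_6_17 := ⟨b5_7_17, b5_7_81⟩
theorem b5_6_18 : AllT (R 5) m5_6_18 := ⟨b5_7_18, b5_7_82⟩
theorem b5_6_19 : AllT (R 5) m5_6_19 := ⟨b5_7_19, b5_7_83⟩
theorem b5_6_20 : AllT (R 5) m5_6_20 := ⟨b5_7_20, b5_7_84⟩
theorem b5_6_21 : AllT (R 5) m5_6_21 := ⟨b5_7_21, b5_7_85⟩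
theorem b5_6_22 : AllT (R 5) m5_6_22 := ⟨b5_7_22, b5_7_86⟩
theorem b5_6_23 : AllT (R 5) m5_6_23 := ⟨b5_7_23, b5_7_87⟩
theorem b5_6_24 : AllT (R 5) m5_6_24 := ⟨b5_7_24, b5_7_88⟩
theorem b5_6_25 : AllT (R 5) m5_6_25 := ⟨b5_7_25, b5_7_89⟩
theorem b5_6_26 : AllT (R 5) m5_6_26 := ⟨b5_7_26, b5_7_90⟩
theorem b5_6_27 : AllT (R 5) m5_6_27 := ⟨b5_7_27, b5_7_91⟩
theorem b5_6_28 : AllT (R 5) m5_6_28 := ⟨b5_7_28, b5_7_92⟩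
theorem b5_6_29 : AllT (R 5) m5_6_29 := ⟨b5_7_29, b5_7_93⟩
theorem b5_6_30 : AllT (R 5) m5_6_30 := ⟨b5_7_30, b5_7_94⟩
theorem b5_6_31 : AllT (R 5) m5_6_31 := ⟨b5_7_31, b5_7_95⟩
theorem b5_6_32 : AllT (R 5) m5_6_32 := ⟨b5_7_32, b5_7_96⟩
theorem b5_6_33 : AllT (R 5) m5_6_33 := ⟨b5_7_33, b5_7_97⟩
theorem b5_6_34 : AllT (R 5) m5_6_34 := ⟨b5_7_34, b5_7_98⟩
theorem b5_6_35 : AllT (R 5) m5_6_35 := ⟨b5_7_35, b5_7_99⟩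
theorem b5_6_36 : AllT (R 5) m5_6_36 := ⟨b5_7_36, b5_7_100⟩
theorem b5_6_37 : AllT (R 5) m5_6_37 := ⟨b5_7_37, b5_7_101⟩
theorem b5_6_38 : AllT (R 5) m5_6_38 := ⟨b5_7_38, b5_7_102⟩
theorem b5_6_39 : AllT (R 5) m5_6_39 := ⟨b5_7_39, b5_7_103⟩
theorem b5_6_40 : AllT (R 5) m5_6_40 := ⟨b5_7_40, b5_7_104⟩
theorem b5_6_41 : AllT (R 5) m5_6_41 := ⟨b5_7_41, b5_7_105⟩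
theorem b5_6_42 : AllT (R 5) m5_6_42 := ⟨b5_7_42, b5_7_106⟩
theorem b5_6_43 : AllT (R 5) m5_6_43 := ⟨b5_7_43, b5_7_107⟩
theorem b5_6_44 : AllT (R 5) m5_6_44 := ⟨b5_7_44, b5_7_108⟩
theorem b5_6_45 : AllT (R 5) m5_6_45 := ⟨b5_7_45, b5_7_109⟩
theorem b5_6_46 : AllT (R 5) m5_6_46 := ⟨b5_7_46, b5_7_110⟩
theorem b5_6_47 : AllT (R 5) m5_6_47 := ⟨b5_7_47, b5_7_111⟩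
theorem b5_6_48 : AllT (R 5) m5_6_48 := ⟨b5_7_48, b5_7_112⟩
theorem b5_6_49 : AllT (R 5) m5_6_49 := ⟨b5_7_49, b5_7_113⟩
theorem b5_6_50 : AllT (R 5) m5_6_50 := ⟨b5_7_50, b5_7_114⟩
theorem b5_6_51 : AllT (R 5) m5_6_51 := ⟨b5_7_51, b5_7_115⟩
theorem b5_6_52 : AllT (R 5) m5_6_52 := ⟨b5_7_52, b5_7_116⟩
theorem b5_6_53 : AllT (R 5) m5_6_53 := ⟨b5_7_53, b5_7_117⟩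
theorem b5_6_54 : AllT (R 5) m5_6_54 := ⟨b5_7_54, b5_7_118⟩
theorem b5_6_55 : AllT (R 5) m5_6_55 := ⟨b5_7_55, b5_7_119⟩
theorem b5_6_56 : AllT (R 5) m5_6_56 := ⟨b5_7_56, b5_7_120⟩
theorem b5_6_57 : AllT (R 5) m5_6_57 := ⟨b5_7_57, b5_7_121⟩
theorem b5_6_58 : AllT (R 5) m5_6_58 := ⟨b5_7_58, b5_7_122⟩
theorem b5_6_59 : AllT (R 5) m5_6_59 := ⟨b5_7_59, b5_7_123⟩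
theorem b5_6_60 : AllT (R 5) m5_6_60 := ⟨b5_7_60, b5_7_124⟩
theorem b5_6_61 : AllT (R 5) m5_6_61 := ⟨b5_7_61, b5_7_125⟩
theorem b5_6_62 : AllT (R 5) m5_6_62 := ⟨b5_7_62, b5_7_126⟩
theorem b5_6_63 : AllT (R 5) m5_6_63 := ⟨b5_7_63, b5_7_127⟩
theorem b5_5_0 : AllT (R 5) m5_5_0 := ⟨b5_6_0, b5_6_32⟩
theorem b5_5_1 : AllT (R 5) m5_5_1 := ⟨b5_6_1, b5_6_33⟩
theorem b5_5_2 : AllT (R 5) m5_5_2 := ⟨b5_6_2, b5_6_34⟩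
theorem b5_5_3 : AllT (R 5) m5_5_3 := ⟨b5_6_3, b5_6_35⟩
theorem b5_5_4 : AllT (R 5) m5_5_4 := ⟨b5_6_4, b5_6_36⟩
theorem b5_5_5 : AllT (R 5) m5_5_5 := ⟨b5_6_5, b5_6_37⟩
theorem b5_5_6 : AllT (R 5) m5_5_6 := ⟨b5_6_6, b5_6_38⟩
theorem b5_5_7 : AllT (R 5) m5_5_7 := ⟨b5_6_7, b5_6_39⟩
theorem b5_5_8 : AllT (R 5) m5_5_8 := ⟨b5_6_8, b5_6_40⟩
theorem b5_5_9 : AllT (R 5) m5_5_9 := ⟨b5_6_9, b5_6_41⟩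
theorem b5_5_10 : AllT (R 5) m5_5_10 := ⟨b5_6_10, b5_6_42⟩
theorem b5_5_11 : AllT (R 5) m5_5_11 := ⟨b5_6_11, b5_6_43⟩
theorem b5_5_12 : AllT (R 5) m5_5_12 := ⟨b5_6_12, b5_6_44⟩
theorem b5_5_13 : AllT (R 5) m5_5_13 := ⟨b5_6_13, b5_6_45⟩
theorem b5_5_14 : AllT (R 5) m5_5_14 := ⟨b5_6_14, b5_6_46⟩
theorem b5_5_15 : AllT (R 5) m5_5_15 := ⟨b5_6_15, b5_6_47⟩
theorem b5_5_16 : AllT (R 5) m5_5_16 := ⟨b5_6_16, b5_6_48⟩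
theorem b5_5_17 : AllT (R 5) m5_5_17 := ⟨b5_6_17, b5_6_49⟩
theorem b5_5_18 : AllT (R 5) m5_5_18 := ⟨b5_6_18, b5_6_50⟩
theorem b5_5_19 : AllT (R 5) m5_5_19 := ⟨b5_6_19, b5_6_51⟩
theorem b5_5_20 : AllT (R 5) m5_5_20 := ⟨b5_6_20, b5_6_52⟩
theorem b5_5_21 : AllT (R 5) m5_5_21 := ⟨b5_6_21, b5_6_53⟩
theorem b5_5_22 : AllT (R 5) m5_5_22 := ⟨b5_6_22, b5_6_54⟩
theorem b5_5_23 : AllT (R 5) m5_5_23 := ⟨b5_6_23, b5_6_55⟩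
theorem b5_5_24 : AllT (R 5) m5_5_24 := ⟨b5_6_24, b5_6_56⟩
theorem b5_5_25 : AllT (R 5) m5_5_25 := ⟨b5_6_25, b5_6_57⟩
theorem b5_5_26 : AllT (R 5) m5_5_26 := ⟨b5_6_26, b5_6_58⟩
theorem b5_5_27 : AllT (R 5) m5_5_27 := ⟨b5_6_27, b5_6_59⟩
theorem b5_5_28 : AllT (R 5) m5_5_28 := ⟨b5_6_28, b5_6_60⟩
theorem b5_5_29 : AllT (R 5) m5_5_29 := ⟨b5_6_29, b5_6_61⟩
theorem b5_5_30 : AllT (R 5) m5_5_30 := ⟨b5_6_30, b5_6_62⟩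
theorem b5_5_31 : AllT (R 5) m5_5_31 := ⟨b5_6_31, b5_6_63⟩
theorem b5_4_0 : AllT (R 5) m5_4_0 := ⟨b5_5_0, b5_5_16⟩
theorem b5_4_1 : AllT (R 5) m5_4_1 := ⟨b5_5_1, b5_5_17⟩
theorem b5_4_2 : AllT (R 5) m5_4_2 := ⟨b5_5_2, b5_5_18⟩
theorem b5_4_3 : AllT (R 5) m5_4_3 := ⟨b5_5_3, b5_5_19⟩
theorem b5_4_4 : AllT (R 5) m5_4_4 := ⟨b5_5_4, b5_5_20⟩
theorem b5_4_5 : AllT (R 5) m5_4_5 := ⟨b5_5_5, b5_5_21⟩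
theorem b5_4_6 : AllT (R 5) m5_4_6 := ⟨b5_5_6, b5_5_22⟩
theorem b5_4_7 : AllT (R 5) m5_4_7 := ⟨b5_5_7, b5_5_23⟩
theorem b5_4_8 : AllT (R 5) m5_4_8 := ⟨b5_5_8, b5_5_24⟩
theorem b5_4_9 : AllT (R 5) m5_4_9 := ⟨b5_5_9, b5_5_25⟩
theorem b5_4_10 : AllT (R 5) m5_4_10 := ⟨b5_5_10, b5_5_26⟩
theorem b5_4_11 : AllT (R 5) m5_4_11 := ⟨b5_5_11, b5_5_27⟩
theorem b5_4_12 : AllT (R 5) m5_4_12 := ⟨b5_5_12, b5_5_28⟩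
theorem b5_4_13 : AllT (R 5) m5_4_13 := ⟨b5_5_13, b5_5_29⟩
theorem b5_4_14 : AllT (R 5) m5_4_14 := ⟨b5_5_14, b5_5_30⟩
theorem b5_4_15 : AllT (R 5) m5_4_15 := ⟨b5_5_15, b5_5_31⟩
theorem b5_3_0 : AllT (R 5) m5_3_0 := ⟨b5_4_0, b5_4_8⟩
theorem b5_3_1 : AllT (R 5) m5_3_1 := ⟨b5_4_1, b5_4_9⟩
theorem b5_3_2 : AllT (R 5) m5_3_2 := ⟨b5_4_2, b5_4_10⟩
theorem b5_3_3 : AllT (R 5) m5_3_3 := ⟨b5_4_3, b5_4_11⟩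
theorem b5_3_4 : AllT (R 5) m5_3_4 := ⟨b5_4_4, b5_4_12⟩
theorem b5_3_5 : AllT (R 5) m5_3_5 := ⟨b5_4_5, b5_4_13⟩
theorem b5_3_6 : AllT (R 5) m5_3_6 := ⟨b5_4_6, b5_4_14⟩
theorem b5_3_7 : AllT (R 5) m5_3_7 := ⟨b5_4_7, b5_4_15⟩
theorem b5_2_0 : AllT (R 5) m5_2_0 := ⟨b5_3_0, b5_3_4⟩
theorem b5_2_1 : AllT (R 5) m5_2_1 := ⟨b5_3_1, b5_3_5⟩
theorem b5_2_2 : AllT (R 5) m5_2_2 := ⟨b5_3_2, b5_3_6⟩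
theorem b5_2_3 : AllT (R 5) m5_2_3 := ⟨b5_3_3, b5_3_7⟩
theorem b5_1_0 : AllT (R 5) m5_1_0 := ⟨b5_2_0, b5_2_2⟩
theorem b5_1_1 : AllT (R 5) m5_1_1 := ⟨b5_2_1, b5_2_3⟩
theorem b5_0_0 : AllT (R 5) m5_0_0 := ⟨b5_1_0, b5_1_1⟩

theorem rt0 : AllT (R 0) vt0 := r0_0
theorem rt1 : AllT (R 1) vt1 := r1_0
theorem rt2 : AllT (R 2) vt2 := b2_0_0
theorem rt3 : AllT (R 3) vt3 := b3_0_0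
theorem rt4 : AllT (R 4) vt4 := b4_0_0
theorem rt5 : AllT (R 5) vt5 := b5_0_0

theorem env_ok : env.OK 5 dflt := by
  rw [env_eq, dflt_eq]
  exact mkEnv_ok (by norm_num)

theorem vt_all (k : ℕ) (hk : k ≤ 5) (j : ℕ) : R k ((vtF k).get j) := by
  have h : ∀ k, k ≤ 5 → AllT (R k) (vtF k) := by
    intro k hk
    match k, hk with
    | 0, _ => exact rt0
    | 1, _ => exact rt1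
    | 2, _ => exact rt2
    | 3, _ => exact rt3
    | 4, _ => exact rt4
    | 5, _ => exact rt5
    | n + 6, hk => omega
  exact AllT.get (h k hk) j

theorem tab : Tab dflt env pt tb vtF 5 := by
  refine ⟨by norm_num, env_ok, pt_eq, ?_, fun k hk j => (vt_all k hk j).1,
    fun k hk j => (vt_all k hk j).2, fun i => ((AllT.get (Q := Q) (t := tb) a0_0 i)).1,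
    fun i => ((AllT.get (Q := Q) (t := tb) a0_0 i)).2, ⟨0, ?_⟩, ⟨2, ?_⟩⟩
  · rw [env_eq]
    exact mkEnv_sw
  · exact ⟨by decide +kernel, by decide +kernel, by decide +kernel, by decide +kernel⟩
  · exact ⟨by decide +kernel, by decide +kernel, by decide +kernel, by decide +kernel,
      by decide +kernel⟩

theorem flow {V E : Type} [Fintype V] [DecidableEq V] [Fintype E] [DecidableEq E]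
    (src dst : E → V) (hb : ∀ Y, (dlt src dst Y).card ≠ 1) (hTD : HasTD 5 src dst) :
    NZF src dst :=
  flow_of_tab tab src dst hb hTD

end Pool.Agent.TH497.TW.K5
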